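import Pool.Agent.Helper82.Nut.Closure

/-!
Square 0/1 matrices with constant row and column sums and corank one, with nowhere zero right and
left kernel vectors: complement, switch and Fowler extension.
-/

namespace PolyNut

open Finset Classical

/-- `C` is a 0/1 matrix with row and column sums `d`, right kernel spanned by the nowhere zero `w`
and left kernel spanned by the nowhere zero `z`. -/
structure BiM {R S : Type} [Fintype R] [Fintype S] (d : ℕ) (C : R → S → ℝ) (w : S → ℝ)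
    (z : R → ℝ) : Prop where
  zo : ∀ i j, C i j = 0 ∨ C i j = 1
  row : ∀ i, ∑ j, C i j = d
  col : ∀ j, ∑ i, C i j = d
  wne : ∀ j, w j ≠ 0
  zne : ∀ i, z i ≠ 0
  kw : ∀ i, ∑ j, C i j * w j = 0
  kz : ∀ j, ∑ i, C i j * z i = 0
  uw : ∀ y : S → ℝ, (∀ i, ∑ j, C i j * y j = 0) → ∃ c : ℝ, ∀ j, y j = c * w j
  uz : ∀ y : R → ℝ, (∀ j, ∑ i, C i j * y i = 0) → ∃ c : ℝ, ∀ i, y i = c * z i

def Bi (d m : ℕ) : Prop :=
  ∃ (C : Fin m → Fin m → ℝ) (w : Fin m → ℝ) (z : Fin m → ℝ), BiM d C w z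

section

variable {R S : Type} [Fintype R] [Fintype S] {d : ℕ} {C : R → S → ℝ} {w : S → ℝ} {z : R → ℝ}

theorem BiM.swap (h : BiM d C w z) : BiM d (fun j i => C i j) z w :=
  ⟨fun i j => h.zo j i, h.col, h.row, h.zne, h.wne, h.kz, h.kw, h.uz, h.uw⟩

theorem BiM.toBi (h : BiM d C w z) {m : ℕ} (hR : Fintype.card R = m) (hS : Fintype.card S = m) :
    Bi d m := by
  obtain ⟨e⟩ : Nonempty (Fin m ≃ R) := by rw [← Fintype.card_eq]; simp [hR]
  obtain ⟨f⟩ : Nonempty (Fin m ≃ S) := by rw [← Fintype.card_eq]; simp [hS]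
  refine ⟨fun i j => C (e i) (f j), fun j => w (f j), fun i => z (e i), fun i j => h.zo _ _,
    fun i => ?_, fun j => ?_, fun j => h.wne _, fun i => h.zne _, fun i => ?_, fun j => ?_,
    fun y hy => ?_, fun y hy => ?_⟩
  · rw [Equiv.sum_comp f (fun b => C (e i) b)]; exact h.row _
  · rw [Equiv.sum_comp e (fun b => C b (f j))]; exact h.col _
  · rw [Equiv.sum_comp f (fun b => C (e i) b * w b)]; exact h.kw _
  · rw [Equiv.sum_comp e (fun b => C b (f j) * z b)]; exact h.kz _
  · obtain ⟨c, hc⟩ := h.uw (fun a => y (f.symm a)) (by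
      intro a
      have h1 := hy (e.symm a)
      simp only [Equiv.apply_symm_apply] at h1
      rw [← h1, ← Equiv.sum_comp f (fun b => C a b * y (f.symm b))]
      simp)
    exact ⟨c, fun a => by simpa using hc (f a)⟩
  · obtain ⟨c, hc⟩ := h.uz (fun a => y (e.symm a)) (by
      intro a
      have h1 := hy (f.symm a)
      simp only [Equiv.apply_symm_apply] at h1
      rw [← h1, ← Equiv.sum_comp e (fun b => C b a * y (e.symm b))]
      simp)
    exact ⟨c, fun a => by simpa using hc (e a)⟩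

theorem BiM.compl (h : BiM d C w z) (hd : 1 ≤ d) {m : ℕ} (hR : Fintype.card R = m)
    (hS : Fintype.card S = m) (hm : d < m) : BiM (m - d) (fun i j => 1 - C i j) w z := by
  have key : ∀ {R S : Type} [Fintype R] [Fintype S] {C : R → S → ℝ} {w : S → ℝ} {z : R → ℝ},
      BiM d C w z → Fintype.card R = m → Fintype.card S = m →
      (∀ i, ∑ j, (1 - C i j) = ((m - d : ℕ) : ℝ)) ∧ (∀ i, ∑ j, (1 - C i j) * w j = 0) ∧
      ∀ y : S → ℝ, (∀ i, ∑ j, (1 - C i j) * y j = 0) → ∃ c : ℝ, ∀ j, y j = c * w j := by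
    intro R S _ _ C w z h hR hS
    have htr : (d : ℝ) ≠ 0 := by positivity
    have colsum : ∀ y : S → ℝ, ∑ i, ∑ j, C i j * y j = d * ∑ j, y j := by
      intro y
      rw [Finset.sum_comm, Finset.mul_sum]
      refine Finset.sum_congr rfl fun j _ => ?_
      rw [← Finset.sum_mul, ← h.col j]
    have hx0 : ∑ j, w j = 0 := by
      have := colsum w
      simp only [h.kw, Finset.sum_const_zero] at this
      rcases mul_eq_zero.mp this.symm with h1 | h1
      · exact absurd h1 htr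
      · exact h1
    refine ⟨?_, ?_, ?_⟩
    · intro i
      simp only [Finset.sum_sub_distrib, h.row]
      rw [Nat.cast_sub hm.le]
      simp [hS]
    · intro i
      simp only [sub_mul, one_mul, Finset.sum_sub_distrib, hx0, h.kw, sub_zero]
    · intro y hy
      have h1 : ∀ i, ∑ j, C i j * y j = ∑ j, y j := by
        intro i
        have := hy i
        simp only [sub_mul, one_mul, Finset.sum_sub_distrib] at this
        linarith
      have h2 := colsum y
      simp only [h1, Finset.sum_const, Finset.card_univ, nsmul_eq_mul, hR] at h2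
      have h3 : (m : ℝ) - d ≠ 0 := by
        have : (d : ℝ) < m := by exact_mod_cast hm
        intro h0; linarith
      have h4 : ∑ j, y j = 0 := by
        have : ((m : ℝ) - d) * ∑ j, y j = 0 := by linarith
        rcases mul_eq_zero.mp this with h5 | h5
        · exact absurd h5 h3
        · exact h5
      exact h.uw y (fun i => by rw [h1, h4])
  obtain ⟨a1, a2, a3⟩ := key h hR hS
  obtain ⟨b1, b2, b3⟩ := key h.swap hS hR
  refine ⟨?_, a1, b1, h.wne, h.zne, a2, b2, a3, b3⟩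
  intro i j
  rcases h.zo i j with h1 | h1 <;> simp [h1]

/-- nonsymmetric switch -/
noncomputable def bsw {R₁ S₁ R₂ S₂ : Type} (C₁ : R₁ → S₁ → ℝ) (u : R₁) (v : S₁) (C₂ : R₂ → S₂ → ℝ)
    (a : R₂) (b : S₂) : R₁ ⊕ R₂ → S₁ ⊕ S₂ → ℝ
  | .inl i, .inl j => if i = u ∧ j = v then 0 else C₁ i j
  | .inr i, .inr j => if i = a ∧ j = b then 0 else C₂ i j
  | .inl i, .inr j => if i = u ∧ j = b then 1 else 0
  | .inr i, .inl j => if i = a ∧ j = v then 1 else 0

theorem bsw_right {R₁ S₁ R₂ S₂ : Type} [Fintype R₁] [Fintype S₁] [Fintype R₂] [Fintype S₂]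
    {C₁ : R₁ → S₁ → ℝ} {u : R₁} {v : S₁} {C₂ : R₂ → S₂ → ℝ} {a : R₂} {b : S₂}
    {w₁ : S₁ → ℝ} {z₁ : R₁ → ℝ} {w₂ : S₂ → ℝ} {z₂ : R₂ → ℝ}
    (h₁ : BiM d C₁ w₁ z₁) (h₂ : BiM d C₂ w₂ z₂) (huv : C₁ u v = 1) (hab : C₂ a b = 1) :
    (∀ p q, bsw C₁ u v C₂ a b p q = 0 ∨ bsw C₁ u v C₂ a b p q = 1) ∧
    (∀ p, ∑ q, bsw C₁ u v C₂ a b p q = d) ∧
    (∀ q, Sum.elim w₁ (fun j => w₁ v / w₂ b * w₂ j) q ≠ 0) ∧
    (∀ p, ∑ q, bsw C₁ u v C₂ a b p q * Sum.elim w₁ (fun j => w₁ v / w₂ b * w₂ j) q = 0) ∧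
    ∀ y : S₁ ⊕ S₂ → ℝ, (∀ p, ∑ q, bsw C₁ u v C₂ a b p q * y q = 0) →
      ∃ c : ℝ, ∀ q, y q = c * Sum.elim w₁ (fun j => w₁ v / w₂ b * w₂ j) q := by
  have hw2 := h₂.wne b
  have rl : ∀ (y : S₁ ⊕ S₂ → ℝ) (i : R₁), ∑ q, bsw C₁ u v C₂ a b (.inl i) q * y q =
      ∑ j, C₁ i j * y (.inl j) + (if i = u then y (.inr b) - y (.inl v) else 0) := by
    intro y i
    simp only [Fintype.sum_sum_type, bsw]
    have e1 : ∀ j, (if i = u ∧ j = v then 0 else C₁ i j) * y (.inl j) =
        C₁ i j * y (.inl j) - (if j = v then (if i = u then y (.inl v) else 0) else 0) := by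
      intro j
      by_cases hj : j = v
      · subst hj
        by_cases hi : i = u
        · subst hi; simp [huv]
        · simp [hi]
      · simp [hj]
    have e2 : ∀ j, (if i = u ∧ j = b then (1 : ℝ) else 0) * y (.inr j) =
        (if j = b then (if i = u then y (.inr b) else 0) else 0) := by
      intro j
      by_cases hj : j = b
      · subst hj
        by_cases hi : i = u
        · subst hi; simp
        · simp [hi]
      · simp [hj]
    rw [Finset.sum_congr rfl (fun j _ => e1 j), Finset.sum_congr rfl (fun j _ => e2 j),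
      Finset.sum_sub_distrib, Finset.sum_ite_eq' Finset.univ v, Finset.sum_ite_eq' Finset.univ b]
    simp only [mem_univ, if_true]
    split_ifs <;> ring
  have rr : ∀ (y : S₁ ⊕ S₂ → ℝ) (i : R₂), ∑ q, bsw C₁ u v C₂ a b (.inr i) q * y q =
      ∑ j, C₂ i j * y (.inr j) + (if i = a then y (.inl v) - y (.inr b) else 0) := by
    intro y i
    simp only [Fintype.sum_sum_type, bsw]
    have e1 : ∀ j, (if i = a ∧ j = b then 0 else C₂ i j) * y (.inr j) =
        C₂ i j * y (.inr j) - (if j = b then (if i = a then y (.inr b) else 0) else 0) := by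
      intro j
      by_cases hj : j = b
      · subst hj
        by_cases hi : i = a
        · subst hi; simp [hab]
        · simp [hi]
      · simp [hj]
    have e2 : ∀ j, (if i = a ∧ j = v then (1 : ℝ) else 0) * y (.inl j) =
        (if j = v then (if i = a then y (.inl v) else 0) else 0) := by
      intro j
      by_cases hj : j = v
      · subst hj
        by_cases hi : i = a
        · subst hi; simp
        · simp [hi]
      · simp [hj]
    rw [Finset.sum_congr rfl (fun j _ => e1 j), Finset.sum_congr rfl (fun j _ => e2 j),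
      Finset.sum_sub_distrib, Finset.sum_ite_eq' Finset.univ v, Finset.sum_ite_eq' Finset.univ b]
    simp only [mem_univ, if_true]
    split_ifs <;> ring
  refine ⟨?_, ?_, ?_, ?_, ?_⟩
  · rintro (i | i) (j | j) <;> simp only [bsw]
    · split_ifs
      · left; rfl
      · exact h₁.zo i j
    · split_ifs <;> simp
    · split_ifs <;> simp
    · split_ifs
      · left; rfl
      · exact h₂.zo i j
  · rintro (i | i)
    · have := rl (fun _ => 1) i
      simp only [mul_one, sub_self, ite_self, add_zero] at this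
      rw [this, h₁.row]
    · have := rr (fun _ => 1) i
      simp only [mul_one, sub_self, ite_self, add_zero] at this
      rw [this, h₂.row]
  · rintro (j | j)
    · exact h₁.wne j
    · exact mul_ne_zero (div_ne_zero (h₁.wne _) hw2) (h₂.wne _)
  · have e : w₁ v / w₂ b * w₂ b = w₁ v := by field_simp
    rintro (i | i)
    · rw [rl]
      simp only [Sum.elim_inl, Sum.elim_inr, h₁.kw, e, sub_self, ite_self, add_zero]
    · rw [rr]
      simp only [Sum.elim_inl, Sum.elim_inr, e, sub_self, ite_self, add_zero]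
      have : ∑ j, C₂ i j * (w₁ v / w₂ b * w₂ j) = w₁ v / w₂ b * ∑ j, C₂ i j * w₂ j := by
        rw [Finset.mul_sum]; exact Finset.sum_congr rfl fun j _ => by ring
      rw [this, h₂.kw, mul_zero]
  · intro y hy
    have hdot : z₁ u * (y (.inr b) - y (.inl v)) = 0 := by
      have h1 : ∑ i, z₁ i * (∑ j, C₁ i j * y (.inl j)
          + (if i = u then y (.inr b) - y (.inl v) else 0)) = 0 :=
        Finset.sum_eq_zero fun i _ => by rw [← rl y i, hy, mul_zero]
      have h2 : ∑ i, z₁ i * ∑ j, C₁ i j * y (.inl j) = 0 := by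
        have : ∑ i, z₁ i * ∑ j, C₁ i j * y (.inl j) = ∑ j, y (.inl j) * ∑ i, C₁ i j * z₁ i := by
          simp_rw [Finset.mul_sum]
          rw [Finset.sum_comm]
          refine Finset.sum_congr rfl fun b _ => Finset.sum_congr rfl fun a _ => by ring
        rw [this]
        exact Finset.sum_eq_zero fun j _ => by rw [h₁.kz j, mul_zero]
      simp only [mul_add, Finset.sum_add_distrib, h2, zero_add, mul_ite, mul_zero,
        Finset.sum_ite_eq', Finset.mem_univ, if_true] at h1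
      exact h1
    have heq : y (.inr b) = y (.inl v) := by
      rcases mul_eq_zero.mp hdot with h3 | h3
      · exact absurd h3 (h₁.zne u)
      · linarith
    obtain ⟨c, hc⟩ := h₁.uw (fun j => y (.inl j)) (by
      intro i
      have := rl y i
      rw [hy, heq] at this
      simp only [sub_self, ite_self, add_zero] at this
      exact this.symm)
    obtain ⟨c', hc'⟩ := h₂.uw (fun j => y (.inr j)) (by
      intro i
      have := rr y i
      rw [hy, heq] at this
      simp only [sub_self, ite_self, add_zero] at this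
      exact this.symm)
    refine ⟨c, ?_⟩
    have e2 : c' = c * (w₁ v / w₂ b) := by
      have h3 := hc' b
      have h4 := hc v
      rw [heq, h4] at h3
      field_simp
      linarith
    rintro (j | j)
    · exact hc j
    · simp only [Sum.elim_inr]
      rw [hc' j, e2]; ring

theorem bsw_swap {R₁ S₁ R₂ S₂ : Type} (C₁ : R₁ → S₁ → ℝ) (u : R₁) (v : S₁) (C₂ : R₂ → S₂ → ℝ)
    (a : R₂) (b : S₂) (p : R₁ ⊕ R₂) (q : S₁ ⊕ S₂) :
    bsw (fun j i => C₁ i j) v u (fun j i => C₂ i j) b a q p = bsw C₁ u v C₂ a b p q := by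
  rcases p with i | i <;> rcases q with j | j <;> simp only [bsw, and_comm]

theorem BiM.switch {R₁ S₁ R₂ S₂ : Type} [Fintype R₁] [Fintype S₁] [Fintype R₂] [Fintype S₂]
    {C₁ : R₁ → S₁ → ℝ} {u : R₁} {v : S₁} {C₂ : R₂ → S₂ → ℝ} {a : R₂} {b : S₂}
    {w₁ : S₁ → ℝ} {z₁ : R₁ → ℝ} {w₂ : S₂ → ℝ} {z₂ : R₂ → ℝ}
    (h₁ : BiM d C₁ w₁ z₁) (h₂ : BiM d C₂ w₂ z₂) (huv : C₁ u v = 1) (hab : C₂ a b = 1) :
    ∃ w z, BiM d (bsw C₁ u v C₂ a b) w z := by
  obtain ⟨a1, a2, a3, a4, a5⟩ := bsw_right h₁ h₂ huv hab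
  obtain ⟨b1, b2, b3, b4, b5⟩ := bsw_right h₁.swap h₂.swap huv hab
  simp only [bsw_swap] at b1 b2 b4 b5
  exact ⟨_, _, a1, a2, b2, a3, b3, a4, b4, a5, b5⟩

end

theorem Bi.add {d m₁ m₂ : ℕ} (h₁ : Bi d m₁) (h₂ : Bi d m₂) (hd : 1 ≤ d) (hm₁ : 1 ≤ m₁)
    (hm₂ : 1 ≤ m₂) : Bi d (m₁ + m₂) := by
  obtain ⟨C₁, w₁, z₁, h₁⟩ := h₁
  obtain ⟨C₂, w₂, z₂, h₂⟩ := h₂
  let u : Fin m₁ := ⟨0, by omega⟩
  let a : Fin m₂ := ⟨0, by omega⟩
  have ex : ∀ {m : ℕ} {C : Fin m → Fin m → ℝ} {w z : Fin m → ℝ}, BiM d C w z → ∀ i,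
      ∃ j, C i j = 1 := by
    intro m C w z h i
    by_contra hcon
    push Not at hcon
    have : ∑ b, C i b = 0 := Finset.sum_eq_zero fun b _ => by
      rcases h.zo i b with h' | h'
      · exact h'
      · exact absurd h' (hcon b)
    have h2 := h.row i
    rw [this] at h2
    have : (d : ℝ) ≠ 0 := by positivity
    exact this h2.symm
  obtain ⟨v, hv⟩ := ex h₁ u
  obtain ⟨b, hb⟩ := ex h₂ a
  obtain ⟨w, z, h⟩ := h₁.switch h₂ hv hb
  exact h.toBi (by simp) (by simp)

theorem Bi.compl {d m : ℕ} (h : Bi d m) (hd : 1 ≤ d) (hm : d < m) : Bi (m - d) m := by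
  obtain ⟨C, w, z, h⟩ := h
  exact (h.compl hd (by simp) (by simp) hm).toBi (by simp) (by simp)

theorem SA.bi {d N : ℕ} (h : SA d N) : Bi d N := by
  obtain ⟨M, x, h⟩ := h
  refine ⟨M, x, x, h.zo, h.row, fun j => ?_, h.ne, h.ne, h.ker, fun j => ?_, h.uniq,
    fun y hy => h.uniq y (fun j => ?_)⟩
  · rw [← h.row j]; exact Finset.sum_congr rfl fun i _ => h.symm i j
  · rw [← h.ker j]; exact Finset.sum_congr rfl fun i _ => by rw [h.symm i j]
  · rw [← hy j]; exact Finset.sum_congr rfl fun i _ => by rw [h.symm i j]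

end PolyNut
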