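import Pool.Agent.Helper82.Nut.Bip

/-!
Fowler extension for nonsymmetric matrices; insertion of a nonsymmetric matrix; the linear range.
-/

namespace PolyNut

open Finset Classical

section

variable {R S : Type} [Fintype R] [Fintype S] {d : ℕ} {C : R → S → ℝ} {w : S → ℝ} {z : R → ℝ}

abbrev NbC (C : R → S → ℝ) (r : R) : Type := {c : S // C r c = 1}

theorem card_nbC (h : BiM d C w z) (r : R) : Fintype.card (NbC C r) = d := by
  have h2 : ((Finset.univ.filter (fun b => C r b = 1)).card : ℝ) = d := by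
    rw [← h.row r, Finset.card_filter]
    push_cast
    refine Finset.sum_congr rfl fun b _ => ?_
    rcases h.zo r b with h0 | h0 <;> simp [h0]
  rw [Fintype.card_subtype]
  exact_mod_cast h2

theorem sum_nbC (h : BiM d C w z) (r : R) (f : S → ℝ) :
    ∑ p : NbC C r, f p.1 = ∑ b, C r b * f b := by
  rw [← Finset.sum_subtype (Finset.univ.filter (fun b => C r b = 1)) (by simp) f,
    Finset.sum_filter]
  refine Finset.sum_congr rfl fun b _ => ?_
  rcases h.zo r b with h0 | h0 <;> simp [h0]

/-- The Fowler extension at the row `r`. -/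
noncomputable def bfow (C : R → S → ℝ) (r : R) : R ⊕ NbC C r → S ⊕ NbC C r → ℝ
  | .inl i, .inl c => if i = r then 0 else C i c
  | .inl i, .inr _ => if i = r then 1 else 0
  | .inr p, .inl c => if c = p.1 then 1 else 0
  | .inr p, .inr q => if p = q then 0 else 1

theorem bfow_row (h : BiM d C w z) (r : R) (y : S ⊕ NbC C r → ℝ) :
    (∀ i, i ≠ r → ∑ q, bfow C r (.inl i) q * y q = ∑ c, C i c * y (.inl c)) ∧
    (∑ q, bfow C r (.inl r) q * y q = ∑ p, y (.inr p)) ∧
    (∀ p : NbC C r, ∑ q, bfow C r (.inr p) q * y q =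
      y (.inl p.1) + (∑ q, y (.inr q) - y (.inr p))) := by
  refine ⟨?_, ?_, ?_⟩
  · intro i hi
    simp [Fintype.sum_sum_type, bfow, hi]
  · simp [Fintype.sum_sum_type, bfow]
  · intro p
    simp only [Fintype.sum_sum_type, bfow]
    rw [sum_ite_nb (fun q => y (.inr q))]
    simp

theorem bfow_col (h : BiM d C w z) (r : R) (y : R ⊕ NbC C r → ℝ) :
    (∀ c, ∑ p, bfow C r p (.inl c) * y p = ∑ i, C i c * y (.inl i) - C r c * y (.inl r)
      + ∑ p : NbC C r, (if c = p.1 then y (.inr p) else 0)) ∧
    (∀ q : NbC C r, ∑ p, bfow C r p (.inr q) * y p =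
      y (.inl r) + (∑ p, y (.inr p) - y (.inr q))) := by
  refine ⟨?_, ?_⟩
  · intro c
    simp only [Fintype.sum_sum_type, bfow]
    have e1 : ∀ i, (if i = r then 0 else C i c) * y (.inl i) = C i c * y (.inl i)
        - (if i = r then C r c * y (.inl r) else 0) := by
      intro i; by_cases hi : i = r
      · subst hi; simp
      · simp [hi]
    rw [Finset.sum_congr rfl (fun i _ => e1 i), Finset.sum_sub_distrib,
      Finset.sum_ite_eq' Finset.univ r]
    simp
  · intro q
    simp only [Fintype.sum_sum_type, bfow]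
    rw [sum_ite_nb' (fun p => y (.inr p))]
    simp

theorem BiM.fowler (h : BiM d C w z) (hd : 2 ≤ d) (r : R) :
    BiM d (bfow C r) (Sum.elim w (fun p => w p.1))
      (Sum.elim (fun i => if i = r then -((d : ℝ) - 1) * z r else z i) (fun _ => z r)) := by
  have hcard := card_nbC h r
  have hd1 : (d : ℝ) - 1 ≠ 0 := by
    have : (2 : ℝ) ≤ d := by exact_mod_cast hd
    intro h0; linarith
  have hite : ∀ (c : S) (e : ℝ), ∑ p : NbC C r, (if c = p.1 then e else 0) = C r c * e := by
    intro c e
    rcases h.zo r c with h0 | h0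
    · rw [h0, zero_mul]
      refine Finset.sum_eq_zero fun p _ => ?_
      rw [if_neg]
      rintro rfl
      have := p.2
      rw [h0] at this; norm_num at this
    · rw [h0, one_mul]
      rw [Finset.sum_eq_single (⟨c, h0⟩ : NbC C r)]
      · simp
      · rintro ⟨b, hb⟩ _ hne
        rw [if_neg]
        rintro rfl
        exact hne rfl
      · intro hc; exact absurd (mem_univ _) hc
  refine ⟨?_, ?_, ?_, ?_, ?_, ?_, ?_, ?_, ?_⟩
  · rintro (i | p) (c | q) <;> simp only [bfow]
    · split_ifs
      · left; rfl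
      · exact h.zo i c
    all_goals (split_ifs <;> simp)
  · obtain ⟨r1, r2, r3⟩ := bfow_row h r (fun _ => 1)
    simp only [mul_one] at r1 r2 r3
    rintro (i | p)
    · by_cases hi : i = r
      · subst hi; rw [r2]; simp [hcard]
      · rw [r1 i hi, h.row]
    · rw [r3]; simp [hcard]
  · obtain ⟨c1, c2⟩ := bfow_col h r (fun _ => 1)
    simp only [mul_one] at c1 c2
    rintro (c | q)
    · rw [c1, hite, h.col]; ring
    · rw [c2]; simp [hcard]
  · rintro (c | q)
    · exact h.wne c
    · exact h.wne _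
  · rintro (i | p)
    · simp only [Sum.elim_inl]
      split_ifs
      · exact mul_ne_zero (neg_ne_zero.mpr hd1) (h.zne r)
      · exact h.zne i
    · exact h.zne r
  · obtain ⟨r1, r2, r3⟩ := bfow_row h r (Sum.elim w (fun p => w p.1))
    have hs : ∑ p : NbC C r, w p.1 = 0 := by rw [sum_nbC h, h.kw]
    rintro (i | p)
    · by_cases hi : i = r
      · subst hi; rw [r2]; exact hs
      · rw [r1 i hi]; exact h.kw i
    · rw [r3]; simp only [Sum.elim_inl, Sum.elim_inr, hs]; ring
  · obtain ⟨c1, c2⟩ := bfow_col h r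
      (Sum.elim (fun i => if i = r then -((d : ℝ) - 1) * z r else z i) (fun _ => z r))
    rintro (c | q)
    · rw [c1]
      simp only [Sum.elim_inl, Sum.elim_inr, if_true, hite]
      have e1 : ∀ i, C i c * (if i = r then -((d : ℝ) - 1) * z r else z i) =
          C i c * z i + (if i = r then C r c * (-((d : ℝ) - 1) * z r) - C r c * z r else 0) := by
        intro i; by_cases hi : i = r
        · subst hi; simp
        · simp [hi]
      rw [Finset.sum_congr rfl (fun i _ => e1 i), Finset.sum_add_distrib, h.kz,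
        Finset.sum_ite_eq' Finset.univ r]
      simp only [mem_univ, if_true]; ring
    · rw [c2]; simp [hcard]; ring
  · intro y hy
    obtain ⟨r1, r2, r3⟩ := bfow_row h r y
    have hq0 : ∑ p, y (.inr p) = 0 := by rw [← r2, hy]
    have hq : ∀ p, y (.inr p) = y (.inl p.1) := by
      intro p
      have := r3 p
      rw [hy, hq0] at this
      linarith
    obtain ⟨s, hs⟩ := h.uw (fun c => y (.inl c)) (by
      intro i
      by_cases hi : i = r
      · subst hi
        rw [← sum_nbC h i (fun c => y (.inl c)), ← hq0]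
        exact Finset.sum_congr rfl fun p _ => (hq p).symm
      · rw [← r1 i hi, hy])
    refine ⟨s, ?_⟩
    rintro (c | p)
    · exact hs c
    · rw [hq p]; exact hs p.1
  · intro y hy
    obtain ⟨c1, c2⟩ := bfow_col h r y
    set e : ℝ := y (.inl r) + ∑ p, y (.inr p) with he
    have hp : ∀ p, y (.inr p) = e := by
      intro p
      have := c2 p
      rw [hy] at this
      linarith
    have hyr : y (.inl r) = -((d : ℝ) - 1) * e := by
      have : e = y (.inl r) + d * e := by
        conv_lhs => rw [he]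
        simp_rw [hp]
        simp [hcard]
      linarith
    obtain ⟨s, hs⟩ := h.uz (fun i => if i = r then e else y (.inl i)) (by
      intro c
      have h2 := c1 c
      simp_rw [hp, hite c e, hy] at h2
      have h1 : ∀ i, C i c * (if i = r then e else y (.inl i)) =
          C i c * y (.inl i) + (if i = r then C r c * e - C r c * y (.inl r) else 0) := by
        intro i; by_cases hi : i = r
        · subst hi; simp
        · simp [hi]
      rw [Finset.sum_congr rfl (fun i _ => h1 i), Finset.sum_add_distrib,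
        Finset.sum_ite_eq' Finset.univ r]
      simp only [mem_univ, if_true]
      linarith)
    have hsr : e = s * z r := by simpa using hs r
    refine ⟨s, ?_⟩
    rintro (i | p)
    · simp only [Sum.elim_inl]
      by_cases hi : i = r
      · subst hi
        simp only [if_true]
        rw [hyr, hsr]; ring
      · have := hs i
        simpa [hi] using this
    · rw [hp p, hsr]; rfl

end

theorem Bi.fowler {d m : ℕ} (h : Bi d m) (hd : 2 ≤ d) (hm : 1 ≤ m) : Bi d (m + d) := by
  obtain ⟨C, w, z, h⟩ := h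
  have hc := card_nbC h ⟨0, by omega⟩
  exact (h.fowler hd ⟨0, by omega⟩).toBi
    (by rw [Fintype.card_sum, hc, Fintype.card_fin])
    (by rw [Fintype.card_sum, hc, Fintype.card_fin])

/-- The bipartite double of a nonsymmetric matrix. -/
def dblC {R S : Type} (C : R → S → ℝ) : R ⊕ S → R ⊕ S → ℝ
  | .inl i, .inr j => C i j
  | .inr j, .inl i => C i j
  | .inl _, .inl _ => 0
  | .inr _, .inr _ => 0

theorem BiM.gad {R S : Type} [Fintype R] [Fintype S] {d : ℕ} {C : R → S → ℝ}
    {w : S → ℝ} {z : R → ℝ} (h : BiM d C w z) {a : R} {b : S} (hab : C a b = 1) :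
    Gad d (dblC C) (.inl a) (.inr b) (Sum.elim (fun i => z i / z a) 0)
      (Sum.elim 0 (fun j => w j / w b)) := by
  have ha := h.zne a
  have hb := h.wne b
  have kw : ∀ (i : R) (c : ℝ), ∑ j, C i j * (w j / c) = 0 := by
    intro i c
    have : ∑ j, C i j * (w j / c) = (∑ j, C i j * w j) / c := by
      rw [Finset.sum_div]; exact Finset.sum_congr rfl fun j _ => by ring
    rw [this, h.kw, zero_div]
  have kz : ∀ (j : S) (c : ℝ), ∑ i, C i j * (z i / c) = 0 := by
    intro j c
    have : ∑ i, C i j * (z i / c) = (∑ i, C i j * z i) / c := by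
      rw [Finset.sum_div]; exact Finset.sum_congr rfl fun j _ => by ring
    rw [this, h.kz, zero_div]
  refine ⟨?_, ?_, ?_, by simp, hab, ?_, ?_, ?_, by simp, by simp, ?_, ?_⟩
  · rintro (i | i) (j | j) <;> simp only [dblC]
  · rintro (i | i) (j | j) <;> simp only [dblC]
    · left; trivial
    · exact h.zo _ _
    · exact h.zo _ _
    · left; trivial
  · rintro (i | i) <;> simp [Fintype.sum_sum_type, dblC, h.row, h.col]
  · rintro (i | i)
    · simp [Fintype.sum_sum_type, dblC]
    · simp [Fintype.sum_sum_type, dblC, kz]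
  · rintro (i | i)
    · simp [Fintype.sum_sum_type, dblC, kw]
    · simp [Fintype.sum_sum_type, dblC]
  · simp [ha]
  · simp [hb]
  · intro y hy
    obtain ⟨c, hc⟩ := h.uz (fun i => y (.inl i)) (by
      intro j
      have := hy (.inr j)
      simpa [Fintype.sum_sum_type, dblC] using this)
    obtain ⟨c', hc'⟩ := h.uw (fun j => y (.inr j)) (by
      intro i
      have := hy (.inl i)
      simpa [Fintype.sum_sum_type, dblC] using this)
    rintro (i | i)
    · simp only [Sum.elim_inl, Pi.zero_apply, mul_zero, add_zero]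
      rw [hc i, hc a]; field_simp
    · simp only [Sum.elim_inr, Pi.zero_apply, mul_zero, zero_add]
      rw [hc' i, hc' b]; field_simp

theorem Semi.insertC {V R S : Type} [Fintype V] [DecidableEq V] [Fintype R] [Fintype S]
    [DecidableEq R] [DecidableEq S]
    {d : ℕ} {M : V → V → ℝ} {x : V → ℝ} (h : Semi d M x) {u v : V} (huv : u ≠ v)
    (hMuv : M u v = 1) {C : R → S → ℝ} {w : S → ℝ} {z : R → ℝ} (g : BiM d C w z) {a : R} {b : S}
    (hab : C a b = 1) : ∃ y, Semi d (sw M u v (dblC C) (.inl a) (.inr b)) y := by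
  refine ⟨_, h.switch huv hMuv (g.gad hab) ?_⟩
  rintro (i | i)
  · simp only [Sum.elim_inl, Pi.zero_apply, mul_zero, add_zero]
    exact mul_ne_zero (h.ne _) (div_ne_zero (g.zne _) (g.zne _))
  · simp only [Sum.elim_inr, Pi.zero_apply, mul_zero, zero_add]
    exact mul_ne_zero (h.ne _) (div_ne_zero (g.wne _) (g.wne _))

theorem SG.insertB {d N m : ℕ} (h : SG d N) (hN : 1 ≤ N) (hd : 1 ≤ d) (g : Bi d m) (hm : 1 ≤ m) :
    SG d (N + 2 * m) := by
  obtain ⟨M, x, hM, h0⟩ := h
  obtain ⟨C, w, z, hC⟩ := g
  let u : Fin N := ⟨0, by omega⟩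
  let a : Fin m := ⟨0, by omega⟩
  obtain ⟨v, hv⟩ := exists_nb hM.zo u (hM.row u) hd
  obtain ⟨b, hb⟩ := exists_nb hC.zo a (hC.row a) hd
  have huv : u ≠ v := by
    intro e; rw [← e, h0] at hv; norm_num at hv
  obtain ⟨y, hy⟩ := hM.insertC huv hv hC hb
  refine hy.toSG ?_ ?_
  · rintro (w | w)
    · simp only [sw]; rw [cut_diag huv, h0]
    · simp only [sw]; rw [cut_diag (by simp)]
      rcases w with w | w <;> rfl
  · simp only [Fintype.card_sum, Fintype.card_fin]; ring

theorem SB.insertB {d N m : ℕ} (h : SB d N) (hd : 1 ≤ d) (g : Bi d m) (hm : 1 ≤ m) :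
    SB d (N + 2 * m) := by
  obtain ⟨M, x, hM, ⟨u, hu⟩, w, hw⟩ := h
  obtain ⟨C, w', z, hC⟩ := g
  let a : Fin m := ⟨0, by omega⟩
  obtain ⟨v, hv⟩ := exists_nb hM.zo u (hM.row u) hd
  obtain ⟨b, hb⟩ := exists_nb hC.zo a (hC.row a) hd
  have huv : u ≠ v := by
    intro e; rw [← e, hu] at hv; norm_num at hv
  obtain ⟨y, hy⟩ := hM.insertC huv hv hC hb
  refine hy.toSB ⟨.inl u, ?_⟩ ⟨.inl w, ?_⟩ ?_
  · simp only [sw]; rw [cut_diag huv, hu]
  · simp only [sw]; rw [cut_diag huv, hw]
  · simp only [Fintype.card_sum, Fintype.card_fin]; ring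

end PolyNut
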