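import Pool.Agent.Helper82.Nut.Fowler

/-!
Kernel-checkable certificates.
-/

namespace PolyNut

open Finset

/-- Entry of an integer matrix given by rows. -/
def lk (L : List (List ℤ)) (i j : ℕ) : ℤ := (L.getD i []).getD j 0

/-- Adjacency from neighbour lists. -/
def nb (R : List (List ℕ)) (i j : ℕ) : ℤ := if (R.getD i []).contains j then 1 else 0

/-- certificate that the kernel of `a` is spanned by the nowhere zero vector `x`. -/
def KerCert (N : ℕ) (a : Fin N → Fin N → ℤ) (x : Fin N → ℤ) (q : Fin N → Fin N → ℤ) (D : ℤ)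
    (o : Fin N) : Prop :=
  D ≠ 0 ∧ (∀ i, x i ≠ 0) ∧ (∀ i, ∑ j, a i j * x j = 0) ∧
  ∀ i j, ∑ k, q i k * a k j = D * ((if i = j then x o else 0) - (if j = o then x i else 0))

instance (N : ℕ) (a : Fin N → Fin N → ℤ) (x : Fin N → ℤ) (q : Fin N → Fin N → ℤ) (D : ℤ)
    (o : Fin N) : Decidable (KerCert N a x q D o) := by
  unfold KerCert; infer_instance

/-- certificate for symmetric zero-one matrices. -/
def SymCert (N d : ℕ) (a : Fin N → Fin N → ℤ) : Prop :=
  (∀ i j, a i j = a j i) ∧ (∀ i j, a i j = 0 ∨ a i j = 1) ∧ ∀ i, ∑ j, a i j = d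

instance (N d : ℕ) (a : Fin N → Fin N → ℤ) : Decidable (SymCert N d a) := by
  unfold SymCert; infer_instance

theorem KerCert.uniq {N : ℕ} {a : Fin N → Fin N → ℤ} {x : Fin N → ℤ} {q : Fin N → Fin N → ℤ}
    {D : ℤ} {o : Fin N} (h : KerCert N a x q D o) (y : Fin N → ℝ)
    (hy : ∀ i, ∑ j, (a i j : ℝ) * y j = 0) : ∃ c : ℝ, ∀ i, y i = c * x i := by
  obtain ⟨hD, hx, -, hq⟩ := h
  have hxo : (x o : ℝ) ≠ 0 := by exact_mod_cast hx o
  have hDr : (D : ℝ) ≠ 0 := by exact_mod_cast hD
  refine ⟨y o / x o, fun i => ?_⟩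
  have h1 : ∑ j, (∑ k, (q i k : ℝ) * (a k j : ℝ)) * y j = 0 := by
    have : ∑ j, (∑ k, (q i k : ℝ) * (a k j : ℝ)) * y j =
        ∑ k, (q i k : ℝ) * ∑ j, (a k j : ℝ) * y j := by
      simp_rw [Finset.sum_mul, Finset.mul_sum]
      rw [Finset.sum_comm]
      refine Finset.sum_congr rfl fun k _ => Finset.sum_congr rfl fun j _ => by ring
    rw [this]
    exact Finset.sum_eq_zero fun k _ => by rw [hy k, mul_zero]
  have h2 : ∀ j, (∑ k, (q i k : ℝ) * (a k j : ℝ)) =
      D * ((if i = j then (x o : ℝ) else 0) - (if j = o then (x i : ℝ) else 0)) := by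
    intro j
    have := hq i j
    have h3 : ((∑ k, q i k * a k j : ℤ) : ℝ) =
        ((D * ((if i = j then x o else 0) - (if j = o then x i else 0)) : ℤ) : ℝ) := by
      rw [this]
    push_cast at h3
    exact h3
  simp_rw [h2] at h1
  have h3 : ∑ j, (D : ℝ) * ((if i = j then (x o : ℝ) else 0) - (if j = o then (x i : ℝ) else 0)) * y j
      = D * (x o * y i - x i * y o) := by
    have : ∀ j, (D : ℝ) * ((if i = j then (x o : ℝ) else 0) - (if j = o then (x i : ℝ) else 0)) * y j
        = (if i = j then D * (x o * y j) else 0) - (if j = o then D * (x i * y j) else 0) := by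
      intro j; split_ifs <;> ring
    simp_rw [this, Finset.sum_sub_distrib]
    simp
    ring
  rw [h3] at h1
  rcases mul_eq_zero.mp h1 with h4 | h4
  · exact absurd h4 hDr
  · field_simp
    linarith

theorem semi_of_cert {N d : ℕ} {a : Fin N → Fin N → ℤ} {x : Fin N → ℤ} {q : Fin N → Fin N → ℤ}
    {D : ℤ} {o : Fin N} (hs : SymCert N d a) (h : KerCert N a x q D o) :
    Semi d (fun i j => (a i j : ℝ)) (fun i => (x i : ℝ)) where
  symm i j := by rw [hs.1 i j]
  ne i := by exact_mod_cast h.2.1 i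
  ker i := by exact_mod_cast h.2.2.1 i
  uniq y hy := h.uniq y hy
  zo i j := by
    rcases hs.2.1 i j with h1 | h1
    · left; exact_mod_cast h1
    · right; exact_mod_cast h1
  row i := by
    have := hs.2.2 i
    exact_mod_cast this

end PolyNut
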