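import Pool.Agent.Helper82.Nut.SeedsCubic

/-!
The sets `𝔑^3_ℓ` for `ℓ ≥ 17` and `ℓ ∈ {9, 12, 15}`.
-/

namespace PolyNut

theorem SG.fowler_iter {d N : ℕ} (h : SG d N) (hN : 2 ≤ N) (k : ℕ) : SG d (N + 2 * d * k) := by
  induction k with
  | zero => simpa using h
  | succ k ih =>
    have := ih.fowler (by omega)
    have e : N + 2 * d * (k + 1) = N + 2 * d * k + 2 * d := by ring
    rw [e]; exact this

theorem SA'.fowler_iter {d N : ℕ} (h : SA' d N) (hd : 2 ≤ d) (k : ℕ) :
    SA' d (N + 2 * d * k) := by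
  induction k with
  | zero => simpa using h
  | succ k ih =>
    have := ih.fowler hd
    have e : N + 2 * d * (k + 1) = N + 2 * d * k + 2 * d := by ring
    rw [e]; exact this

theorem cubic_even {l : ℕ} (he : Even l) (h : l = 12 ∨ 18 ≤ l) : SG 3 l := by
  obtain ⟨m, hm⟩ := he
  rcases h with rfl | h
  · exact c12
  · have h3 : l % 6 = 0 ∨ l % 6 = 2 ∨ l % 6 = 4 := by omega
    rcases h3 with h3 | h3 | h3
    · have := c12.fowler_iter (by norm_num) ((l - 12) / 6)
      have e : 12 + 2 * 3 * ((l - 12) / 6) = l := by omega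
      rwa [e] at this
    · have := c20.fowler_iter (by norm_num) ((l - 20) / 6)
      have e : 20 + 2 * 3 * ((l - 20) / 6) = l := by omega
      rwa [e] at this
    · have := c22.fowler_iter (by norm_num) ((l - 22) / 6)
      have e : 22 + 2 * 3 * ((l - 22) / 6) = l := by omega
      rwa [e] at this

theorem cubic_odd {l : ℕ} (ho : Odd l) (h : l = 9 ∨ 15 ≤ l) : SA' 3 l := by
  obtain ⟨m, hm⟩ := ho
  rcases h with rfl | h
  · exact c9
  · have h3 : l % 6 = 3 ∨ l % 6 = 5 ∨ l % 6 = 1 := by omega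
    rcases h3 with h3 | h3 | h3
    · have := c9.fowler_iter (by norm_num) ((l - 9) / 6)
      have e : 9 + 2 * 3 * ((l - 9) / 6) = l := by omega
      rwa [e] at this
    · have := c17.fowler_iter (by norm_num) ((l - 17) / 6)
      have e : 17 + 2 * 3 * ((l - 17) / 6) = l := by omega
      rwa [e] at this
    · have := c19.fowler_iter (by norm_num) ((l - 19) / 6)
      have e : 19 + 2 * 3 * ((l - 19) / 6) = l := by omega
      rwa [e] at this

theorem cubic_orders_even {l : ℕ} (he : Even l) (h : l = 12 ∨ 18 ≤ l) :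
    orders 3 l = {n | 1 ≤ n} :=
  (cubic_even he h).orders_eq (by omega)

theorem cubic_orders_odd {l : ℕ} (ho : Odd l) (h : l = 9 ∨ 15 ≤ l) :
    orders 3 l = {n | 1 ≤ n ∧ Even n} :=
  (cubic_odd ho h).sa.orders_eq_of_odd (by omega) (by norm_num)
    (by rw [Nat.odd_mul]; exact ⟨by decide, ho⟩)

end PolyNut
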