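import Pool.Agent.Helper82.Nut.Switch
import Pool.Agent.Helper82.Nut.Cubic

/-!
Closure operations on the classes of matrices.
-/

namespace PolyNut

open Finset

/-- Semi-edge nut matrices with a vertex without and a vertex with semi-edge. -/
def SB (d N : ℕ) : Prop :=
  ∃ (M : Fin N → Fin N → ℝ) (x : Fin N → ℝ), Semi d M x ∧ (∃ v, M v v = 0) ∧ ∃ v, M v v = 1

/-- Unit diagonal, row sums five, and an edge with equal kernel values. -/
def SU (N : ℕ) : Prop :=
  ∃ (M : Fin N → Fin N → ℝ) (x : Fin N → ℝ), Semi 5 M x ∧ (∀ a, M a a = 1) ∧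
    ∃ u v, u ≠ v ∧ M u v = 1 ∧ x u = x v

theorem Semi.toSB {V : Type} [Fintype V] [DecidableEq V] {d N : ℕ} {M : V → V → ℝ} {x : V → ℝ}
    (h : Semi d M x) (h0 : ∃ a, M a a = 0) (h1 : ∃ a, M a a = 1) (hN : Fintype.card V = N) :
    SB d N := by
  obtain ⟨e⟩ : Nonempty (Fin N ≃ V) := by
    rw [← Fintype.card_eq]; simp [hN]
  obtain ⟨a, ha⟩ := h0
  obtain ⟨b, hb⟩ := h1
  exact ⟨_, _, h.reindex e, ⟨e.symm a, by simpa using ha⟩, ⟨e.symm b, by simpa using hb⟩⟩

theorem Semi.toSU {V : Type} [Fintype V] [DecidableEq V] {N : ℕ} {M : V → V → ℝ} {x : V → ℝ}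
    (h : Semi 5 M x) (h1 : ∀ a, M a a = 1) (he : ∃ u v, u ≠ v ∧ M u v = 1 ∧ x u = x v)
    (hN : Fintype.card V = N) : SU N := by
  obtain ⟨e⟩ : Nonempty (Fin N ≃ V) := by
    rw [← Fintype.card_eq]; simp [hN]
  obtain ⟨u, v, huv, hM, hx⟩ := he
  exact ⟨_, _, h.reindex e, fun a => h1 _, e.symm u, e.symm v,
    fun hc => huv (e.symm.injective hc), by simpa using hM, by simpa using hx⟩

theorem SB.sa {d N : ℕ} (h : SB d N) : SA d N := by
  obtain ⟨M, x, h1, -⟩ := h; exact ⟨M, x, h1⟩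

theorem SB.fowler {d N : ℕ} (h : SB d N) (hd : 2 ≤ d) : SB d (N + 2 * d) := by
  obtain ⟨M, x, hM, ⟨v, hv⟩, w, hw⟩ := h
  have hwv : w ≠ v := by rintro rfl; rw [hv] at hw; norm_num at hw
  refine (PolyNut.fowler hM hd v hv).toSB ⟨.inl v, by simp [fow]⟩ ⟨.inl w, ?_⟩ ?_
  · simp [fow, hwv, hw]
  · simp only [Fintype.card_sum, Fintype.card_fin, card_nb hM v]; ring

theorem exists_nb {V : Type} [Fintype V] {d : ℕ} {M : V → V → ℝ} (hzo : ∀ a b, M a b = 0 ∨ M a b = 1)
    (a : V) (hrow : ∑ b, M a b = d) (hd : 1 ≤ d) : ∃ b, M a b = 1 := by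
  by_contra hcon
  push Not at hcon
  have : ∑ b, M a b = 0 := Finset.sum_eq_zero fun b _ => by
    rcases hzo a b with h | h
    · exact h
    · exact absurd h (hcon b)
  rw [this] at hrow
  have : (d : ℝ) ≠ 0 := by positivity
  exact this hrow.symm

/-- Insertion of the bipartite double of a matrix `M₂` at the edge `u v`. -/
theorem Semi.insert {V K : Type} [Fintype V] [DecidableEq V] [Fintype K] [DecidableEq K]
    {d : ℕ} {M : V → V → ℝ} {x : V → ℝ} (h : Semi d M x) {u v : V} (huv : u ≠ v)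
    (hMuv : M u v = 1) {M₂ : K → K → ℝ} {y : K → ℝ} (g : Semi d M₂ y) {a b : K}
    (hab : M₂ a b = 1) : ∃ z, Semi d (sw M u v (dbl M₂) (.inl a) (.inr b)) z := by
  refine ⟨_, h.switch huv hMuv (g.gad hab) ?_⟩
  rintro (i | i)
  · simp only [Sum.elim_inl, Pi.zero_apply, mul_zero, add_zero]
    exact mul_ne_zero (h.ne _) (div_ne_zero (g.ne _) (g.ne _))
  · simp only [Sum.elim_inr, Pi.zero_apply, mul_zero, zero_add]
    exact mul_ne_zero (h.ne _) (div_ne_zero (g.ne _) (g.ne _))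

theorem cut_diag {V : Type} [DecidableEq V] {M : V → V → ℝ} {u v : V} (huv : u ≠ v) (w : V) :
    cut M u v w w = M w w := by
  unfold cut
  rw [if_neg]
  rintro (⟨h1, h2⟩ | ⟨h1, h2⟩)
  · exact huv (h1.symm.trans h2)
  · exact huv (h2.symm.trans h1)

theorem SG.insert {d N m : ℕ} (h : SG d N) (hN : 1 ≤ N) (hd : 1 ≤ d) (g : SA d m) (hm : 1 ≤ m) :
    SG d (N + 2 * m) := by
  obtain ⟨M, x, hM, h0⟩ := h
  obtain ⟨M₂, y, hM₂⟩ := g
  let u : Fin N := ⟨0, by omega⟩
  let a : Fin m := ⟨0, by omega⟩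
  obtain ⟨v, hv⟩ := exists_nb hM.zo u (hM.row u) hd
  obtain ⟨b, hb⟩ := exists_nb hM₂.zo a (hM₂.row a) hd
  have huv : u ≠ v := by
    intro e; rw [← e, h0] at hv; norm_num at hv
  obtain ⟨z, hz⟩ := hM.insert huv hv hM₂ hb
  refine hz.toSG ?_ ?_
  · rintro (w | w)
    · simp only [sw]; rw [cut_diag huv, h0]
    · simp only [sw]; rw [cut_diag (by simp)]
      rcases w with w | w <;> rfl
  · simp only [Fintype.card_sum, Fintype.card_fin]; ring

theorem SB.insert {d N m : ℕ} (h : SB d N) (hd : 1 ≤ d) (g : SA d m) (hm : 1 ≤ m) :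
    SB d (N + 2 * m) := by
  obtain ⟨M, x, hM, ⟨u, hu⟩, w, hw⟩ := h
  obtain ⟨M₂, y, hM₂⟩ := g
  let a : Fin m := ⟨0, by omega⟩
  obtain ⟨v, hv⟩ := exists_nb hM.zo u (hM.row u) hd
  obtain ⟨b, hb⟩ := exists_nb hM₂.zo a (hM₂.row a) hd
  have huv : u ≠ v := by
    intro e; rw [← e, hu] at hv; norm_num at hv
  obtain ⟨z, hz⟩ := hM.insert huv hv hM₂ hb
  refine hz.toSB ⟨.inl u, ?_⟩ ⟨.inl w, ?_⟩ ?_
  · simp only [sw]; rw [cut_diag huv, hu]
  · simp only [sw]; rw [cut_diag huv, hw]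
  · simp only [Fintype.card_sum, Fintype.card_fin]; ring

theorem SB.compl {t N : ℕ} (h : SB t N) (ht : 1 ≤ t) (hN : t < N) : SB (N - t) N := by
  obtain ⟨M, x, hM, ⟨u, hu⟩, w, hw⟩ := h
  have := hM.compl ht (by simpa using hN)
  rw [Fintype.card_fin] at this
  exact ⟨_, _, this, ⟨w, by rw [hw]; norm_num⟩, ⟨u, by rw [hu]; norm_num⟩⟩

theorem SU.toSG {N : ℕ} (h : SU N) (hN : 5 < N) : SG (N - 5) N := by
  obtain ⟨M, x, hM, h1, -⟩ := h
  have := hM.compl (by norm_num) (by simpa using hN)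
  rw [Fintype.card_fin] at this
  exact ⟨_, _, this, fun a => by rw [h1]; norm_num⟩

/-- Certificate for a gadget. -/
def GadCert (N : ℕ) (m : Fin N → Fin N → ℤ) (y z : Fin N → ℤ) (q : Fin N → Fin N → ℤ) (D s : ℤ)
    (a b : Fin N) : Prop :=
  D ≠ 0 ∧ s ≠ 0 ∧ a ≠ b ∧ m a b = 1 ∧ y a = s ∧ y b = 0 ∧ z a = 0 ∧ z b = s ∧
  (∀ i, y i + z i ≠ 0) ∧ (∀ i, m i i = 1) ∧
  (∀ i, ∑ j, m i j * y j = 0) ∧ (∀ i, ∑ j, m i j * z j = 0) ∧
  ∀ i j, ∑ k, q i k * m k j = D * ((if i = j then s else 0) - (if j = a then y i else 0)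
    - (if j = b then z i else 0))

instance (N : ℕ) (m : Fin N → Fin N → ℤ) (y z : Fin N → ℤ) (q : Fin N → Fin N → ℤ) (D s : ℤ)
    (a b : Fin N) : Decidable (GadCert N m y z q D s a b) := by
  unfold GadCert; infer_instance

theorem gad_of_cert {N t : ℕ} {m : Fin N → Fin N → ℤ} {y z : Fin N → ℤ}
    {q : Fin N → Fin N → ℤ} {D s : ℤ} {a b : Fin N} (hs : SymCert N t m)
    (h : GadCert N m y z q D s a b) :
    Gad t (fun i j => (m i j : ℝ)) a b (fun i => (y i : ℝ) / s) (fun i => (z i : ℝ) / s) := by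
  obtain ⟨hD, hs0, hab, hm, hya, hyb, hza, hzb, -, -, hy, hz, hq⟩ := h
  have hsr : (s : ℝ) ≠ 0 := by exact_mod_cast hs0
  have hDr : (D : ℝ) ≠ 0 := by exact_mod_cast hD
  refine ⟨fun i j => by rw [hs.1 i j], ?_, ?_, hab, by exact_mod_cast hm, ?_, ?_, ?_, ?_, ?_, ?_,
    ?_⟩
  · intro i j
    rcases hs.2.1 i j with h1 | h1
    · left; exact_mod_cast h1
    · right; exact_mod_cast h1
  · intro i; exact_mod_cast hs.2.2 i
  · intro i
    have h1 : (∑ j, (m i j : ℝ) * y j) = 0 := by exact_mod_cast hy i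
    have : ∑ j, (m i j : ℝ) * ((y j : ℝ) / s) = (∑ j, (m i j : ℝ) * y j) / s := by
      rw [Finset.sum_div]; exact Finset.sum_congr rfl fun j _ => by ring
    rw [this, h1, zero_div]
  · intro i
    have h1 : (∑ j, (m i j : ℝ) * z j) = 0 := by exact_mod_cast hz i
    have : ∑ j, (m i j : ℝ) * ((z j : ℝ) / s) = (∑ j, (m i j : ℝ) * z j) / s := by
      rw [Finset.sum_div]; exact Finset.sum_congr rfl fun j _ => by ring
    rw [this, h1, zero_div]
  · simp only [hya]; field_simp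
  · simp [hyb]
  · simp [hza]
  · simp only [hzb]; field_simp
  · intro w hw i
    have h1 : ∑ j, (∑ k, (q i k : ℝ) * (m k j : ℝ)) * w j = 0 := by
      have : ∑ j, (∑ k, (q i k : ℝ) * (m k j : ℝ)) * w j =
          ∑ k, (q i k : ℝ) * ∑ j, (m k j : ℝ) * w j := by
        simp_rw [Finset.sum_mul, Finset.mul_sum]
        rw [Finset.sum_comm]
        refine Finset.sum_congr rfl fun k _ => Finset.sum_congr rfl fun j _ => by ring
      rw [this]
      exact Finset.sum_eq_zero fun k _ => by rw [hw k, mul_zero]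
    have h2 : ∀ j, (∑ k, (q i k : ℝ) * (m k j : ℝ)) =
        D * ((if i = j then (s : ℝ) else 0) - (if j = a then (y i : ℝ) else 0)
          - (if j = b then (z i : ℝ) else 0)) := by
      intro j
      have := hq i j
      have h3 : ((∑ k, q i k * m k j : ℤ) : ℝ) =
          ((D * ((if i = j then s else 0) - (if j = a then y i else 0)
            - (if j = b then z i else 0)) : ℤ) : ℝ) := by
        rw [this]
      push_cast at h3
      exact h3
    simp_rw [h2] at h1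
    have h3 : ∑ j, (D : ℝ) * ((if i = j then (s : ℝ) else 0) - (if j = a then (y i : ℝ) else 0)
        - (if j = b then (z i : ℝ) else 0)) * w j = D * (s * w i - y i * w a - z i * w b) := by
      have : ∀ j, (D : ℝ) * ((if i = j then (s : ℝ) else 0) - (if j = a then (y i : ℝ) else 0)
          - (if j = b then (z i : ℝ) else 0)) * w j
          = (if i = j then D * (s * w j) else 0) - (if j = a then D * (y i * w j) else 0)
            - (if j = b then D * (z i * w j) else 0) := by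
        intro j; split_ifs <;> ring
      simp_rw [this, Finset.sum_sub_distrib]
      simp
      ring
    rw [h3] at h1
    rcases mul_eq_zero.mp h1 with h4 | h4
    · exact absurd h4 hDr
    · field_simp
      linarith

theorem SU.step {N m : ℕ} {M₂ : Fin m → Fin m → ℤ} {y z : Fin m → ℤ}
    {q : Fin m → Fin m → ℤ} {D s : ℤ} {a b : Fin m} (hs : SymCert m 5 M₂)
    (g : GadCert m M₂ y z q D s a b) (h : SU N) : SU (N + m) := by
  obtain ⟨M, x, hM, h1, u, v, huv, hMuv, hx⟩ := h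
  have hsr : (s : ℝ) ≠ 0 := by exact_mod_cast g.2.1
  have hsw := hM.switch huv hMuv (gad_of_cert hs g) (by
    intro i
    have h2 : (y i : ℝ) + z i ≠ 0 := by exact_mod_cast g.2.2.2.2.2.2.2.2.1 i
    rw [hx, ← mul_add, ← add_div]
    exact mul_ne_zero (hM.ne _) (div_ne_zero h2 hsr))
  refine hsw.toSU ?_ ⟨.inl u, .inr a, by simp, by simp [sw], ?_⟩ (by simp)
  · rintro (w | w)
    · simp only [sw]; rw [cut_diag huv, h1]
    · simp only [sw]; rw [cut_diag g.2.2.1]
      exact_mod_cast g.2.2.2.2.2.2.2.2.2.1 w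
  · simp only [Sum.elim_inl, Sum.elim_inr]
    rw [(gad_of_cert hs g).aa, (gad_of_cert hs g).ba, hx]; ring

end PolyNut
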