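import Mathlib

/-!
Core linear algebra: symmetric matrices whose kernel is spanned by a nowhere zero vector,
existence of a good edge, and cyclic covers along a good edge.
-/

namespace PolyNut

open Finset Matrix

variable {V : Type*} [Fintype V] [DecidableEq V]

/-- `M` is a symmetric real matrix, and its kernel is spanned by the nowhere zero vector `x`. -/
structure NutVec (M : V → V → ℝ) (x : V → ℝ) : Prop where
  symm : ∀ a b, M a b = M b a
  ne : ∀ a, x a ≠ 0
  ker : ∀ a, ∑ b, M a b * x b = 0
  uniq : ∀ y : V → ℝ, (∀ a, ∑ b, M a b * y b = 0) → ∃ c : ℝ, ∀ a, y a = c * x a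

theorem goodEdge {M : V → V → ℝ} {x : V → ℝ} [Nonempty V] (h : NutVec M x)
    (hrow : ∑ a, ∑ b, (if a = b then 0 else M a b) ≠ 2 * ((Fintype.card V : ℝ) - 1)) :
    ∃ u v, u ≠ v ∧ M u v ≠ 0 ∧ ∃ z : V → ℝ,
      (∀ a, ∑ b, M a b * z b = (if a = u then x v else 0) - (if a = v then x u else 0)) ∧
      z v / x v - z u / x u ≠ 1 := by
  classical
  set A : Matrix V V ℝ := Matrix.of M with hA
  have hAt : Aᵀ = A := by
    ext a b; exact h.symm b a
  set X : Matrix V V ℝ := vecMulVec x x with hX
  have hXt : Xᵀ = X := by
    ext a b; simp [hX, vecMulVec_apply, mul_comm]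
  set s : ℝ := x ⬝ᵥ x with hs
  have hspos : 0 < s := by
    obtain ⟨a⟩ := ‹Nonempty V›
    have : 0 < x a * x a := mul_self_pos.mpr (h.ne a)
    refine lt_of_lt_of_le this ?_
    exact Finset.single_le_sum (f := fun i => x i * x i) (fun i _ => mul_self_nonneg _) (mem_univ a)
  have hAx : A *ᵥ x = 0 := by
    ext a; exact h.ker a
  have hXv : ∀ y : V → ℝ, X *ᵥ y = (x ⬝ᵥ y) • x := by
    intro y; ext a
    simp [hX, vecMulVec_apply, mulVec, dotProduct, Finset.sum_mul]
    refine Finset.sum_congr rfl fun b _ => by ring
  have hxA : ∀ y : V → ℝ, x ⬝ᵥ (A *ᵥ y) = 0 := by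
    intro y
    rw [dotProduct_mulVec, ← mulVec_transpose, hAt, hAx]; simp
  set B : Matrix V V ℝ := A + X with hB
  have hBt : Bᵀ = B := by rw [hB, transpose_add, hAt, hXt]
  have hinj : Function.Injective B.mulVec := by
    intro y₁ y₂ hy
    have h0 : B *ᵥ (y₁ - y₂) = 0 := by
      rw [mulVec_sub]; exact sub_eq_zero.mpr hy
    have h1 : A *ᵥ (y₁ - y₂) + (x ⬝ᵥ (y₁ - y₂)) • x = 0 := by
      rw [← hXv, ← add_mulVec]; exact h0
    have h2 : x ⬝ᵥ (y₁ - y₂) = 0 := by
      have := congrArg (fun w => x ⬝ᵥ w) h1
      simp only [dotProduct_add, hxA, dotProduct_smul, dotProduct_zero, zero_add,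
        smul_eq_mul] at this
      rcases mul_eq_zero.mp this with h3 | h3
      · exact h3
      · exact absurd h3 hspos.ne'
    have h3 : A *ᵥ (y₁ - y₂) = 0 := by simpa [h2] using h1
    obtain ⟨c, hc⟩ := h.uniq (y₁ - y₂) (fun a => congrFun h3 a)
    have h4 : c * s = 0 := by
      have : x ⬝ᵥ (y₁ - y₂) = c * s := by
        rw [hs]; simp only [dotProduct, Finset.mul_sum]
        refine Finset.sum_congr rfl fun a _ => by rw [hc a]; ring
      rw [← this, h2]
    have h5 : c = 0 := by
      rcases mul_eq_zero.mp h4 with h6 | h6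
      · exact h6
      · exact absurd h6 hspos.ne'
    ext a
    have := hc a
    simp [h5] at this
    linarith
  have hunit : IsUnit B := mulVec_injective_iff_isUnit.mp hinj
  have hdet : IsUnit B.det := (isUnit_iff_isUnit_det B).mp hunit
  set P : Matrix V V ℝ := B⁻¹ with hP
  have hPt : Pᵀ = P := by rw [hP, transpose_nonsing_inv, hBt]
  have hBP : B * P = 1 := mul_nonsing_inv B hdet
  have hPB : P * B = 1 := nonsing_inv_mul B hdet
  have hBx : B *ᵥ x = s • x := by
    rw [hB, add_mulVec, hAx, hXv, zero_add]
  have hPx : P *ᵥ x = s⁻¹ • x := by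
    have h1 : P *ᵥ (B *ᵥ x) = x := by rw [mulVec_mulVec, hPB, one_mulVec]
    rw [hBx, mulVec_smul] at h1
    rw [← h1, smul_smul, inv_mul_cancel₀ hspos.ne', one_smul, h1]
  have hXP : X * P = s⁻¹ • X := by
    ext a b
    have : (X * P) a b = x a * (P *ᵥ x) b := by
      rw [Matrix.mul_apply]
      simp only [hX, vecMulVec_apply, mulVec, dotProduct, Finset.mul_sum]
      refine Finset.sum_congr rfl fun c _ => ?_
      have : P b c = P c b := by
        have := congrFun (congrFun hPt b) c
        simpa [transpose_apply] using this.symm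
      rw [this]; ring
    rw [this, hPx]
    simp [hX, vecMulVec_apply]; ring
  have hAP : A * P = 1 - s⁻¹ • X := by
    have : A = B - X := by rw [hB]; simp
    rw [this, sub_mul, hBP, hXP]
  have htr : ∑ a, ∑ b, M a b * P b a = (Fintype.card V : ℝ) - 1 := by
    have h1 : trace (A * P) = ∑ a, ∑ b, M a b * P b a := by
      simp [trace, Matrix.mul_apply, hA]
    rw [← h1, hAP, trace_sub, trace_one, trace_smul]
    have : trace X = s := by
      simp [trace, hX, vecMulVec_apply, hs, dotProduct]
    rw [this, smul_eq_mul, inv_mul_cancel₀ hspos.ne']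
  have hsolve : ∀ y : V → ℝ, x ⬝ᵥ y = 0 → A *ᵥ (P *ᵥ y) = y := by
    intro y hy
    rw [mulVec_mulVec, hAP, sub_mulVec, one_mulVec, smul_mulVec, hXv, hy]
    simp
  have hPs : ∀ a b, P a b = P b a := by
    intro a b
    have := congrFun (congrFun hPt b) a
    simpa [transpose_apply] using this
  by_contra hcon
  push Not at hcon
  -- the value of δ on every edge is one
  have key : ∀ u v, u ≠ v → M u v ≠ 0 →
      2 * P u v - P v v * (x u / x v) - P u u * (x v / x u) = 1 := by
    intro u v huv hM
    set y : V → ℝ := fun a => (if a = u then x v else 0) - (if a = v then x u else 0) with hy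
    have hxy : x ⬝ᵥ y = 0 := by
      simp [dotProduct, hy, mul_sub, Finset.sum_sub_distrib]
      ring
    have hz := hcon u v huv hM (P *ᵥ y) (fun a => congrFun (hsolve y hxy) a)
    have hval : ∀ a, (P *ᵥ y) a = P a u * x v - P a v * x u := by
      intro a
      simp [mulVec, dotProduct, hy, mul_sub, Finset.sum_sub_distrib]
    rw [hval, hval] at hz
    have hu := h.ne u
    have hv := h.ne v
    rw [← hz, hPs v u]
    field_simp
    ring
  have key2 : ∀ u v, (if u = v then 0 else M u v) =
      (if u = v then 0 else M u v) *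
        (2 * P u v - P v v * (x u / x v) - P u u * (x v / x u)) := by
    intro u v
    by_cases huv : u = v
    · simp [huv]
    · simp only [huv, if_false]
      by_cases hM : M u v = 0
      · simp [hM]
      · rw [key u v huv hM, mul_one]
  apply hrow
  have hoff : ∀ u, ∑ v, (if u = v then 0 else M u v) * x v = - (M u u * x u) := by
    intro u
    have h1 := h.ker u
    have h2 : ∀ v, (if u = v then 0 else M u v) * x v = M u v * x v -
        (if u = v then M u v * x v else 0) := by
      intro v; by_cases huv : u = v <;> simp [huv]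
    simp_rw [h2, Finset.sum_sub_distrib, h1]
    simp
  have hS1 : ∑ u, ∑ v, (if u = v then 0 else M u v) * (P u u * (x v / x u)) =
      - ∑ u, M u u * P u u := by
    rw [← Finset.sum_neg_distrib]
    refine Finset.sum_congr rfl fun u _ => ?_
    have h1 : ∀ v, (if u = v then 0 else M u v) * (P u u * (x v / x u)) =
        (P u u / x u) * ((if u = v then 0 else M u v) * x v) := by
      intro v; ring
    simp_rw [h1, ← Finset.mul_sum, hoff]
    have := h.ne u
    field_simp
  have hS2 : ∑ u, ∑ v, (if u = v then 0 else M u v) * (P v v * (x u / x v)) =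
      - ∑ u, M u u * P u u := by
    rw [Finset.sum_comm, ← hS1]
    refine Finset.sum_congr rfl fun u _ => Finset.sum_congr rfl fun v _ => ?_
    by_cases huv : u = v
    · simp [huv]
    · have hvu : ¬ v = u := fun e => huv e.symm
      simp only [huv, hvu, if_false, h.symm v u]
  have hS3 : ∑ u, ∑ v, (if u = v then 0 else M u v) * P u v =
      ((Fintype.card V : ℝ) - 1) - ∑ u, M u u * P u u := by
    rw [← htr, ← Finset.sum_sub_distrib]
    refine Finset.sum_congr rfl fun u _ => ?_
    have h2 : ∀ v, (if u = v then 0 else M u v) * P u v = M u v * P v u -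
        (if u = v then M u v * P v u else 0) := by
      intro v; by_cases huv : u = v
      · simp [huv]
      · simp [huv, hPs u v]
    simp_rw [h2, Finset.sum_sub_distrib]
    simp
  calc ∑ a, ∑ b, (if a = b then 0 else M a b)
      = ∑ u, ∑ v, (if u = v then 0 else M u v) *
        (2 * P u v - P v v * (x u / x v) - P u u * (x v / x u)) := by
        refine Finset.sum_congr rfl fun u _ => Finset.sum_congr rfl fun v _ => key2 u v
    _ = 2 * (∑ u, ∑ v, (if u = v then 0 else M u v) * P u v)
        - ∑ u, ∑ v, (if u = v then 0 else M u v) * (P v v * (x u / x v))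
        - ∑ u, ∑ v, (if u = v then 0 else M u v) * (P u u * (x v / x u)) := by
        rw [Finset.mul_sum, ← Finset.sum_sub_distrib, ← Finset.sum_sub_distrib]
        refine Finset.sum_congr rfl fun u _ => ?_
        rw [Finset.mul_sum, ← Finset.sum_sub_distrib, ← Finset.sum_sub_distrib]
        refine Finset.sum_congr rfl fun v _ => by ring
    _ = 2 * ((Fintype.card V : ℝ) - 1) := by
        rw [hS1, hS2, hS3]; ring

/-- The kernel of a cyclic cover along a good edge. -/
theorem cover {M : V → V → ℝ} {x : V → ℝ} (h : NutVec M x) {u v : V} {z : V → ℝ}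
    (hz : ∀ a, ∑ b, M a b * z b = (if a = u then x v else 0) - (if a = v then x u else 0))
    (hgood : z v / x v - z u / x u ≠ 1) {n : ℕ} [NeZero n] (F : ZMod n → V → ℝ)
    (hF : ∀ i a, ∑ b, M a b * F i b + (if a = u then F (i + 1) v - F i v else 0)
      + (if a = v then F (i - 1) u - F i u else 0) = 0) :
    ∃ c : ℝ, ∀ i a, F i a = c * x a := by
  classical
  have hu := h.ne u
  have hv := h.ne v
  -- dot product with x
  have hdot : ∀ i, x u * (F (i + 1) v - F i v) + x v * (F (i - 1) u - F i u) = 0 := by
    intro i
    have h1 : ∑ a, x a * (∑ b, M a b * F i b + (if a = u then F (i + 1) v - F i v else 0)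
      + (if a = v then F (i - 1) u - F i u else 0)) = 0 := by
      refine Finset.sum_eq_zero fun a _ => by rw [hF i a, mul_zero]
    have h2 : ∑ a, x a * ∑ b, M a b * F i b = 0 := by
      have : ∑ a, x a * ∑ b, M a b * F i b = ∑ b, F i b * ∑ a, M b a * x a := by
        simp_rw [Finset.mul_sum]
        rw [Finset.sum_comm]
        refine Finset.sum_congr rfl fun b _ => Finset.sum_congr rfl fun a _ => ?_
        rw [h.symm a b]; ring
      rw [this]
      refine Finset.sum_eq_zero fun b _ => by rw [h.ker b, mul_zero]
    simp only [mul_add, Finset.sum_add_distrib, h2, zero_add, mul_ite, mul_zero,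
      Finset.sum_ite_eq', Finset.mem_univ, if_true] at h1
    linarith
  -- the coefficients s
  set s : ZMod n → ℝ := fun i => -(F (i + 1) v - F i v) / x v with hs
  have hα : ∀ i, F (i + 1) v - F i v = - s i * x v := by
    intro i; simp only [hs]; field_simp
  have hβ : ∀ i, F (i - 1) u - F i u = s i * x u := by
    intro i
    have h1 := hdot i
    rw [hα i] at h1
    have h2 : x v * (F (i - 1) u - F i u - s i * x u) = 0 := by linarith
    rcases mul_eq_zero.mp h2 with h3 | h3
    · exact absurd h3 hv
    · linarith
  have hdec : ∀ i, ∃ c : ℝ, ∀ a, F i a = s i * z a + c * x a := by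
    intro i
    obtain ⟨c, hc⟩ := h.uniq (fun a => F i a - s i * z a) (by
      intro a
      have h1 := hF i a
      have h2 := hz a
      have h3 : ∑ b, M a b * (F i b - s i * z b) = ∑ b, M a b * F i b - s i * ∑ b, M a b * z b := by
        rw [Finset.mul_sum, ← Finset.sum_sub_distrib]
        refine Finset.sum_congr rfl fun b _ => by ring
      rw [h3, h2]
      rw [hα i, hβ i] at h1
      have h4 : (if a = u then -s i * x v else 0) = - s i * (if a = u then x v else 0) := by
        split_ifs <;> simp
      have h5 : (if a = v then s i * x u else 0) = s i * (if a = v then x u else 0) := by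
        split_ifs <;> simp
      rw [h4, h5] at h1
      linear_combination h1)
    exact ⟨c, fun a => by have := hc a; linarith⟩
  choose c hc using hdec
  have e1 : ∀ i, (s (i + 1) - s i) * z v + (c (i + 1) - c i) * x v = - s i * x v := by
    intro i
    have h1 := hα i
    rw [hc (i + 1) v, hc i v] at h1
    linarith
  have e2 : ∀ i, (s (i + 1) - s i) * z u + (c (i + 1) - c i) * x u = - s (i + 1) * x u := by
    intro i
    have h1 := hβ (i + 1)
    rw [add_sub_cancel_right, hc (i + 1) u, hc i u] at h1
    linarith
  have hsconst : ∀ i, s (i + 1) = s i := by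
    intro i
    have h1 := e1 i
    have h2 := e2 i
    have h3 : (s (i + 1) - s i) * (z v / x v - z u / x u - 1) = 0 := by
      have h4 : (s (i + 1) - s i) * (z v / x v) = - s i - (c (i + 1) - c i) := by
        field_simp; linarith
      have h5 : (s (i + 1) - s i) * (z u / x u) = - s (i + 1) - (c (i + 1) - c i) := by
        field_simp; linarith
      linear_combination h4 - h5
    rcases mul_eq_zero.mp h3 with h4 | h4
    · linarith
    · exact absurd (by linarith) hgood
  have hcdiff : ∀ i, c (i + 1) - c i = - s i := by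
    intro i
    have h1 := e1 i
    rw [hsconst i] at h1
    have h2 : x v * (c (i + 1) - c i + s i) = 0 := by linarith
    rcases mul_eq_zero.mp h2 with h3 | h3
    · exact absurd h3 hv
    · linarith
  have hs0 : ∀ i, s i = s 0 := by
    intro i
    have h1 : ∀ k : ℕ, s (k : ZMod n) = s 0 := by
      intro k
      induction k with
      | zero => simp
      | succ k ih => push_cast; rw [hsconst, ih]
    have h2 := h1 i.val
    rwa [ZMod.natCast_zmod_val] at h2
  have hszero : s 0 = 0 := by
    have h1 : ∑ i : ZMod n, (c (i + 1) - c i) = 0 := by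
      rw [Finset.sum_sub_distrib, sub_eq_zero]
      exact Equiv.sum_comp (Equiv.addRight (1 : ZMod n)) c
    have h2 : ∑ i : ZMod n, (c (i + 1) - c i) = - (n : ℝ) * s 0 := by
      rw [Finset.sum_congr rfl (fun i _ => by rw [hcdiff i, hs0 i])]
      simp [ZMod.card]
    rw [h2] at h1
    have h3 : (n : ℝ) ≠ 0 := Nat.cast_ne_zero.mpr (NeZero.ne n)
    rcases mul_eq_zero.mp h1 with h4 | h4
    · exact absurd (by linarith) h3
    · exact h4
  have hcconst : ∀ i, c i = c 0 := by
    intro i
    have h1 : ∀ k : ℕ, c (k : ZMod n) = c 0 := by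
      intro k
      induction k with
      | zero => simp
      | succ k ih =>
        push_cast
        have := hcdiff (k : ZMod n)
        rw [hs0, hszero] at this
        linarith
    have h2 := h1 i.val
    rwa [ZMod.natCast_zmod_val] at h2
  refine ⟨c 0, fun i a => ?_⟩
  rw [hc i a, hs0 i, hszero, hcconst i]
  ring

end PolyNut
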