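import Mathlib

/-!
Definitions: nut graphs, `ℓ`-circulant graphs and the sets `𝔑^d_ℓ`.
-/

namespace PolyNut

open Classical in
/-- `G` is a nut graph: at least two vertices, the kernel of the adjacency matrix is one
dimensional and contains a vector without zero entries. -/
def IsNut {V : Type*} [Fintype V] (G : SimpleGraph V) : Prop :=
  2 ≤ Fintype.card V ∧
    Module.finrank ℝ (LinearMap.ker (G.adjMatrix ℝ).mulVecLin) = 1 ∧
    ∃ x ∈ LinearMap.ker (G.adjMatrix ℝ).mulVecLin, ∀ v, x v ≠ 0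

/-- `G` has an automorphism all of whose orbits have exactly `n` elements. -/
def HasSemiregular {V : Type*} (G : SimpleGraph V) (n : ℕ) : Prop :=
  ∃ σ : Equiv.Perm V, (∀ v w, G.Adj (σ v) (σ w) ↔ G.Adj v w) ∧
    ∀ (v : V) (k : ℕ), (σ ^ k) v = v ↔ n ∣ k

/-- `𝔑^d_ℓ`: the orbit lengths `n ≥ 1` of the `d`-regular `ℓ`-circulant nut graphs
of order `n ℓ`. -/
def orders (d l : ℕ) : Set ℕ :=
  {n | 1 ≤ n ∧ ∃ (V : Type) (_ : Fintype V) (G : SimpleGraph V),
    Fintype.card V = n * l ∧ (∀ v, (G.neighborSet v).ncard = d) ∧ IsNut G ∧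
    HasSemiregular G n}

end PolyNut
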