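import Pool.Agent.Helper82.Nut.Cert

/-!
A faster kernel check of `KerCert`: rows are packed into one integer.
-/

namespace PolyNut

open Finset

/-- Horner packing in base `B`. -/
def packL (B : ℤ) : List ℤ → ℤ
  | [] => 0
  | a :: l => a + B * packL B l

theorem packL_map (B : ℤ) (f : ℕ → ℤ) (n : ℕ) :
    packL B ((List.range n).map f) = ∑ j ∈ Finset.range n, f j * B ^ j := by
  induction n generalizing f with
  | zero => simp [packL]
  | succ n ih =>
    rw [List.range_succ_eq_map, List.map_cons, List.map_map, packL, ih, Finset.sum_range_succ',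
      Finset.mul_sum, add_comm]
    congr 1
    · refine Finset.sum_congr rfl fun j _ => ?_
      simp only [Function.comp, Nat.succ_eq_add_one]
      ring
    · simp

theorem pack_inj (B : ℤ) (n : ℕ) (c : ℕ → ℤ) (hc : ∀ j, j < n → |c j| < B)
    (h : ∑ j ∈ Finset.range n, c j * B ^ j = 0) : ∀ j, j < n → c j = 0 := by
  induction n generalizing c with
  | zero => intro j hj; omega
  | succ n ih =>
    rw [Finset.sum_range_succ'] at h
    have hB : 0 < B := lt_of_le_of_lt (abs_nonneg _) (hc 0 (by omega))
    have e : ∑ j ∈ Finset.range n, c (j + 1) * B ^ (j + 1) =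
        B * ∑ j ∈ Finset.range n, c (j + 1) * B ^ j := by
      rw [Finset.mul_sum]
      exact Finset.sum_congr rfl fun j _ => by ring
    rw [e] at h
    have h0 : c 0 = 0 := by
      apply Int.eq_zero_of_abs_lt_dvd (m := B) _ (hc 0 (by omega))
      exact ⟨-∑ j ∈ Finset.range n, c (j + 1) * B ^ j, by simp at h; linarith⟩
    have h1 : ∑ j ∈ Finset.range n, c (j + 1) * B ^ j = 0 := by
      rw [h0] at h
      simp only [zero_mul, add_zero] at h
      rcases mul_eq_zero.mp h with h | h
      · omega
      · exact h
    intro j hj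
    rcases j with _ | j
    · exact h0
    · exact ih (fun j => c (j + 1)) (fun j hj => hc (j + 1) (by omega)) h1 j (by omega)

/-- dot product of lists. -/
def dotL : List ℤ → List ℤ → ℤ
  | a :: l, b :: m => a * b + dotL l m
  | _, _ => 0

theorem dotL_eq (l m : List ℤ) (n : ℕ) (h : l.length ≤ n ∨ m.length ≤ n) :
    dotL l m = ∑ k ∈ Finset.range n, l.getD k 0 * m.getD k 0 := by
  induction l generalizing m n with
  | nil => simp [dotL]
  | cons a l ih =>
    cases m with
    | nil => simp [dotL]
    | cons b m =>
      cases n with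
      | zero => simp at h
      | succ n =>
        rw [dotL, Finset.sum_range_succ', ih m n (by simpa using h), add_comm]
        simp

/-- sum of absolute values. -/
def absL : List ℤ → ℤ
  | [] => 0
  | a :: l => |a| + absL l

theorem absL_eq (l : List ℤ) (n : ℕ) (h : l.length ≤ n) :
    absL l = ∑ k ∈ Finset.range n, |l.getD k 0| := by
  induction l generalizing n with
  | nil => simp [absL]
  | cons a l ih =>
    cases n with
    | zero => simp at h
    | succ n =>
      rw [absL, Finset.sum_range_succ', ih n (by simpa using h), add_comm]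
      simp

/-- zero-one row of a neighbour list. -/
def rowL (N : ℕ) (r : List ℕ) : List ℤ := (List.range N).map fun j => if r.contains j then 1 else 0

/-- the packed rows. -/
def packs (B : ℤ) (N : ℕ) (R : List (List ℕ)) : List ℤ := R.map fun r => packL B (rowL N r)

/-- the fast check. -/
def fastKer (N : ℕ) (R : List (List ℕ)) (X : List ℤ) (Q : List (List ℤ)) (D : ℤ) (o : ℕ) (B : ℤ)
    (P : List ℤ) : Bool :=
  decide (D ≠ 0) && decide (o < N) && decide (R.length = N) &&
  ((List.range N).all fun i => decide (X.getD i 0 ≠ 0)) &&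
  (R.all fun r => decide (dotL (rowL N r) X = 0)) &&
  ((List.range N).all fun i =>
    let q := Q.getD i []
    decide (q.length ≤ N) &&
    decide (absL q + |D| * (|X.getD o 0| + |X.getD i 0|) < B) &&
    decide (dotL q P = packL B ((List.range N).map fun j =>
      (if i = j then D * X.getD o 0 else 0) - (if j = o then D * X.getD i 0 else 0))))

theorem KerCert.of_fast {N : ℕ} {R : List (List ℕ)} {X : List ℤ} {Q : List (List ℤ)} {D : ℤ}
    {o : Fin N} (B : ℤ) (P : List ℤ) (hP : packs B N R = P)
    (h : fastKer N R X Q D (o : ℕ) B P = true) :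
    KerCert N (fun i j : Fin N => nb R i j) (fun i => X.getD i 0) (fun i j => lk Q i j) D o := by
  unfold fastKer at h
  simp only [Bool.and_eq_true, decide_eq_true_eq, List.all_eq_true, List.mem_range] at h
  obtain ⟨⟨⟨⟨⟨hD, ho⟩, hR⟩, hX⟩, hk⟩, hq⟩ := h
  refine ⟨hD, fun i => hX i i.2, fun i => ?_, fun i j => ?_⟩
  · have hi : (i : ℕ) < R.length := by rw [hR]; exact i.2
    have h1 := hk (R.getD i []) (by
      rw [List.getD_eq_getElem _ _ hi]; exact List.getElem_mem hi)
    rw [dotL_eq _ _ N (by left; simp [rowL])] at h1
    refine Eq.trans ?_ h1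
    rw [Finset.sum_range]
    refine Finset.sum_congr rfl fun j _ => ?_
    congr 1
    unfold rowL nb
    rw [List.getD_eq_getElem _ _ (by simp)]
    simp
  · obtain ⟨⟨hlen, hB⟩, hdot⟩ := hq i i.2
    rw [dotL_eq _ _ N (by left; exact hlen), packL_map] at hdot
    have hPk : ∀ k, k < N → P.getD k 0 = ∑ j ∈ Finset.range N, nb R k j * B ^ j := by
      intro k hkN
      rw [← hP]
      unfold packs
      have : (k : ℕ) < R.length := by rw [hR]; exact hkN
      rw [List.getD_eq_getElem _ _ (by simpa using this), List.getElem_map]
      unfold rowL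
      rw [packL_map]
      refine Finset.sum_congr rfl fun j _ => ?_
      unfold nb
      rw [List.getD_eq_getElem _ _ this]
    set c : ℕ → ℤ := fun j => (∑ k ∈ Finset.range N, lk Q i k * nb R k j) -
      ((if (i : ℕ) = j then D * X.getD o 0 else 0) - (if j = (o : ℕ) then D * X.getD i 0 else 0))
      with hc
    have hsum : ∑ j ∈ Finset.range N, c j * B ^ j = 0 := by
      simp only [hc, sub_mul _ _ (B ^ _), Finset.sum_sub_distrib]
      rw [sub_eq_zero]
      have e1 : ∑ j ∈ Finset.range N, (∑ k ∈ Finset.range N, lk Q i k * nb R k j) * B ^ j =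
          ∑ k ∈ Finset.range N, (Q.getD i []).getD k 0 * P.getD k 0 := by
        simp_rw [Finset.sum_mul]
        rw [Finset.sum_comm]
        refine Finset.sum_congr rfl fun k hk => ?_
        rw [hPk k (Finset.mem_range.mp hk), Finset.mul_sum]
        exact Finset.sum_congr rfl fun j _ => by unfold lk; ring
      rw [e1, hdot, ← Finset.sum_sub_distrib]
      exact Finset.sum_congr rfl fun j _ => by ring
    have hbound : ∀ j, j < N → |c j| < B := by
      intro j hj
      refine lt_of_le_of_lt ?_ hB
      rw [absL_eq _ N hlen]
      have hxo : |if (i : ℕ) = j then D * X.getD o 0 else 0| ≤ |D| * |X.getD o 0| := by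
        split_ifs
        · rw [abs_mul]
        · simp; positivity
      have hxi : |if j = (o : ℕ) then D * X.getD i 0 else 0| ≤ |D| * |X.getD i 0| := by
        split_ifs
        · rw [abs_mul]
        · simp; positivity
      have hs : |∑ k ∈ Finset.range N, lk Q i k * nb R k j| ≤
          ∑ k ∈ Finset.range N, |(Q.getD i []).getD k 0| := by
        refine (Finset.abs_sum_le_sum_abs _ _).trans (Finset.sum_le_sum fun k _ => ?_)
        unfold lk nb
        split_ifs <;> simp
      have h3 : |c j| ≤ |∑ k ∈ Finset.range N, lk Q i k * nb R k j| +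
          (|if (i : ℕ) = j then D * X.getD o 0 else 0| +
            |if j = (o : ℕ) then D * X.getD i 0 else 0|) :=
        (abs_sub _ _).trans (add_le_add le_rfl (abs_sub _ _))
      calc |c j| ≤ _ := h3
        _ ≤ _ := by
          rw [mul_add]
          exact add_le_add hs (add_le_add hxo hxi)
    have h0 := pack_inj B N c hbound hsum j j.2
    simp only [hc] at h0
    rw [Finset.sum_range, sub_eq_zero] at h0
    rw [h0, mul_sub]
    congr 1
    · by_cases hij : i = j
      · simp [hij]
      · have : (i : ℕ) ≠ j := fun h => hij (Fin.ext h)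
        simp [hij, this]
    · by_cases hij : j = o
      · simp [hij]
      · have : (j : ℕ) ≠ o := fun h => hij (Fin.ext h)
        simp [hij, this]

end PolyNut
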