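import Pool.Agent.Helper82.Nut.FastCert
import Pool.Agent.Helper82.Nut.Closure

/-!
Seeds from compact certificates.
-/

namespace PolyNut

open Finset

/-- digits of `x` in base `b`, shifted by `c`. -/
def unpackRow (b : ℕ) (c : ℕ) : ℕ → ℕ → List ℤ
  | 0, _ => []
  | n + 1, x => Int.subNatNat (x % b) c :: unpackRow b c n (x / b)

/-- the matrix with packed rows. -/
def unpackMat (b c n : ℕ) (L : List ℕ) : List (List ℤ) := L.map (unpackRow b c n)

/-- fast check of `SymCert`. -/
def fastSym (N d : ℕ) (R : List (List ℕ)) : Bool :=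
  decide (R.length = N) &&
  ((List.range N).all fun i =>
    (R.getD i []).all (fun j => (R.getD j []).contains i) &&
    decide (((R.getD i []).length = d)) && (R.getD i []).Nodup &&
    (R.getD i []).all (fun j => decide (j < N)))

theorem nb_row_sum (N : ℕ) (r : List ℕ) (hnd : r.Nodup) (hr : ∀ j ∈ r, j < N) :
    (∑ j : Fin N, if r.contains (j : ℕ) then (1 : ℤ) else 0) = r.length := by
  rw [← Finset.sum_range (fun j => if r.contains j then (1 : ℤ) else 0)]
  rw [Finset.sum_boole]
  have : (Finset.range N).filter (fun j => r.contains j = true) = r.toFinset := by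
    ext j
    simp only [Finset.mem_filter, Finset.mem_range, List.contains_iff_mem, List.mem_toFinset]
    exact ⟨fun h => h.2, fun h => ⟨hr j h, h⟩⟩
  rw [this, List.toFinset_card_of_nodup hnd]

theorem SymCert.of_fast {N d : ℕ} {R : List (List ℕ)} (h : fastSym N d R = true) :
    SymCert N d (fun i j : Fin N => nb R i j) := by
  unfold fastSym at h
  simp only [Bool.and_eq_true, decide_eq_true_eq, List.all_eq_true, List.mem_range] at h
  obtain ⟨hR, h⟩ := h
  have hmem : ∀ i j : Fin N, (R.getD i []).contains (j : ℕ) = true →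
      (R.getD j []).contains (i : ℕ) = true := by
    intro i j hij
    exact (h i i.2).1.1.1 j (by simpa using hij)
  refine ⟨fun i j => ?_, fun i j => ?_, fun i => ?_⟩
  · unfold nb
    have : (R.getD i []).contains (j : ℕ) = (R.getD j []).contains (i : ℕ) := by
      rw [Bool.eq_iff_iff]
      exact ⟨hmem i j, hmem j i⟩
    simp only [this]
  · simp only [nb]; split_ifs <;> simp
  · unfold nb
    rw [nb_row_sum N _ (h i i.2).1.2 (h i i.2).2, (h i i.2).1.1.2]

/-- all diagonal entries vanish. -/
def fastDiag (R : List (List ℕ)) (N : ℕ) : Bool :=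
  (List.range N).all fun i => !(R.getD i []).contains i

theorem SG.of_fast (N d : ℕ) (R : List (List ℕ)) (X : List ℤ) (Q : List (List ℤ)) (D : ℤ) (B : ℤ)
    (P : List ℤ) (hN : 0 < N) (hP : packs B N R = P) (h1 : fastSym N d R = true)
    (h2 : fastKer N R X Q D 0 B P = true) (h3 : fastDiag R N = true) : SG d N := by
  refine ⟨_, _, semi_of_cert (SymCert.of_fast h1) (KerCert.of_fast (o := ⟨0, hN⟩) B P hP h2),
    fun a => ?_⟩
  unfold fastDiag at h3
  simp only [List.all_eq_true, List.mem_range] at h3
  have := h3 a a.2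
  simp only [nb]
  simp at this ⊢
  exact this

theorem SB.of_fast (N d : ℕ) (R : List (List ℕ)) (X : List ℤ) (Q : List (List ℤ)) (D : ℤ) (B : ℤ)
    (P : List ℤ) (hN : 0 < N) (hP : packs B N R = P) (h1 : fastSym N d R = true)
    (h2 : fastKer N R X Q D 0 B P = true) (v0 v1 : Fin N) (h3 : (R.getD v0 []).contains v0.1 = false)
    (h4 : (R.getD v1 []).contains v1.1 = true) : SB d N := by
  refine ⟨_, _, semi_of_cert (SymCert.of_fast h1) (KerCert.of_fast (o := ⟨0, hN⟩) B P hP h2),
    ⟨v0, ?_⟩, ⟨v1, ?_⟩⟩
  · simp only [nb]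
    rw [if_neg (by rw [h3]; decide)]
    simp
  · simp only [nb]
    rw [if_pos h4]
    simp

end PolyNut
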