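import Pool.Agent.Helper82.Nut.Transfer

/-!
The Fowler extension for symmetric zero-one matrices with nowhere zero kernel vector.
-/

namespace PolyNut

open Finset Classical

variable {V : Type} [Fintype V] [DecidableEq V]

/-- The neighbours of `v`. -/
abbrev Nb (M : V → V → ℝ) (v : V) : Type := {b : V // M v b = 1}

theorem card_nb {d : ℕ} {M : V → V → ℝ} {x : V → ℝ} (h : Semi d M x) (v : V) :
    Fintype.card (Nb M v) = d := by
  have h2 : ((Finset.univ.filter (fun b => M v b = 1)).card : ℝ) = d := by
    rw [← h.row v, Finset.card_filter]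
    push_cast
    refine Finset.sum_congr rfl fun b _ => ?_
    rcases h.zo v b with h0 | h0 <;> simp [h0]
  rw [Fintype.card_subtype]
  exact_mod_cast h2

theorem sum_nb {d : ℕ} {M : V → V → ℝ} {x : V → ℝ} (h : Semi d M x) (v : V) (f : V → ℝ) :
    ∑ w : Nb M v, f w.1 = ∑ b, M v b * f b := by
  rw [← Finset.sum_subtype (Finset.univ.filter (fun b => M v b = 1)) (by simp) f,
    Finset.sum_filter]
  refine Finset.sum_congr rfl fun b _ => ?_
  rcases h.zo v b with h0 | h0 <;> simp [h0]

/-- The Fowler extension at `v`. -/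
noncomputable def fow (M : V → V → ℝ) (v : V) :
    V ⊕ (Nb M v ⊕ Nb M v) → V ⊕ (Nb M v ⊕ Nb M v) → ℝ
  | .inl a, .inl b => if a = v ∨ b = v then 0 else M a b
  | .inl a, .inr (.inl w) => if a = w.1 then 1 else 0
  | .inr (.inl w), .inl a => if a = w.1 then 1 else 0
  | .inl a, .inr (.inr _) => if a = v then 1 else 0
  | .inr (.inr _), .inl a => if a = v then 1 else 0
  | .inr (.inl w), .inr (.inr w') => if w = w' then 0 else 1
  | .inr (.inr w'), .inr (.inl w) => if w = w' then 0 else 1
  | .inr (.inl _), .inr (.inl _) => 0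
  | .inr (.inr _), .inr (.inr _) => 0

theorem sum_ite_nb {W : Type} [Fintype W] [DecidableEq W] (f : W → ℝ) (w : W) :
    ∑ w', (if w = w' then 0 else 1) * f w' = ∑ w', f w' - f w := by
  have : ∀ w', (if w = w' then (0:ℝ) else 1) * f w' = f w' - (if w = w' then f w' else 0) := by
    intro w'; by_cases h : w = w' <;> simp [h]
  simp_rw [this, Finset.sum_sub_distrib]
  simp

theorem sum_ite_nb' {W : Type} [Fintype W] [DecidableEq W] (f : W → ℝ) (w : W) :
    ∑ w', (if w' = w then 0 else 1) * f w' = ∑ w', f w' - f w := by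
  have : ∀ w', (if w' = w then (0:ℝ) else 1) * f w' = f w' - (if w' = w then f w' else 0) := by
    intro w'; by_cases h : w' = w <;> simp [h]
  simp_rw [this, Finset.sum_sub_distrib]
  simp

theorem fow_row {d : ℕ} {M : V → V → ℝ} {x : V → ℝ} (h : Semi d M x) (v : V)
    (hv : M v v = 0) (y : V ⊕ (Nb M v ⊕ Nb M v) → ℝ) :
    (∀ a, a ≠ v → ∑ q, fow M v (.inl a) q * y q =
      ∑ b, M a b * y (.inl b) - M a v * y (.inl v) +
        ∑ w : Nb M v, (if a = w.1 then y (.inr (.inl w)) else 0)) ∧
    (∑ q, fow M v (.inl v) q * y q = ∑ w, y (.inr (.inr w))) ∧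
    (∀ w : Nb M v, ∑ q, fow M v (.inr (.inl w)) q * y q =
      y (.inl w.1) + (∑ w', y (.inr (.inr w')) - y (.inr (.inr w)))) ∧
    (∀ w : Nb M v, ∑ q, fow M v (.inr (.inr w)) q * y q =
      y (.inl v) + (∑ w', y (.inr (.inl w')) - y (.inr (.inl w)))) := by
  have hvW : ∀ w : Nb M v, v ≠ w.1 := by
    rintro ⟨w, hw⟩ (e : v = w)
    rw [← e, hv] at hw; norm_num at hw
  refine ⟨?_, ?_, ?_, ?_⟩
  · intro a ha
    simp only [Fintype.sum_sum_type, fow]
    have h1 : ∀ b, (if a = v ∨ b = v then 0 else M a b) * y (.inl b) =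
        M a b * y (.inl b) - (if b = v then M a b * y (.inl b) else 0) := by
      intro b; by_cases hb : b = v <;> simp [ha, hb]
    simp_rw [h1, Finset.sum_sub_distrib]
    simp [ha]
  · simp only [Fintype.sum_sum_type, fow]
    simp [hvW]
  · intro w
    simp only [Fintype.sum_sum_type, fow]
    rw [sum_ite_nb (fun w' => y (.inr (.inr w')))]
    simp
  · intro w
    simp only [Fintype.sum_sum_type, fow]
    rw [sum_ite_nb' (fun w' => y (.inr (.inl w')))]
    simp

theorem fowler {d : ℕ} {M : V → V → ℝ} {x : V → ℝ} (h : Semi d M x) (hd : 2 ≤ d) (v : V)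
    (hv : M v v = 0) :
    Semi d (fow M v) (fun q => match q with
      | .inl a => if a = v then -((d : ℝ) - 1) * x v else x a
      | .inr (.inl _) => x v
      | .inr (.inr w) => x w.1) := by
  have hcard := card_nb h v
  have hd1 : (d : ℝ) - 1 ≠ 0 := by
    have : (2 : ℝ) ≤ d := by exact_mod_cast hd
    intro h0; linarith
  have hvW : ∀ w : Nb M v, w.1 ≠ v := by
    rintro ⟨w, hw⟩ (e : w = v)
    rw [e, hv] at hw; norm_num at hw
  have hite : ∀ (a : V) (c : ℝ), ∑ w : Nb M v, (if a = w.1 then c else 0) = M a v * c := by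
    intro a c
    rcases h.zo v a with h0 | h0
    · rw [h.symm a v, h0, zero_mul]
      refine Finset.sum_eq_zero fun w _ => ?_
      rw [if_neg]
      rintro rfl
      have := w.2
      rw [h0] at this; norm_num at this
    · rw [h.symm a v, h0, one_mul]
      rw [Finset.sum_eq_single (⟨a, h0⟩ : Nb M v)]
      · simp
      · rintro ⟨b, hb⟩ _ hne
        rw [if_neg]
        rintro rfl
        exact hne rfl
      · intro hc; exact absurd (mem_univ _) hc
  refine ⟨⟨?_, ?_, ?_, ?_⟩, ?_, ?_⟩
  · rintro (a | a | a) (b | b | b) <;> simp only [fow]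
    by_cases ha : a = v <;> by_cases hb : b = v <;> simp [ha, hb, h.symm a b]
  · rintro (a | a | a)
    · simp only
      split_ifs with ha
      · exact mul_ne_zero (neg_ne_zero.mpr hd1) (h.ne v)
      · exact h.ne a
    · exact h.ne v
    · exact h.ne _
  · obtain ⟨r1, r2, r3, r4⟩ := fow_row h v hv (fun q => match q with
      | .inl a => if a = v then -((d : ℝ) - 1) * x v else x a
      | .inr (.inl _) => x v
      | .inr (.inr w) => x w.1)
    have hsumx : ∑ w : Nb M v, x w.1 = 0 := by rw [sum_nb h, h.ker]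
    have hMx : ∀ a, ∑ b, M a b * (if b = v then -((d : ℝ) - 1) * x v else x b) =
        M a v * (-((d : ℝ) - 1) * x v) - M a v * x v := by
      intro a
      have h1 : ∀ b, M a b * (if b = v then -((d : ℝ) - 1) * x v else x b) =
          M a b * x b + (if b = v then M a v * (-((d : ℝ) - 1) * x v) - M a v * x v else 0) := by
        intro b; by_cases hb : b = v <;> simp [hb]
      simp_rw [h1, Finset.sum_add_distrib, h.ker a]
      simp
    rintro (a | w | w)
    · by_cases ha : a = v
      · subst ha; rw [r2]; exact hsumx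
      · rw [r1 a ha, hite a (x v), hMx a]
        simp
    · rw [r3]
      simp only [hvW w, if_false, hsumx]; ring
    · rw [r4]
      simp [hcard]; ring
  · intro y hy
    obtain ⟨r1, r2, r3, r4⟩ := fow_row h v hv y
    set c : ℝ := y (.inl v) + ∑ w', y (.inr (.inl w')) with hc
    have hp : ∀ w, y (.inr (.inl w)) = c := by
      intro w
      have := r4 w
      rw [hy] at this
      linarith
    have hq0 : ∑ w, y (.inr (.inr w)) = 0 := by rw [← r2, hy]
    have hq : ∀ w, y (.inr (.inr w)) = y (.inl w.1) := by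
      intro w
      have := r3 w
      rw [hy, hq0] at this
      linarith
    have hyv : y (.inl v) = -((d : ℝ) - 1) * c := by
      have : c = y (.inl v) + d * c := by
        conv_lhs => rw [hc]
        simp_rw [hp]
        simp [hcard]
      linarith
    obtain ⟨s, hs⟩ := h.uniq (fun a => if a = v then c else y (.inl a)) (by
      intro a
      have h1 : ∀ b, M a b * (if b = v then c else y (.inl b)) =
          M a b * y (.inl b) + (if b = v then M a v * c - M a v * y (.inl v) else 0) := by
        intro b; by_cases hb : b = v <;> simp [hb]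
      simp_rw [h1, Finset.sum_add_distrib]
      rw [Finset.sum_ite_eq' Finset.univ v (fun _ => M a v * c - M a v * y (.inl v))]
      simp only [mem_univ, if_true]
      by_cases ha : a = v
      · subst ha
        rw [hv, ← sum_nb h a (fun b => y (.inl b))]
        simp_rw [← hq, hq0]
        ring
      · have h2 := r1 a ha
        simp_rw [hp, hite a c, hy] at h2
        linarith)
    refine ⟨s, ?_⟩
    have hsv : c = s * x v := by simpa using hs v
    rintro (a | w | w)
    · by_cases ha : a = v
      · subst ha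
        simp only [if_true]
        rw [hyv, hsv]; ring
      · have := hs a
        simpa [ha] using this
    · rw [hp w, hsv]
    · rw [hq w]
      have := hs w.1
      simpa [hvW w] using this
  · rintro (a | a | a) (b | b | b) <;> simp only [fow]
    · split_ifs
      · left; rfl
      · exact h.zo a b
    all_goals first | (split_ifs <;> simp) | simp
  · obtain ⟨r1, r2, r3, r4⟩ := fow_row h v hv (fun _ => 1)
    simp only [mul_one] at r1 r2 r3 r4
    rintro (a | w | w)
    · by_cases ha : a = v
      · subst ha; rw [r2]; simp [hcard]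
      · rw [r1 a ha, hite a 1, h.row a]; ring
    · rw [r3]; simp [hcard]
    · rw [r4]; simp [hcard]

theorem SG.fowler {d N : ℕ} (h : SG d N) (hN : 2 ≤ N) : SG d (N + 2 * d) := by
  obtain ⟨M, x, hM, h0⟩ := h
  have hd := hM.two_le (by simpa using hN)
  let v : Fin N := ⟨0, by omega⟩
  refine (PolyNut.fowler hM hd v (h0 v)).toSG ?_ ?_
  · rintro (a | a | a) <;> simp only [fow]
    rw [h0 a]; simp
  · simp only [Fintype.card_sum, Fintype.card_fin, card_nb hM v]; ring

/-- `SA` with a vertex without semi-edge. -/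
def SA' (d N : ℕ) : Prop :=
  ∃ (M : Fin N → Fin N → ℝ) (x : Fin N → ℝ), Semi d M x ∧ ∃ v, M v v = 0

theorem SA'.sa {d N : ℕ} (h : SA' d N) : SA d N := by
  obtain ⟨M, x, h1, -⟩ := h; exact ⟨M, x, h1⟩

theorem Semi.toSA' {V : Type} [Fintype V] [DecidableEq V] {d N : ℕ} {M : V → V → ℝ} {x : V → ℝ}
    (h : Semi d M x) (h0 : ∃ a, M a a = 0) (hN : Fintype.card V = N) : SA' d N := by
  obtain ⟨e⟩ : Nonempty (Fin N ≃ V) := by
    rw [← Fintype.card_eq]; simp [hN]
  obtain ⟨a, ha⟩ := h0
  exact ⟨_, _, h.reindex e, e.symm a, by simpa using ha⟩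

theorem SA'.fowler {d N : ℕ} (h : SA' d N) (hd : 2 ≤ d) : SA' d (N + 2 * d) := by
  obtain ⟨M, x, hM, v, hv⟩ := h
  refine (PolyNut.fowler hM hd v hv).toSA' ⟨.inl v, by simp [fow]⟩ ?_
  simp only [Fintype.card_sum, Fintype.card_fin, card_nb hM v]; ring

end PolyNut
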