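import Pool.Agent.Helper82.Nut.Cert

/-! Explicit quartic seeds. -/

namespace PolyNut

def q8R : List (List ℕ) := [[1, 2, 5, 7],
  [0, 2, 6, 7],
  [0, 1, 3, 5],
  [2, 4, 5, 6],
  [3, 5, 6, 7],
  [0, 2, 3, 4],
  [1, 3, 4, 7],
  [0, 1, 4, 6]]

def q8X : List ℤ := [1, -1, -1, -1, 1, 1, -1, 1]

def q8Q : List (List ℤ) := [[0, 0, 0, 0, 0, 0, 0, 0],
  [0, 3, 5, -1, -4, -2, 1, 2],
  [0, 5, 3, 1, -4, 2, -1, -2],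
  [0, -1, 1, -5, 4, 6, -3, 2],
  [0, -4, -4, 4, 0, 0, 4, 0],
  [0, -2, 2, 6, 0, -4, 2, -4],
  [0, 1, -1, -3, 4, 2, -5, 6],
  [0, 2, -2, 2, 0, -4, 6, -4]]

theorem q8_sym : SymCert 8 4 (fun i j : Fin 8 => nb q8R i j) := by decide +kernel

theorem q8_ker : KerCert 8 (fun i j : Fin 8 => nb q8R i j) (fun i => q8X.getD i 0)
    (fun i j => lk q8Q i j) 8 0 := by decide +kernel

theorem q8 : SG 4 8 := by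
  refine ⟨_, _, semi_of_cert q8_sym q8_ker, fun a => ?_⟩
  have h : ∀ a : Fin 8, nb q8R a a = 0 := by decide +kernel
  have := h a
  exact_mod_cast this

def q10R : List (List ℕ) := [[1, 2, 5, 8],
  [0, 2, 3, 6],
  [0, 1, 8, 9],
  [1, 4, 5, 9],
  [3, 6, 7, 8],
  [0, 3, 6, 9],
  [1, 4, 5, 7],
  [4, 6, 8, 9],
  [0, 2, 4, 7],
  [2, 3, 5, 7]]

def q10X : List ℤ := [-1, 1, 1, -1, -1, -1, 1, 1, -1, 1]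

def q10Q : List (List ℤ) := [[0, 0, 0, 0, 0, 0, 0, 0, 0, 0],
  [0, -1, -1, 0, 0, 0, -1, 1, 0, 1],
  [0, -1, -1, 2, 2, 0, -1, -1, 0, -1],
  [0, 0, 2, -8, -6, 2, 6, 4, -2, 2],
  [0, 0, 2, -6, -4, 2, 4, 2, -2, 2],
  [0, 0, 0, 2, 2, 0, -2, -2, 2, -2],
  [0, -1, -1, 6, 4, -2, -5, -3, 2, -1],
  [0, 1, -1, 4, 2, -2, -3, -1, 0, -1],
  [0, 0, 0, -2, -2, 2, 2, 0, 0, 0],
  [0, 1, -1, 2, 2, -2, -1, -1, 0, -1]]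

theorem q10_sym : SymCert 10 4 (fun i j : Fin 10 => nb q10R i j) := by decide +kernel

theorem q10_ker : KerCert 10 (fun i j : Fin 10 => nb q10R i j) (fun i => q10X.getD i 0)
    (fun i j => lk q10Q i j) 2 0 := by decide +kernel

theorem q10 : SG 4 10 := by
  refine ⟨_, _, semi_of_cert q10_sym q10_ker, fun a => ?_⟩
  have h : ∀ a : Fin 10, nb q10R a a = 0 := by decide +kernel
  have := h a
  exact_mod_cast this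

def q12R : List (List ℕ) := [[4, 5, 10, 11],
  [2, 5, 6, 9],
  [1, 3, 9, 10],
  [2, 6, 7, 9],
  [0, 7, 8, 9],
  [0, 1, 7, 8],
  [1, 3, 8, 11],
  [3, 4, 5, 11],
  [4, 5, 6, 10],
  [1, 2, 3, 4],
  [0, 2, 8, 11],
  [0, 6, 7, 10]]

def q12X : List ℤ := [1, 1, -1, -1, 1, -1, 1, -1, -1, 1, -1, 1]

def q12Q : List (List ℤ) := [[0, 0, 0, 0, 0, 0, 0, 0, 0, 0, 0, 0],
  [0, -1, 1, 2, -2, 2, 0, 0, 1, -1, 0, -2],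
  [0, 1, 0, -1, 0, 0, -1, 0, -1, 1, 1, 1],
  [0, 2, -1, -3, 2, -2, 1, 0, -2, 2, -1, 3],
  [0, -2, 0, 2, 0, 0, 0, 0, 2, 0, 0, -2],
  [0, 2, 0, -2, 0, 1, -1, 1, -1, 0, 0, 1],
  [0, 0, -1, 1, 0, -1, 2, -1, 1, 0, -1, 0],
  [0, 0, 0, 0, 0, 1, -1, 1, -1, 0, 0, 1],
  [0, 1, -1, -2, 2, -1, 1, -1, 0, 1, 0, 1],
  [0, -1, 1, 2, 0, 0, 0, 0, 1, -1, 0, -2],
  [0, 0, 1, -1, 0, 0, -1, 0, 0, 0, 1, 1],
  [0, -2, 1, 3, -2, 1, 0, 1, 1, -2, 1, -2]]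

theorem q12_sym : SymCert 12 4 (fun i j : Fin 12 => nb q12R i j) := by decide +kernel

theorem q12_ker : KerCert 12 (fun i j : Fin 12 => nb q12R i j) (fun i => q12X.getD i 0)
    (fun i j => lk q12Q i j) 2 0 := by decide +kernel

theorem q12 : SG 4 12 := by
  refine ⟨_, _, semi_of_cert q12_sym q12_ker, fun a => ?_⟩
  have h : ∀ a : Fin 12, nb q12R a a = 0 := by decide +kernel
  have := h a
  exact_mod_cast this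

def q14R : List (List ℕ) := [[4, 10, 12, 13],
  [2, 6, 11, 13],
  [1, 5, 8, 12],
  [4, 6, 9, 10],
  [0, 3, 8, 9],
  [2, 8, 10, 12],
  [1, 3, 7, 8],
  [6, 9, 10, 11],
  [2, 4, 5, 6],
  [3, 4, 7, 13],
  [0, 3, 5, 7],
  [1, 7, 12, 13],
  [0, 2, 5, 11],
  [0, 1, 9, 11]]

def q14X : List ℤ := [-1, 1, 1, 1, -1, 1, -1, -1, -1, 1, 1, -1, -1, 1]

def q14Q : List (List ℤ) := [[0, 0, 0, 0, 0, 0, 0, 0, 0, 0, 0, 0, 0, 0],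
  [0, -3, -1, -3, 2, -1, 0, 4, 2, 1, -3, 2, 2, -3],
  [0, -1, 1, -1, 0, -1, 0, 2, 0, 1, -1, 0, 0, -1],
  [0, -3, -1, 1, 2, -3, 2, 2, 0, -1, -5, 4, 6, -5],
  [0, 2, 0, 2, 0, 0, 0, -2, -2, -2, 2, 0, 0, 0],
  [0, -1, -1, -3, 0, 1, 0, 2, 2, 1, -1, 0, -2, 1],
  [0, 0, 0, 2, 0, 0, 0, -2, -2, 0, 0, 0, 2, 0],
  [0, 4, 2, 2, -2, 2, -2, -4, -2, 0, 4, -4, -4, 4],
  [0, 2, 0, 0, -2, 2, -2, -2, 0, 0, 4, -2, -4, 4],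
  [0, 1, 1, -1, -2, 1, 0, 0, 0, 1, 1, -2, -2, 1],
  [0, -3, -1, -5, 2, -1, 0, 4, 4, 1, -3, 2, 0, -1],
  [0, 2, 0, 4, 0, 0, 0, -4, -2, -2, 2, 0, 0, 0],
  [0, 2, 0, 6, 0, -2, 2, -4, -4, -2, 0, 0, 4, -2],
  [0, -3, -1, -5, 0, 1, 0, 4, 4, 1, -1, 0, -2, 1]]

theorem q14_sym : SymCert 14 4 (fun i j : Fin 14 => nb q14R i j) := by decide +kernel

theorem q14_ker : KerCert 14 (fun i j : Fin 14 => nb q14R i j) (fun i => q14X.getD i 0)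
    (fun i j => lk q14Q i j) 2 0 := by decide +kernel

theorem q14 : SG 4 14 := by
  refine ⟨_, _, semi_of_cert q14_sym q14_ker, fun a => ?_⟩
  have h : ∀ a : Fin 14, nb q14R a a = 0 := by decide +kernel
  have := h a
  exact_mod_cast this

def q15R : List (List ℕ) := [[2, 3, 6, 8],
  [2, 4, 5, 9],
  [0, 1, 13, 14],
  [0, 4, 5, 7],
  [1, 3, 6, 11],
  [1, 3, 11, 13],
  [0, 4, 8, 12],
  [3, 10, 12, 14],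
  [0, 6, 10, 11],
  [1, 10, 12, 14],
  [7, 8, 9, 14],
  [4, 5, 8, 13],
  [6, 7, 9, 13],
  [2, 5, 11, 12],
  [2, 7, 9, 10]]

def q15X : List ℤ := [-3, -2, 3, -2, 6, -5, 1, 2, -2, -4, -1, 3, -1, 1, 4]

def q15Q : List (List ℤ) := [[0, 0, 0, 0, 0, 0, 0, 0, 0, 0, 0, 0, 0, 0, 0],
  [0, 1, 6, 1, -15, -2, 4, 17, 13, -25, 2, -6, 2, 4, -5],
  [0, 6, -36, 6, -18, 24, -12, -6, 6, 30, 12, 0, 12, -12, -30],
  [0, 1, 6, 1, -15, -2, 4, -19, 13, 11, 2, -6, 2, 4, -5],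
  [0, -15, -18, -15, 9, -6, -24, -3, -15, 15, 6, 18, 6, 12, 3],
  [0, -2, 24, -2, -6, 4, 28, 2, 10, -22, -4, -24, -4, -8, 10],
  [0, 4, -12, 4, -24, 28, -2, -4, -2, 8, 8, -6, -10, -2, -2],
  [0, 17, -6, -19, -3, 2, -4, 1, 5, 7, -2, 6, -2, -4, -13],
  [0, 13, 6, 13, -15, 10, -2, 5, 7, -1, -10, -24, 8, -2, -11],
  [0, -25, 30, 11, 15, -22, 8, 7, -1, -23, -14, 6, -14, 8, 17],
  [0, 2, 12, 2, 6, -4, 8, -2, -10, -14, 4, -12, 4, 8, -10],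
  [0, -6, 0, -6, 18, -24, -6, 6, -24, 6, -12, 18, 6, -6, 12],
  [0, 2, 12, 2, 6, -4, -10, -2, 8, -14, 4, 6, -14, -10, 8],
  [0, 4, -12, 4, 12, -8, -2, -4, -2, 8, 8, -6, -10, -2, -2],
  [0, -5, -30, -5, 3, 10, -2, -13, -11, 17, -10, 12, 8, -2, 7]]

theorem q15_sym : SymCert 15 4 (fun i j : Fin 15 => nb q15R i j) := by decide +kernel

theorem q15_ker : KerCert 15 (fun i j : Fin 15 => nb q15R i j) (fun i => q15X.getD i 0)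
    (fun i j => lk q15Q i j) 12 0 := by decide +kernel

theorem q15 : SG 4 15 := by
  refine ⟨_, _, semi_of_cert q15_sym q15_ker, fun a => ?_⟩
  have h : ∀ a : Fin 15, nb q15R a a = 0 := by decide +kernel
  have := h a
  exact_mod_cast this

def q17R : List (List ℕ) := [[6, 7, 10, 15],
  [2, 4, 8, 14],
  [1, 8, 14, 16],
  [5, 6, 7, 12],
  [1, 9, 11, 16],
  [3, 7, 9, 13],
  [0, 3, 9, 12],
  [0, 3, 5, 15],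
  [1, 2, 13, 16],
  [4, 5, 6, 15],
  [0, 11, 14, 16],
  [4, 10, 13, 14],
  [3, 6, 13, 15],
  [5, 8, 11, 12],
  [1, 2, 10, 11],
  [0, 7, 9, 12],
  [2, 4, 8, 10]]

def q17X : List ℤ := [-1, 1, -1, 2, 3, -2, -2, 2, -1, -3, -1, 1, 2, -1, -1, 1, 1]

def q17Q : List (List ℤ) := [[0, 0, 0, 0, 0, 0, 0, 0, 0, 0, 0, 0, 0, 0, 0, 0, 0],
  [0, 12, -12, 14, 24, -14, -10, 14, -4, -24, -8, 8, 10, -4, -12, 0, 4],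
  [0, -12, 10, -12, -20, 12, 8, -12, 2, 20, 8, -6, -8, 4, 8, 0, -2],
  [0, 14, -12, 15, 28, -17, -13, 15, -4, -26, -12, 10, 11, -4, -12, 2, 2],
  [0, 24, -20, 28, 48, -28, -20, 28, -8, -48, -20, 16, 20, -8, -20, 0, 4],
  [0, -14, 12, -17, -28, 15, 11, -17, 4, 26, 12, -10, -9, 4, 12, 2, -2],
  [0, -10, 8, -13, -20, 11, 7, -9, 4, 18, 8, -6, -9, 4, 8, 2, -2],
  [0, 14, -12, 15, 28, -17, -9, 15, -4, -26, -12, 10, 11, -4, -12, -2, 2],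
  [0, -4, 2, -4, -8, 4, 4, -4, 2, 8, 4, -2, -4, 0, 4, 0, -2],
  [0, -24, 20, -26, -48, 26, 18, -26, 8, 44, 20, -16, -18, 8, 20, 0, -4],
  [0, -8, 8, -12, -20, 12, 8, -12, 4, 20, 8, -8, -8, 4, 8, 0, -4],
  [0, 8, -6, 10, 16, -10, -6, 10, -2, -16, -8, 6, 6, -4, -8, 0, 2],
  [0, 10, -8, 11, 20, -9, -9, 11, -4, -18, -8, 6, 7, -4, -8, -2, 2],
  [0, -4, 4, -4, -8, 4, 4, -4, 0, 8, 4, -4, -4, 0, 4, 0, 0],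
  [0, -12, 8, -12, -20, 12, 8, -12, 4, 20, 8, -8, -8, 4, 8, 0, 0],
  [0, 0, 0, 2, 0, 2, 2, -2, 0, 0, 0, 0, -2, 0, 0, -4, 0],
  [0, 4, -2, 2, 4, -2, -2, 2, -2, -4, -4, 2, 2, 0, 0, 0, -2]]

theorem q17_sym : SymCert 17 4 (fun i j : Fin 17 => nb q17R i j) := by decide +kernel

theorem q17_ker : KerCert 17 (fun i j : Fin 17 => nb q17R i j) (fun i => q17X.getD i 0)
    (fun i j => lk q17Q i j) 4 0 := by decide +kernel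

theorem q17 : SG 4 17 := by
  refine ⟨_, _, semi_of_cert q17_sym q17_ker, fun a => ?_⟩
  have h : ∀ a : Fin 17, nb q17R a a = 0 := by decide +kernel
  have := h a
  exact_mod_cast this

def q19R : List (List ℕ) := [[2, 13, 15, 18],
  [6, 10, 11, 17],
  [0, 4, 13, 16],
  [4, 8, 9, 14],
  [2, 3, 13, 14],
  [8, 11, 15, 17],
  [1, 15, 16, 17],
  [10, 12, 17, 18],
  [3, 5, 13, 16],
  [3, 12, 14, 18],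
  [1, 7, 12, 15],
  [1, 5, 12, 18],
  [7, 9, 10, 11],
  [0, 2, 4, 8],
  [3, 4, 9, 16],
  [0, 5, 6, 10],
  [2, 6, 8, 14],
  [1, 5, 6, 7],
  [0, 7, 9, 11]]

def q19X : List ℤ := [1, 3, -2, 2, -2, -3, 1, -1, 3, 1, 1, -1, -1, 2, -2, -1, -1, -1, 1]

def q19Q : List (List ℤ) := [[0, 0, 0, 0, 0, 0, 0, 0, 0, 0, 0, 0, 0, 0, 0, 0, 0, 0, 0],
  [0, 1, 0, 0, 1, 1, -1, -1, -1, -2, 0, 3, 4, -2, 2, -4, 1, 2, -6],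
  [0, 0, -1, -1, 1, -2, 2, 0, 0, 0, 0, 0, -2, 3, -1, 2, 0, -2, 4],
  [0, 0, -1, -1, 1, 2, -2, 0, 0, 0, 0, 0, 2, -1, 3, -2, 0, 2, -4],
  [0, 1, 1, 1, 0, -1, 1, -1, -1, 2, 0, -1, -2, 3, -1, 2, -3, 0, 2],
  [0, 1, -2, 2, -1, -3, 3, -1, 3, 2, 0, -1, -4, 4, -4, 4, -3, -2, 6],
  [0, -1, 2, -2, 1, 3, -3, 1, -3, -2, 0, 1, 0, -4, 4, 0, 3, 2, -2],
  [0, -1, 0, 0, -1, -1, 1, 1, 1, 2, 0, -3, 0, 2, -2, 0, -1, 2, 2],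
  [0, -1, 0, 0, -1, 3, -3, 1, 1, -2, 0, 1, 4, -2, 2, -4, 3, 2, -6],
  [0, -2, 0, 0, 2, 2, -2, 2, -2, -4, 0, 2, 0, -4, 4, 0, 2, 0, 0],
  [0, 0, 0, 0, 0, 0, 0, 0, 0, 0, 0, 0, 4, 0, 0, 0, 0, 0, -4],
  [0, 3, 0, 0, -1, -1, 1, -3, 1, 2, 0, 1, 0, 2, -2, 0, -1, -2, 2],
  [0, 4, -2, 2, -2, -4, 0, 0, 4, 0, 4, 0, -4, 2, -2, 0, 0, -4, 4],
  [0, -2, 3, -1, 3, 4, -4, 2, -2, -4, 0, 2, 2, -5, 3, -2, 2, 2, -4],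
  [0, 2, -1, 3, -1, -4, 4, -2, 2, 4, 0, -2, -2, 3, -5, 2, -2, -2, 4],
  [0, -4, 2, -2, 2, 4, 0, 0, -4, 0, 0, 0, 0, -2, 2, 4, 0, 0, 0],
  [0, 1, 0, 0, -3, -3, 3, -1, 3, 2, 0, -1, 0, 2, -2, 0, 1, -2, 2],
  [0, 2, -2, 2, 0, -2, 2, 2, 2, 0, 0, -2, -4, 2, -2, 0, -2, 0, 4],
  [0, -6, 4, -4, 2, 6, -2, 2, -6, 0, -4, 2, 4, -4, 4, 0, 2, 4, -4]]

theorem q19_sym : SymCert 19 4 (fun i j : Fin 19 => nb q19R i j) := by decide +kernel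

theorem q19_ker : KerCert 19 (fun i j : Fin 19 => nb q19R i j) (fun i => q19X.getD i 0)
    (fun i j => lk q19Q i j) 4 0 := by decide +kernel

theorem q19 : SG 4 19 := by
  refine ⟨_, _, semi_of_cert q19_sym q19_ker, fun a => ?_⟩
  have h : ∀ a : Fin 19, nb q19R a a = 0 := by decide +kernel
  have := h a
  exact_mod_cast this

def q21R : List (List ℕ) := [[4, 10, 14, 16],
  [5, 6, 13, 16],
  [3, 11, 17, 18],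
  [2, 4, 14, 15],
  [0, 3, 8, 17],
  [1, 9, 11, 13],
  [1, 13, 18, 20],
  [10, 12, 18, 20],
  [4, 10, 15, 19],
  [5, 10, 12, 13],
  [0, 7, 8, 9],
  [2, 5, 14, 15],
  [7, 9, 15, 19],
  [1, 5, 6, 9],
  [0, 3, 11, 20],
  [3, 8, 11, 12],
  [0, 1, 19, 20],
  [2, 4, 18, 19],
  [2, 6, 7, 17],
  [8, 12, 16, 17],
  [6, 7, 14, 16]]

def q21X : List ℤ := [-2, -3, -2, -2, 1, 1, 1, -1, 2, 1, -1, 1, -1, 1, 3, -2, -3, 2, -1, 2, 3]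

def q21Q : List (List ℤ) := [[0, 0, 0, 0, 0, 0, 0, 0, 0, 0, 0, 0, 0, 0, 0, 0, 0, 0, 0, 0, 0],
  [0, 17, 11, 15, -1, -1, -14, 10, -8, -2, 9, -7, 0, -8, -11, 1, 15, -7, -1, -9, -8],
  [0, 11, 14, 14, -5, -5, -7, 3, -4, 1, 9, -9, -1, -3, -11, 2, 15, -10, -3, -6, -5],
  [0, 15, 14, 14, -9, -1, -11, 7, -4, -3, 13, -5, -5, -7, -15, 2, 19, -10, 1, -6, -9],
  [0, -1, -5, -9, 5, 5, 0, 4, 0, -4, -5, 7, 2, -2, -1, 1, -3, 1, 1, -1, 2],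
  [0, -1, -5, -1, 5, 5, 0, 4, 0, -4, -5, -1, 2, -2, -1, 1, -3, 1, 1, -1, 2],
  [0, -14, -7, -11, 0, 0, 9, -9, 4, 5, -4, 6, 1, 3, 12, -5, -12, 7, -2, 9, 5],
  [0, 10, 3, 7, 4, 4, -9, 9, -4, -5, 0, -2, -1, -3, -8, 1, 8, -3, -2, -5, -5],
  [0, -8, -4, -4, 0, 0, 4, -4, 0, 4, -8, 0, 4, 4, 8, -4, -8, 4, 0, 4, 4],
  [0, -2, 1, -3, -4, -4, 5, -5, 4, 1, 0, 2, -3, -1, 0, 3, 0, -1, 2, 1, 1],
  [0, 9, 9, 13, -5, -5, -4, 0, -8, 0, 5, -7, 2, -2, -7, 3, 11, -5, -1, -3, -6],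
  [0, -7, -9, -5, 7, -1, 6, -2, 0, 2, -7, 1, 4, 4, 5, -3, -9, 5, -1, 3, 4],
  [0, 0, -1, -5, 2, 2, 1, -1, 4, -3, 2, 4, -3, -1, 2, -3, -2, 1, 0, -1, 1],
  [0, -8, -3, -7, -2, -2, 3, -3, 4, -1, -2, 4, -1, 5, 6, -1, -6, 3, 0, 5, 3],
  [0, -11, -11, -15, -1, -1, 12, -8, 8, 0, -7, 5, 2, 6, 13, -1, -17, 7, 3, 9, 2],
  [0, 1, 2, 2, 1, 1, -5, 1, -4, 3, 3, -3, -3, -1, -1, -2, 5, 2, -1, -2, 1],
  [0, 15, 15, 19, -3, -3, -12, 8, -8, 0, 11, -9, -2, -6, -17, 5, 21, -11, 1, -13, -10],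
  [0, -7, -10, -10, 1, 1, 7, -3, 4, -1, -5, 5, 1, 3, 7, 2, -11, 6, -1, 2, 5],
  [0, -1, -3, 1, 1, 1, -2, -2, 0, 2, -1, -1, 0, 0, 3, -1, 1, -1, 1, 1, 0],
  [0, -9, -6, -6, -1, -1, 9, -5, 4, 1, -3, 3, -1, 5, 9, -2, -13, 2, 1, 6, 3],
  [0, -8, -5, -9, 2, 2, 5, -5, 4, 1, -6, 4, 1, 3, 2, 1, -10, 5, 0, 3, 5]]

theorem q21_sym : SymCert 21 4 (fun i j : Fin 21 => nb q21R i j) := by decide +kernel

theorem q21_ker : KerCert 21 (fun i j : Fin 21 => nb q21R i j) (fun i => q21X.getD i 0)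
    (fun i j => lk q21Q i j) 4 0 := by decide +kernel

theorem q21 : SG 4 21 := by
  refine ⟨_, _, semi_of_cert q21_sym q21_ker, fun a => ?_⟩
  have h : ∀ a : Fin 21, nb q21R a a = 0 := by decide +kernel
  have := h a
  exact_mod_cast this

end PolyNut
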