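import Pool.Agent.Helper82.Nut.Cubic
import Pool.Agent.Helper82.Nut.SeedsQuartic

/-!
The sets `𝔑^4_ℓ` for `ℓ ≥ 14` and `ℓ ∈ {8, 10, 12}`.
-/

namespace PolyNut

theorem quartic {l : ℕ} (h : l = 8 ∨ l = 10 ∨ l = 12 ∨ 14 ≤ l) : SG 4 l := by
  have key : ∀ s : ℕ, SG 4 s → 2 ≤ s → s ≤ l → l % 8 = s % 8 → SG 4 l := by
    intro s hs h2 hle hmod
    have := hs.fowler_iter h2 ((l - s) / 8)
    have e : s + 2 * 4 * ((l - s) / 8) = l := by omega
    rwa [e] at this
  have h8 : l % 8 = 0 ∨ l % 8 = 1 ∨ l % 8 = 2 ∨ l % 8 = 3 ∨ l % 8 = 4 ∨ l % 8 = 5 ∨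
    l % 8 = 6 ∨ l % 8 = 7 := by omega
  rcases h8 with h8 | h8 | h8 | h8 | h8 | h8 | h8 | h8
  · exact key 8 q8 (by omega) (by omega) (by omega)
  · exact key 17 q17 (by omega) (by omega) (by omega)
  · exact key 10 q10 (by omega) (by omega) (by omega)
  · exact key 19 q19 (by omega) (by omega) (by omega)
  · exact key 12 q12 (by omega) (by omega) (by omega)
  · exact key 21 q21 (by omega) (by omega) (by omega)
  · exact key 14 q14 (by omega) (by omega) (by omega)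
  · exact key 15 q15 (by omega) (by omega) (by omega)

theorem quartic_orders {l : ℕ} (h : l = 8 ∨ l = 10 ∨ l = 12 ∨ 14 ≤ l) :
    orders 4 l = {n | 1 ≤ n} :=
  (quartic h).orders_eq (by omega)

end PolyNut
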