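import Pool.Agent.Helper82.Nut.Closure

/-! Explicit seeds with semi-edges, degree 5. -/

namespace PolyNut

def s5_11R : List (List ℕ) := [[1, 2, 5, 7, 8],
  [0, 1, 5, 7, 10],
  [0, 3, 4, 6, 8],
  [2, 4, 6, 7, 8],
  [2, 3, 5, 9, 10],
  [0, 1, 4, 7, 9],
  [2, 3, 6, 9, 10],
  [0, 1, 3, 5, 7],
  [0, 2, 3, 9, 10],
  [4, 5, 6, 8, 9],
  [1, 4, 6, 8, 10]]

def s5_11X : List ℤ := [-1, -1, -2, 1, -1, -1, -1, 2, 2, 1, 1]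

def s5_11Q : List (List ℤ) := [[0, 0, 0, 0, 0, 0, 0, 0, 0, 0, 0],
  [0, 5, 5, 0, 0, 0, 0, -5, 0, 0, -5],
  [0, 5, 4, -3, -5, 0, 0, -2, 3, 2, -3],
  [0, 0, -3, 1, 0, 0, 0, -1, -1, 1, 1],
  [0, 0, -5, 0, -10, -5, 0, 5, 10, 5, 0],
  [0, 0, 0, 0, -5, 0, 0, 0, 5, 0, 0],
  [0, 0, 0, 0, 0, 0, -5, 0, 5, 0, 0],
  [0, -5, -2, -1, 5, 0, 0, 1, -4, -1, 4],
  [0, 0, 3, -1, 10, 5, 5, -4, -14, -6, -1],
  [0, 0, 2, 1, 5, 0, 0, -1, -6, -4, 1],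
  [0, -5, -3, 1, 0, 0, 0, 4, -1, 1, 1]]

theorem s5_11_sym : SymCert 11 5 (fun i j : Fin 11 => nb s5_11R i j) := by decide +kernel

theorem s5_11_ker : KerCert 11 (fun i j : Fin 11 => nb s5_11R i j) (fun i => s5_11X.getD i 0)
    (fun i j => lk s5_11Q i j) 5 0 := by decide +kernel

theorem s5_11 : SB 5 11 := by
  refine ⟨_, _, semi_of_cert s5_11_sym s5_11_ker, ⟨⟨0, by norm_num⟩, ?_⟩,
    ⟨⟨1, by norm_num⟩, ?_⟩⟩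
  · have h : nb s5_11R 0 0 = 0 := by decide +kernel
    exact_mod_cast h
  · have h : nb s5_11R 1 1 = 1 := by decide +kernel
    exact_mod_cast h

def s5_12R : List (List ℕ) := [[2, 3, 5, 10, 11],
  [3, 5, 6, 9, 11],
  [0, 2, 6, 7, 10],
  [0, 1, 3, 4, 7],
  [3, 5, 7, 8, 11],
  [0, 1, 4, 5, 10],
  [1, 2, 8, 9, 11],
  [2, 3, 4, 8, 9],
  [4, 6, 7, 10, 11],
  [1, 6, 7, 9, 10],
  [0, 2, 5, 8, 9],
  [0, 1, 4, 6, 8]]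

def s5_12X : List ℤ := [2, -1, -2, 1, -1, -2, -1, -1, 1, 1, 2, 1]

def s5_12Q : List (List ℤ) := [[0, 0, 0, 0, 0, 0, 0, 0, 0, 0, 0, 0],
  [0, 1, 2, 5, -1, 4, 7, -5, -7, 1, -4, 3],
  [0, 2, 12, 6, -6, 0, 6, -2, -2, -10, 4, -2],
  [0, 5, 6, -3, 7, 4, -1, 11, -11, 1, -16, -1],
  [0, -1, -6, 7, -7, 0, -3, 1, 11, -5, 8, 1],
  [0, 4, 0, 4, 0, 4, -4, -8, 0, -4, 12, 0],
  [0, 7, 6, -1, -3, -4, -3, -3, -1, -1, 0, 9],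
  [0, -5, -2, 11, 1, -8, -3, -7, 7, 3, 12, -3],
  [0, -7, -2, -11, 11, 0, -1, 7, -3, 5, -4, 7],
  [0, 1, -10, 1, -5, -4, -1, 3, 5, 9, 8, -5],
  [0, -4, 4, -16, 8, 12, 0, 12, -4, 8, -16, -4],
  [0, 3, -2, -1, 1, 0, 9, -3, 7, -5, -4, -3]]

theorem s5_12_sym : SymCert 12 5 (fun i j : Fin 12 => nb s5_12R i j) := by decide +kernel

theorem s5_12_ker : KerCert 12 (fun i j : Fin 12 => nb s5_12R i j) (fun i => s5_12X.getD i 0)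
    (fun i j => lk s5_12Q i j) 10 0 := by decide +kernel

theorem s5_12 : SB 5 12 := by
  refine ⟨_, _, semi_of_cert s5_12_sym s5_12_ker, ⟨⟨0, by norm_num⟩, ?_⟩,
    ⟨⟨2, by norm_num⟩, ?_⟩⟩
  · have h : nb s5_12R 0 0 = 0 := by decide +kernel
    exact_mod_cast h
  · have h : nb s5_12R 2 2 = 1 := by decide +kernel
    exact_mod_cast h

def s5_13R : List (List ℕ) := [[1, 2, 4, 7, 11],
  [0, 3, 5, 9, 12],
  [0, 2, 8, 9, 10],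
  [1, 3, 6, 10, 11],
  [0, 4, 6, 8, 10],
  [1, 5, 7, 8, 9],
  [3, 4, 6, 7, 12],
  [0, 5, 6, 7, 12],
  [2, 4, 5, 8, 11],
  [1, 2, 5, 9, 11],
  [2, 3, 4, 10, 12],
  [0, 3, 8, 9, 11],
  [1, 6, 7, 10, 12]]

def s5_13X : List ℤ := [1, 3, 2, 1, -1, -1, 1, -2, 2, -2, -3, -2, 1]

def s5_13Q : List (List ℤ) := [[0, 0, 0, 0, 0, 0, 0, 0, 0, 0, 0, 0, 0],
  [0, 13, 9, 5, -8, -3, 10, -17, 14, -7, -16, -12, 10],
  [0, 9, 12, 5, -9, -4, 10, -11, 12, -6, -13, -11, 5],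
  [0, 5, 5, 5, -5, 0, 5, -5, 5, -5, -5, -5, 0],
  [0, -8, -9, -5, 8, 3, -5, 7, -9, 7, 11, 7, -5],
  [0, -3, -4, 0, 3, 3, -5, 7, -4, 2, 6, 2, -5],
  [0, 10, 10, 5, -5, -5, 10, -10, 10, -5, -15, -10, 5],
  [0, -17, -11, -5, 7, 7, -10, 18, -16, 8, 19, 13, -10],
  [0, 14, 12, 5, -9, -4, 10, -16, 17, -11, -18, -11, 10],
  [0, -7, -6, -5, 7, 2, -5, 8, -11, 8, 9, 8, -5],
  [0, -16, -13, -5, 11, 6, -15, 19, -18, 9, 22, 14, -10],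
  [0, -12, -11, -5, 7, 2, -10, 13, -11, 8, 14, 13, -5],
  [0, 10, 5, 0, -5, -5, 5, -10, 10, -5, -10, -5, 10]]

theorem s5_13_sym : SymCert 13 5 (fun i j : Fin 13 => nb s5_13R i j) := by decide +kernel

theorem s5_13_ker : KerCert 13 (fun i j : Fin 13 => nb s5_13R i j) (fun i => s5_13X.getD i 0)
    (fun i j => lk s5_13Q i j) 5 0 := by decide +kernel

theorem s5_13 : SB 5 13 := by
  refine ⟨_, _, semi_of_cert s5_13_sym s5_13_ker, ⟨⟨0, by norm_num⟩, ?_⟩,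
    ⟨⟨2, by norm_num⟩, ?_⟩⟩
  · have h : nb s5_13R 0 0 = 0 := by decide +kernel
    exact_mod_cast h
  · have h : nb s5_13R 2 2 = 1 := by decide +kernel
    exact_mod_cast h

def s5_14R : List (List ℕ) := [[0, 1, 5, 6, 11],
  [0, 2, 3, 5, 12],
  [1, 2, 3, 4, 9],
  [1, 2, 4, 5, 9],
  [2, 3, 7, 8, 11],
  [0, 1, 3, 11, 13],
  [0, 6, 8, 9, 10],
  [4, 7, 8, 11, 12],
  [4, 6, 7, 10, 12],
  [2, 3, 6, 10, 13],
  [6, 8, 9, 10, 13],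
  [0, 4, 5, 7, 11],
  [1, 7, 8, 12, 13],
  [5, 9, 10, 12, 13]]

def s5_14X : List ℤ := [1, -1, 2, -2, -1, -2, 1, 1, -2, 2, -2, 1, 1, 1]

def s5_14Q : List (List ℤ) := [[0, 0, 0, 0, 0, 0, 0, 0, 0, 0, 0, 0, 0, 0],
  [0, -3, -1, 3, -3, 3, 10, 0, -2, 4, -12, 0, 5, 0],
  [0, -1, -7, 11, 9, 1, -10, 0, 6, -2, 6, -10, -5, 0],
  [0, 3, 11, -13, -7, -3, 10, 0, -8, 6, -8, 10, 5, 0],
  [0, -3, 9, -7, -13, -7, 10, 10, -12, 14, -12, 10, 5, 0],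
  [0, 3, 1, -3, -7, -3, 10, 0, -8, 6, -8, 10, 5, 0],
  [0, 10, -10, 10, 10, 10, -20, -10, 20, -20, 30, -10, -10, -10],
  [0, 0, 0, 0, 10, 0, -10, -10, 10, -10, 10, 0, 0, 0],
  [0, -2, 6, -8, -12, -8, 20, 10, -18, 16, -18, 10, 10, 0],
  [0, 4, -2, 6, 14, 6, -20, -10, 16, -22, 26, -10, -10, 0],
  [0, -12, 6, -8, -12, -8, 30, 10, -18, 26, -38, 10, 10, 10],
  [0, 0, -10, 10, 10, 10, -10, 0, 10, -10, 10, -10, -10, 0],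
  [0, 5, -5, 5, 5, 5, -10, 0, 10, -10, 10, -10, -5, 0],
  [0, 0, 0, 0, 0, 0, -10, 0, 0, 0, 10, 0, 0, 0]]

theorem s5_14_sym : SymCert 14 5 (fun i j : Fin 14 => nb s5_14R i j) := by decide +kernel

theorem s5_14_ker : KerCert 14 (fun i j : Fin 14 => nb s5_14R i j) (fun i => s5_14X.getD i 0)
    (fun i j => lk s5_14Q i j) 10 0 := by decide +kernel

theorem s5_14 : SB 5 14 := by
  refine ⟨_, _, semi_of_cert s5_14_sym s5_14_ker, ⟨⟨1, by norm_num⟩, ?_⟩,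
    ⟨⟨0, by norm_num⟩, ?_⟩⟩
  · have h : nb s5_14R 1 1 = 0 := by decide +kernel
    exact_mod_cast h
  · have h : nb s5_14R 0 0 = 1 := by decide +kernel
    exact_mod_cast h

def s5_15R : List (List ℕ) := [[2, 6, 7, 12, 13],
  [5, 7, 12, 13, 14],
  [0, 2, 3, 4, 9],
  [2, 4, 8, 9, 10],
  [2, 3, 4, 11, 13],
  [1, 5, 6, 8, 11],
  [0, 5, 7, 12, 14],
  [0, 1, 6, 10, 13],
  [3, 5, 8, 9, 14],
  [2, 3, 8, 10, 11],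
  [3, 7, 9, 10, 12],
  [4, 5, 9, 12, 14],
  [0, 1, 6, 10, 11],
  [0, 1, 4, 7, 13],
  [1, 6, 8, 11, 14]]

def s5_15X : List ℤ := [-3, 2, 2, 2, 2, 2, 2, 2, -3, -3, 2, -3, -3, -3, 2]

def s5_15Q : List (List ℤ) := [[0, 0, 0, 0, 0, 0, 0, 0, 0, 0, 0, 0, 0, 0, 0],
  [0, -5, -5, 4, 7, 0, 6, 1, 2, -6, 2, -3, -1, -3, 0],
  [0, -5, -5, 1, 4, 0, 3, 1, 2, -3, 2, 0, -1, 0, 0],
  [0, 4, 1, 1, -2, 0, -3, -2, -1, 0, -1, 0, 2, 0, 0],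
  [0, 7, 4, -2, -5, 0, -6, -2, -1, 3, -1, 0, 2, 0, 0],
  [0, 0, 0, 0, 0, -1, -1, 0, -1, 0, 1, 0, -1, 0, 2],
  [0, 6, 3, -3, -6, -1, -7, -3, -1, 6, -2, 3, 2, 3, -1],
  [0, 1, 1, -2, -2, 0, -3, 1, -1, 3, -1, 3, -1, 0, 0],
  [0, 2, 2, -1, -1, -1, -1, -1, 0, 0, -1, 0, 3, 0, -1],
  [0, -6, -3, 0, 3, 0, 6, 3, 0, 0, 0, 0, -3, 0, 0],
  [0, 2, 2, -1, -1, 1, -2, -1, -1, 0, 0, 0, -1, 0, 1],
  [0, -3, 0, 0, 0, 0, 3, 3, 0, 0, 0, 0, -3, 0, 0],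
  [0, -1, -1, 2, 2, -1, 2, -1, 3, -3, -1, -3, 3, 0, -1],
  [0, -3, 0, 0, 0, 0, 3, 0, 0, 0, 0, 0, 0, 0, 0],
  [0, 0, 0, 0, 0, 2, -1, 0, -1, 0, 1, 0, -1, 0, -1]]

theorem s5_15_sym : SymCert 15 5 (fun i j : Fin 15 => nb s5_15R i j) := by decide +kernel

theorem s5_15_ker : KerCert 15 (fun i j : Fin 15 => nb s5_15R i j) (fun i => s5_15X.getD i 0)
    (fun i j => lk s5_15Q i j) 1 0 := by decide +kernel

theorem s5_15 : SB 5 15 := by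
  refine ⟨_, _, semi_of_cert s5_15_sym s5_15_ker, ⟨⟨0, by norm_num⟩, ?_⟩,
    ⟨⟨2, by norm_num⟩, ?_⟩⟩
  · have h : nb s5_15R 0 0 = 0 := by decide +kernel
    exact_mod_cast h
  · have h : nb s5_15R 2 2 = 1 := by decide +kernel
    exact_mod_cast h

def s5_16R : List (List ℕ) := [[3, 6, 10, 14, 15],
  [1, 6, 8, 12, 14],
  [2, 3, 10, 11, 15],
  [0, 2, 3, 9, 14],
  [7, 8, 11, 12, 13],
  [5, 6, 9, 11, 15],
  [0, 1, 5, 6, 13],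
  [4, 7, 8, 10, 15],
  [1, 4, 7, 8, 12],
  [3, 5, 9, 12, 15],
  [0, 2, 7, 10, 14],
  [2, 4, 5, 11, 13],
  [1, 4, 8, 9, 12],
  [4, 6, 11, 13, 14],
  [0, 1, 3, 10, 13],
  [0, 2, 5, 7, 9]]

def s5_16X : List ℤ := [-2, 2, 1, -1, -1, -1, -1, 1, -1, 1, -1, -1, -1, 2, 1, 2]

def s5_16Q : List (List ℤ) := [[0, 0, 0, 0, 0, 0, 0, 0, 0, 0, 0, 0, 0, 0, 0, 0],
  [0, 24, 8, -24, -4, -24, -24, 8, -24, 8, -24, -4, -4, 24, 8, 44],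
  [0, 8, -19, -3, -3, 17, -23, 1, 7, 1, -3, 7, -13, -2, 21, -2],
  [0, -24, -3, 9, 9, 9, 29, -3, -1, -3, 29, -1, 19, -14, -23, -34],
  [0, -4, -3, 9, 9, 9, 9, -3, -1, -3, 9, -1, -1, -14, -3, -14],
  [0, -24, 17, 9, 9, -11, 29, -3, -1, -3, 9, -21, 19, 6, -23, -14],
  [0, -24, -23, 29, 9, 29, 9, -3, 19, -3, 29, 19, -1, -34, -3, -54],
  [0, 8, 1, -3, -3, -3, -3, 1, -13, 1, -3, 7, 7, -2, 1, -2],
  [0, -24, 7, -1, -1, -1, 19, -13, 9, 7, 19, -11, 9, 6, -13, -14],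
  [0, 8, 1, -3, -3, -3, -3, 1, 7, 1, -3, 7, -13, -2, 1, -2],
  [0, -24, -3, 29, 9, 9, 29, -3, 19, -3, 9, -1, -1, -14, -23, -34],
  [0, -4, 7, -1, -1, -21, 19, 7, -11, 7, -1, -11, 9, 6, -13, 6],
  [0, -4, -13, 19, -1, 19, -1, 7, 9, -13, -1, 9, -11, -14, 7, -14],
  [0, 24, -2, -14, -14, 6, -34, -2, 6, -2, -14, 6, -14, 4, 18, 24],
  [0, 8, 21, -23, -3, -23, -3, 1, -13, 1, -23, -13, 7, 18, 1, 38],
  [0, 44, -2, -34, -14, -14, -54, -2, -14, -2, -34, 6, -14, 24, 38, 64]]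

theorem s5_16_sym : SymCert 16 5 (fun i j : Fin 16 => nb s5_16R i j) := by decide +kernel

theorem s5_16_ker : KerCert 16 (fun i j : Fin 16 => nb s5_16R i j) (fun i => s5_16X.getD i 0)
    (fun i j => lk s5_16Q i j) 10 0 := by decide +kernel

theorem s5_16 : SB 5 16 := by
  refine ⟨_, _, semi_of_cert s5_16_sym s5_16_ker, ⟨⟨0, by norm_num⟩, ?_⟩,
    ⟨⟨1, by norm_num⟩, ?_⟩⟩
  · have h : nb s5_16R 0 0 = 0 := by decide +kernel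
    exact_mod_cast h
  · have h : nb s5_16R 1 1 = 1 := by decide +kernel
    exact_mod_cast h

def s5_17R : List (List ℕ) := [[2, 5, 10, 14, 15],
  [1, 7, 12, 13, 15],
  [0, 4, 6, 8, 11],
  [7, 8, 9, 13, 16],
  [2, 6, 9, 14, 16],
  [0, 7, 8, 9, 15],
  [2, 4, 9, 13, 16],
  [1, 3, 5, 10, 11],
  [2, 3, 5, 12, 13],
  [3, 4, 5, 6, 11],
  [0, 7, 11, 12, 16],
  [2, 7, 9, 10, 12],
  [1, 8, 10, 11, 12],
  [1, 3, 6, 8, 13],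
  [0, 4, 14, 15, 16],
  [0, 1, 5, 14, 15],
  [3, 4, 6, 10, 14]]

def s5_17X : List ℤ := [1, -1, -2, -1, -1, 1, 2, -2, -1, 1, 2, -1, 1, 1, -2, 1, 1]

def s5_17Q : List (List ℤ) := [[0, 0, 0, 0, 0, 0, 0, 0, 0, 0, 0, 0, 0, 0, 0, 0, 0],
  [0, -12, -8, -12, -12, 0, 16, -8, -12, 0, 16, 8, 0, 20, -8, 20, 0],
  [0, -8, 23, -13, -3, 0, 4, 13, 7, -25, 9, 12, -20, 10, 3, 5, -5],
  [0, -12, -13, -17, -7, 20, 16, -3, 3, -5, 21, -12, 0, 10, -13, 5, 15],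
  [0, -12, -3, -7, -17, 0, 16, -13, -7, 5, 11, 8, 0, 10, -3, 15, 5],
  [0, 0, 0, 20, 0, -20, -20, 0, 0, 20, -20, 20, 0, 0, 20, 0, -20],
  [0, 16, 4, 16, 16, -20, -28, 4, -4, 20, -28, 16, 0, 0, 24, -20, -20],
  [0, -8, 13, -3, -13, 0, 4, 3, -3, -15, 19, 12, -20, 10, -7, 15, 5],
  [0, -12, 7, 3, -7, 0, -4, -3, 3, -5, 1, 8, 0, 10, 7, 5, -5],
  [0, 0, -25, -5, 5, 20, 20, -15, -5, 15, 5, -20, 20, -10, -25, 5, 15],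
  [0, 16, 9, 21, 11, -20, -28, 19, 1, 5, -33, 16, 0, -10, 29, -25, -15],
  [0, 8, 12, -12, 8, 20, 16, 12, 8, -20, 16, -32, 0, -20, -28, 0, 20],
  [0, 0, -20, 0, 0, 0, 0, -20, 0, 20, 0, 0, 20, 0, 0, 0, 0],
  [0, 20, 10, 10, 10, 0, 0, 10, 10, -10, -10, -20, 0, -20, -10, -10, 10],
  [0, -8, 3, -13, -3, 20, 24, -7, 7, -25, 29, -28, 0, -10, -37, 25, 35],
  [0, 20, 5, 5, 15, 0, -20, 15, 5, 5, -25, 0, 0, -10, 25, -25, -15],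
  [0, 0, -5, 15, 5, -20, -20, 5, -5, 15, -15, 20, 0, 10, 35, -15, -25]]

theorem s5_17_sym : SymCert 17 5 (fun i j : Fin 17 => nb s5_17R i j) := by decide +kernel

theorem s5_17_ker : KerCert 17 (fun i j : Fin 17 => nb s5_17R i j) (fun i => s5_17X.getD i 0)
    (fun i j => lk s5_17Q i j) 20 0 := by decide +kernel

theorem s5_17 : SB 5 17 := by
  refine ⟨_, _, semi_of_cert s5_17_sym s5_17_ker, ⟨⟨0, by norm_num⟩, ?_⟩,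
    ⟨⟨1, by norm_num⟩, ?_⟩⟩
  · have h : nb s5_17R 0 0 = 0 := by decide +kernel
    exact_mod_cast h
  · have h : nb s5_17R 1 1 = 1 := by decide +kernel
    exact_mod_cast h

def s5_18R : List (List ℕ) := [[5, 6, 8, 11, 16],
  [6, 7, 8, 10, 13],
  [2, 3, 4, 7, 14],
  [2, 6, 12, 15, 17],
  [2, 4, 13, 14, 16],
  [0, 10, 11, 12, 16],
  [0, 1, 3, 6, 11],
  [1, 2, 7, 8, 12],
  [0, 1, 7, 9, 10],
  [8, 10, 13, 14, 15],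
  [1, 5, 8, 9, 14],
  [0, 5, 6, 14, 15],
  [3, 5, 7, 15, 17],
  [1, 4, 9, 13, 17],
  [2, 4, 9, 10, 11],
  [3, 9, 11, 12, 15],
  [0, 4, 5, 16, 17],
  [3, 12, 13, 16, 17]]

def s5_18X : List ℤ := [2, -2, 1, -1, -2, -1, -1, 1, 1, 1, -2, 2, -1, 1, 1, -1, -1, 2]

def s5_18Q : List (List ℤ) := [[0, 0, 0, 0, 0, 0, 0, 0, 0, 0, 0, 0, 0, 0, 0, 0, 0, 0],
  [0, -132, -58, -74, -32, -74, 106, 142, 102, 82, -92, 100, -54, 22, 22, -54, 46, 60],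
  [0, -58, -87, 29, 92, -111, 19, 73, 13, -17, 2, 10, 59, -107, 173, -81, -71, 90],
  [0, -74, 29, -103, -124, -243, 87, 69, 89, 99, -94, 90, -113, -151, 129, 27, 117, 250],
  [0, -32, 92, -124, -152, -124, -4, 132, 12, 92, -192, 160, -204, 52, 52, 76, 236, 40],
  [0, -74, -111, -243, -124, -103, -53, 209, -51, -41, -94, 370, 27, -11, 269, -113, -23, 250],
  [0, 106, 19, 87, -4, -53, 57, -61, 39, -51, 6, 30, -103, -41, -41, 37, 67, -10],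
  [0, 142, 73, 69, 132, 209, -61, -87, -27, -137, 82, -150, 179, 93, -187, 39, -111, -230],
  [0, 102, 13, 89, 12, -51, 39, -27, -47, 83, 122, -230, -41, -87, -87, 99, 149, -110],
  [0, 82, -17, 99, 92, -41, -51, -137, 83, -87, 142, -130, -11, -37, -37, 129, -1, -50],
  [0, -92, 2, -94, -192, -94, 6, 82, 122, 142, -132, 180, -114, -78, 202, -114, 66, 220],
  [0, 100, 10, 90, 160, 370, 30, -150, -230, -130, 180, -220, 270, 170, -110, -10, -230, -300],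
  [0, -54, 59, -113, -204, 27, -103, 179, -41, -11, -114, 270, -143, 79, 79, -3, -13, 190],
  [0, 22, -107, -151, 52, -11, -41, 93, -87, -37, -78, 170, 79, 113, 113, -61, -171, 130],
  [0, 22, 173, 129, 52, 269, -41, -187, -87, -37, 202, -110, 79, 113, -167, -61, -171, -150],
  [0, -54, -81, 27, 76, -113, 37, 39, 99, 129, -114, -10, -3, -61, -61, 137, 127, -90],
  [0, 46, -71, 117, 236, -23, 67, -111, 149, -1, 66, -230, -13, -171, -171, 127, 177, -110],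
  [0, 60, 90, 250, 40, 250, -10, -230, -110, -50, 220, -300, 190, 130, -150, -90, -110, -180]]

theorem s5_18_sym : SymCert 18 5 (fun i j : Fin 18 => nb s5_18R i j) := by decide +kernel

theorem s5_18_ker : KerCert 18 (fun i j : Fin 18 => nb s5_18R i j) (fun i => s5_18X.getD i 0)
    (fun i j => lk s5_18Q i j) 140 0 := by decide +kernel

theorem s5_18 : SB 5 18 := by
  refine ⟨_, _, semi_of_cert s5_18_sym s5_18_ker, ⟨⟨0, by norm_num⟩, ?_⟩,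
    ⟨⟨2, by norm_num⟩, ?_⟩⟩
  · have h : nb s5_18R 0 0 = 0 := by decide +kernel
    exact_mod_cast h
  · have h : nb s5_18R 2 2 = 1 := by decide +kernel
    exact_mod_cast h

def s5_19R : List (List ℕ) := [[1, 3, 15, 16, 17],
  [0, 2, 5, 9, 18],
  [1, 4, 6, 11, 12],
  [0, 9, 11, 13, 16],
  [2, 6, 11, 12, 15],
  [1, 13, 14, 16, 18],
  [2, 4, 14, 16, 17],
  [7, 9, 10, 14, 18],
  [10, 11, 13, 15, 18],
  [1, 3, 7, 9, 15],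
  [7, 8, 10, 12, 17],
  [2, 3, 4, 8, 11],
  [2, 4, 10, 17, 18],
  [3, 5, 8, 13, 16],
  [5, 6, 7, 14, 15],
  [0, 4, 8, 9, 14],
  [0, 3, 5, 6, 13],
  [0, 6, 10, 12, 17],
  [1, 5, 7, 8, 12]]

def s5_19X : List ℤ := [2, -2, -1, 1, 2, -1, -1, 2, -1, -2, -1, -1, 2, -1, -1, 1, 2, -2, 2]

def s5_19Q : List (List ℤ) := [[0, 0, 0, 0, 0, 0, 0, 0, 0, 0, 0, 0, 0, 0, 0, 0, 0, 0, 0],
  [0, -11, -17, 11, -5, 8, -7, -5, -2, 4, -27, 13, 10, -12, 3, 1, -5, 24, 25],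
  [0, -17, -24, 12, 15, 1, -4, 5, -9, -2, -24, 6, 20, -9, -4, 2, 5, 8, 25],
  [0, 11, 12, -16, -5, -3, 12, 5, 7, 6, 12, 2, -20, 7, -8, -6, 5, -4, -15],
  [0, -5, 15, -5, 5, -10, 5, 5, 0, 0, 5, -15, 10, 10, -5, 5, 5, -20, -5],
  [0, 8, 1, -3, -10, -9, 11, 0, 11, -2, -9, 1, -10, 1, 1, -3, 0, 8, 10],
  [0, -7, -4, 12, 5, 11, -24, -5, -19, -2, -4, 6, 20, 1, 16, 2, -5, 8, -5],
  [0, -5, 5, 5, 5, 0, -5, 5, -10, 0, 15, -5, 10, 0, 5, -5, 5, -20, -5],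
  [0, -2, -9, 7, 0, 11, -19, -10, -9, -2, 1, 11, 10, 1, 11, 7, -10, 8, 0],
  [0, 4, -2, 6, 0, -2, -2, 0, -2, 4, -2, -2, 0, -2, -2, 6, 0, 4, 0],
  [0, -27, -24, 12, 5, -9, -4, 15, 1, -2, -44, 6, 20, 1, -4, 2, -5, 28, 35],
  [0, 13, 6, 2, -15, 1, 6, -5, 11, -2, 6, 16, -20, -9, 6, -8, -5, 8, -5],
  [0, 10, 20, -20, 10, -10, 20, 10, 10, 0, 20, -20, -20, 10, -20, 0, 10, -20, -10],
  [0, -12, -9, 7, 10, 1, 1, 0, 1, -2, 1, -9, 10, -9, -9, 7, 20, -12, 10],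
  [0, 3, -4, -8, -5, 1, 16, 5, 11, -2, -4, 6, -20, -9, -4, 2, 5, 8, 5],
  [0, 1, 2, -6, 5, -3, 2, -5, 7, 6, 2, -8, 0, 7, 2, 4, -5, -4, -5],
  [0, -5, 5, 5, 5, 0, -5, 5, -10, 0, -5, -5, 10, 20, 5, -5, -15, 0, -5],
  [0, 24, 8, -4, -20, 8, 8, -20, 8, 4, 28, 8, -20, -12, 8, -4, 0, 4, -20],
  [0, 25, 25, -15, -5, 10, -5, -5, 0, 0, 35, -5, -10, 10, 5, -5, -5, -20, -35]]

theorem s5_19_sym : SymCert 19 5 (fun i j : Fin 19 => nb s5_19R i j) := by decide +kernel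

theorem s5_19_ker : KerCert 19 (fun i j : Fin 19 => nb s5_19R i j) (fun i => s5_19X.getD i 0)
    (fun i j => lk s5_19Q i j) 10 0 := by decide +kernel

theorem s5_19 : SB 5 19 := by
  refine ⟨_, _, semi_of_cert s5_19_sym s5_19_ker, ⟨⟨0, by norm_num⟩, ?_⟩,
    ⟨⟨7, by norm_num⟩, ?_⟩⟩
  · have h : nb s5_19R 0 0 = 0 := by decide +kernel
    exact_mod_cast h
  · have h : nb s5_19R 7 7 = 1 := by decide +kernel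
    exact_mod_cast h

def s5_20R : List (List ℕ) := [[1, 9, 12, 18, 19],
  [0, 5, 12, 16, 17],
  [4, 6, 12, 13, 17],
  [3, 4, 15, 18, 19],
  [2, 3, 4, 15, 16],
  [1, 5, 17, 18, 19],
  [2, 7, 8, 13, 18],
  [6, 10, 14, 15, 18],
  [6, 10, 11, 12, 16],
  [0, 9, 10, 14, 15],
  [7, 8, 9, 10, 16],
  [8, 11, 14, 17, 19],
  [0, 1, 2, 8, 19],
  [2, 6, 14, 15, 16],
  [7, 9, 11, 13, 14],
  [3, 4, 7, 9, 13],
  [1, 4, 8, 10, 13],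
  [1, 2, 5, 11, 17],
  [0, 3, 5, 6, 7],
  [0, 3, 5, 11, 12]]

def s5_20X : List ℤ := [-2, -2, 3, -2, 3, 3, -2, 3, -2, -2, 3, -2, 3, -2, 3, -2, -2, -2, -2, 3]

def s5_20Q : List (List ℤ) := [[0, 0, 0, 0, 0, 0, 0, 0, 0, 0, 0, 0, 0, 0, 0, 0, 0, 0, 0, 0],
  [0, 20, -18, 20, -34, -22, 4, -2, 8, 0, -10, 4, -2, 16, -18, 28, 4, 16, -4, -10],
  [0, -18, 15, -14, 25, 19, -2, -3, -6, 2, 9, -2, -3, -10, 13, -24, -2, -14, 4, 9],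
  [0, 20, -14, 20, -30, -22, 0, 2, 4, -4, -6, 0, 2, 12, -10, 20, 4, 16, -4, -10],
  [0, -34, 25, -30, 47, 37, 2, -9, -6, 10, 11, -2, -5, -18, 19, -40, -6, -26, 8, 15],
  [0, -22, 19, -22, 37, 23, -2, 1, -6, 2, 9, -2, 1, -18, 17, -28, -6, -18, 4, 9],
  [0, 4, -2, 0, 2, -2, 0, 2, 0, 0, -2, 0, 2, -4, 2, 0, 0, 0, 0, -2],
  [0, -2, -3, 2, -9, 1, 2, -5, 2, 2, -1, 2, -5, 10, -9, 8, 2, 2, -4, 3],
  [0, 8, -6, 4, -6, -6, 0, 2, 4, 0, -6, 0, 2, 0, -2, 8, 0, 4, 0, -6],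
  [0, 0, 2, -4, 10, 2, 0, 2, 0, 0, -2, 0, 2, -8, 6, -8, 0, -4, 4, -2],
  [0, -10, 9, -6, 11, 9, -2, -1, -6, -2, 7, -2, -1, -2, 7, -12, -2, -6, 0, 7],
  [0, 4, -2, 0, -2, -2, 0, 2, 0, 0, -2, 0, 2, 0, -2, 4, 0, 0, 0, -2],
  [0, -2, -3, 2, -5, 1, 2, -5, 2, 2, -1, 2, -5, 6, -5, 4, 2, 2, 0, -1],
  [0, 16, -10, 12, -18, -18, -4, 10, 0, -8, -2, 0, 6, 4, -6, 16, 0, 12, -4, -6],
  [0, -18, 13, -10, 19, 17, 2, -9, -2, 6, 7, -2, -5, -6, 7, -20, -2, -10, 4, 7],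
  [0, 28, -24, 20, -40, -28, 0, 8, 8, -8, -12, 4, 4, 16, -20, 40, 4, 20, -8, -12],
  [0, 4, -2, 4, -6, -6, 0, 2, 0, 0, -2, 0, 2, 0, -2, 4, 0, 4, 0, -2],
  [0, 16, -14, 16, -26, -18, 0, 2, 4, -4, -6, 0, 2, 12, -10, 20, 4, 12, -4, -6],
  [0, -4, 4, -4, 8, 4, 0, -4, 0, 4, 0, 0, 0, -4, 4, -8, 0, -4, 4, 0],
  [0, -10, 9, -10, 15, 9, -2, 3, -6, -2, 7, -2, -1, -6, 7, -12, -2, -6, 0, 7]]

theorem s5_20_sym : SymCert 20 5 (fun i j : Fin 20 => nb s5_20R i j) := by decide +kernel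

theorem s5_20_ker : KerCert 20 (fun i j : Fin 20 => nb s5_20R i j) (fun i => s5_20X.getD i 0)
    (fun i j => lk s5_20Q i j) 2 0 := by decide +kernel

theorem s5_20 : SB 5 20 := by
  refine ⟨_, _, semi_of_cert s5_20_sym s5_20_ker, ⟨⟨0, by norm_num⟩, ?_⟩,
    ⟨⟨3, by norm_num⟩, ?_⟩⟩
  · have h : nb s5_20R 0 0 = 0 := by decide +kernel
    exact_mod_cast h
  · have h : nb s5_20R 3 3 = 1 := by decide +kernel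
    exact_mod_cast h

end PolyNut
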