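import Pool.Agent.Helper82.Nut.Closure

/-! Explicit seeds with unit diagonal, row sums 5, the gadget with ten vertices, and two seeds of order 15. -/

namespace PolyNut

def u15R : List (List ℕ) := [[0, 3, 9, 10, 14],
  [1, 10, 11, 13, 14],
  [2, 4, 8, 9, 12],
  [0, 3, 4, 5, 13],
  [2, 3, 4, 10, 11],
  [3, 5, 7, 10, 14],
  [6, 7, 8, 9, 12],
  [5, 6, 7, 8, 9],
  [2, 6, 7, 8, 13],
  [0, 2, 6, 7, 9],
  [0, 1, 4, 5, 10],
  [1, 4, 11, 12, 13],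
  [2, 6, 11, 12, 14],
  [1, 3, 8, 11, 13],
  [0, 1, 5, 12, 14]]

def u15X : List ℤ := [3, -2, -2, -2, 3, -2, -2, 3, 3, -2, -2, 3, -2, -2, 3]

def u15Q : List (List ℤ) := [[0, 0, 0, 0, 0, 0, 0, 0, 0, 0, 0, 0, 0, 0, 0],
  [0, -3, 2, -2, -8, 4, -2, -4, -2, 4, 7, 1, 4, 6, -5],
  [0, 2, -2, 0, 10, -6, 0, 2, 4, 0, -6, -2, -6, -4, 10],
  [0, -2, 0, 2, -2, 2, 2, -4, -2, 2, 2, -2, 2, 4, -2],
  [0, -8, 10, -2, -24, 16, -8, -6, -6, 4, 16, 6, 16, 10, -24],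
  [0, 4, -6, 2, 16, -10, 2, 8, 4, -4, -10, -2, -10, -8, 16],
  [0, -2, 0, 2, -8, 2, 2, -4, -2, 2, 8, -2, 8, 4, -8],
  [0, -4, 2, -4, -6, 8, -4, 0, 0, 2, 2, 6, 2, 2, -6],
  [0, -2, 4, -2, -6, 4, -2, 0, 0, -2, 4, 0, 4, 4, -6],
  [0, 4, 0, 2, 4, -4, 2, 2, -2, 2, -4, -2, -4, -2, 4],
  [0, 7, -6, 2, 16, -10, 8, 2, 4, -4, -7, -5, -10, -8, 13],
  [0, 1, -2, -2, 6, -2, -2, 6, 0, -2, -5, 3, -2, -2, 3],
  [0, 4, -6, 2, 16, -10, 8, 2, 4, -4, -10, -2, -10, -8, 16],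
  [0, 6, -4, 4, 10, -8, 4, 2, 4, -2, -8, -2, -8, -6, 10],
  [0, -5, 10, -2, -24, 16, -8, -6, -6, 4, 13, 3, 16, 10, -21]]

theorem u15_sym : SymCert 15 5 (fun i j : Fin 15 => nb u15R i j) := by decide +kernel

theorem u15_ker : KerCert 15 (fun i j : Fin 15 => nb u15R i j) (fun i => u15X.getD i 0)
    (fun i j => lk u15Q i j) 2 0 := by decide +kernel

theorem u15 : SU 15 := by
  refine ⟨_, _, semi_of_cert u15_sym u15_ker, ?_, ⟨0, by norm_num⟩, ⟨14, by norm_num⟩,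
    by simp, ?_, ?_⟩
  · intro a
    have h : ∀ a : Fin 15, nb u15R a a = 1 := by decide +kernel
    exact_mod_cast h a
  · have h : nb u15R 0 14 = 1 := by decide +kernel
    exact_mod_cast h
  · have h : u15X.getD 0 0 = u15X.getD 14 0 := by decide +kernel
    exact_mod_cast h

def u17R : List (List ℕ) := [[0, 3, 5, 12, 14],
  [1, 9, 10, 12, 15],
  [2, 8, 9, 14, 16],
  [0, 3, 4, 7, 14],
  [3, 4, 7, 11, 15],
  [0, 5, 11, 13, 16],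
  [6, 8, 9, 10, 13],
  [3, 4, 7, 11, 14],
  [2, 6, 8, 11, 15],
  [1, 2, 6, 9, 12],
  [1, 6, 10, 13, 16],
  [4, 5, 7, 8, 11],
  [0, 1, 9, 12, 13],
  [5, 6, 10, 12, 13],
  [0, 2, 3, 7, 14],
  [1, 4, 8, 15, 16],
  [2, 5, 10, 15, 16]]

def u17X : List ℤ := [1, -1, 1, 1, 1, -2, -1, -1, 1, -1, 2, 1, 2, -1, -2, -2, 1]

def u17Q : List (List ℤ) := [[0, 0, 0, 0, 0, 0, 0, 0, 0, 0, 0, 0, 0, 0, 0, 0, 0],
  [0, 4, -10, 0, -10, 6, 4, 4, 0, 4, -2, 0, -2, -6, 6, 6, 0],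
  [0, -10, 0, -10, 0, -10, 0, 10, 0, 0, 0, 0, 10, 0, 0, 0, 10],
  [0, 0, -10, -25, 0, 10, 15, 15, -15, 10, -15, -10, -15, 5, 20, 20, -5],
  [0, -10, 0, 0, 0, -10, 0, 10, 0, 0, 0, 0, 10, 0, -10, 0, 10],
  [0, 6, -10, 10, -10, 14, 6, -4, 0, 6, -8, 0, -8, -4, 4, 4, 0],
  [0, 4, 0, 15, 0, 6, -1, -11, 5, 4, 3, 0, -7, -1, -4, -4, -5],
  [0, 4, 10, 15, 10, -4, -11, -21, 5, -6, 13, 10, 3, -1, -4, -14, -5],
  [0, 0, 0, -15, 0, 0, 5, 5, -5, 0, -5, 0, -5, 5, 10, 10, -5],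
  [0, 4, 0, 10, 0, 6, 4, -6, 0, 4, -2, 0, -2, -6, -4, -4, 0],
  [0, -2, 0, -15, 0, -8, 3, 13, -5, -2, 1, 0, 1, 3, 2, 2, 5],
  [0, 0, 0, -10, 0, 0, 0, 10, 0, 0, 0, 0, 0, 0, 0, 0, 0],
  [0, -2, 10, -15, 10, -8, -7, 3, -5, -2, 1, 0, 1, 13, 2, 2, -5],
  [0, -6, 0, 5, 0, -4, -1, -1, 5, -6, 3, 0, 13, -1, -4, -4, 5],
  [0, 6, 0, 20, -10, 4, -4, -4, 10, -4, 2, 0, 2, -4, -6, -6, 0],
  [0, 6, 0, 20, 0, 4, -4, -14, 10, -4, 2, 0, 2, -4, -6, -6, 0],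
  [0, 0, 10, -5, 10, 0, -5, -5, -5, 0, 5, 0, -5, 5, 0, 0, -5]]

theorem u17_sym : SymCert 17 5 (fun i j : Fin 17 => nb u17R i j) := by decide +kernel

theorem u17_ker : KerCert 17 (fun i j : Fin 17 => nb u17R i j) (fun i => u17X.getD i 0)
    (fun i j => lk u17Q i j) 10 0 := by decide +kernel

theorem u17 : SU 17 := by
  refine ⟨_, _, semi_of_cert u17_sym u17_ker, ?_, ⟨0, by norm_num⟩, ⟨3, by norm_num⟩,
    by simp, ?_, ?_⟩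
  · intro a
    have h : ∀ a : Fin 17, nb u17R a a = 1 := by decide +kernel
    exact_mod_cast h a
  · have h : nb u17R 0 3 = 1 := by decide +kernel
    exact_mod_cast h
  · have h : u17X.getD 0 0 = u17X.getD 3 0 := by decide +kernel
    exact_mod_cast h

def u19R : List (List ℕ) := [[0, 4, 6, 9, 11],
  [1, 2, 9, 11, 12],
  [1, 2, 4, 15, 16],
  [3, 7, 10, 15, 17],
  [0, 2, 4, 15, 16],
  [5, 7, 14, 16, 18],
  [0, 6, 8, 14, 18],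
  [3, 5, 7, 9, 17],
  [6, 8, 13, 14, 18],
  [0, 1, 7, 9, 13],
  [3, 10, 11, 12, 18],
  [0, 1, 10, 11, 13],
  [1, 10, 12, 14, 15],
  [8, 9, 11, 13, 17],
  [5, 6, 8, 12, 14],
  [2, 3, 4, 12, 15],
  [2, 4, 5, 16, 17],
  [3, 7, 13, 16, 17],
  [5, 6, 8, 10, 18]]

def u19X : List ℤ := [1, 1, -2, -2, -2, 2, 2, -1, -3, -2, -4, 1, 2, 1, -3, 4, -1, 3, 3]

def u19Q : List (List ℤ) := [[0, 0, 0, 0, 0, 0, 0, 0, 0, 0, 0, 0, 0, 0, 0, 0, 0, 0, 0],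
  [0, 0, 10, 0, -10, 0, 0, 0, 0, 0, 0, 0, 0, 0, 0, 0, 0, 0, 0],
  [0, 10, -18, -8, 2, 6, 16, -2, -14, -8, -20, 10, 6, 0, -14, 18, -2, 12, 12],
  [0, 0, -8, -13, 2, 1, 16, 8, -14, -8, -10, 10, 6, 0, -9, 13, -7, 12, 7],
  [0, -10, 2, 2, 2, -4, 6, -2, -4, 12, 10, 0, -4, 0, 6, -2, 8, -8, -8],
  [0, 0, 6, 1, -4, 3, -12, 4, 8, -4, 0, 0, -2, 0, 3, -1, -1, -4, 1],
  [0, 0, 16, 16, 6, -12, -22, 4, 28, 6, 20, -10, -12, -10, 18, -26, 4, -14, -14],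
  [0, 0, -2, 8, -2, 4, 4, -8, -6, 8, 0, 0, -6, 0, 4, 2, 2, -2, -2],
  [0, 0, -14, -14, -4, 8, 28, -6, -32, -4, -20, 10, 8, 10, -12, 24, -6, 16, 16],
  [0, 0, -8, -8, 12, -4, 6, 8, -4, 2, 0, 0, 6, 0, -4, -2, -2, 2, 2],
  [0, 0, -20, -10, 10, 0, 20, 0, -20, 0, -10, 10, 10, 0, -10, 10, 0, 10, 10],
  [0, 0, 10, 10, 0, 0, -10, 0, 10, 0, 10, 0, -10, 0, 10, -10, 0, -10, -10],
  [0, 0, 6, 6, -4, -2, -12, -6, 8, 6, 10, -10, -2, 0, 8, -6, 4, -4, -4],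
  [0, 0, 0, 0, 0, 0, -10, 0, 10, 0, 0, 0, 0, 0, 0, 0, 0, 0, 0],
  [0, 0, -14, -9, 6, 3, 18, 4, -12, -4, -10, 10, 8, 0, -7, 9, -1, 6, 1],
  [0, 0, 18, 13, -2, -1, -26, 2, 24, -2, 10, -10, -6, 0, 9, -13, -3, -12, -7],
  [0, 0, -2, -7, 8, -1, 4, 2, -6, -2, 0, 0, 4, 0, -1, -3, -3, 8, 3],
  [0, 0, 12, 12, -8, -4, -14, -2, 16, 2, 10, -10, -4, 0, 6, -12, 8, -8, -8],
  [0, 0, 12, 7, -8, 1, -14, -2, 16, 2, 10, -10, -4, 0, 1, -7, 3, -8, -3]]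

theorem u19_sym : SymCert 19 5 (fun i j : Fin 19 => nb u19R i j) := by decide +kernel

theorem u19_ker : KerCert 19 (fun i j : Fin 19 => nb u19R i j) (fun i => u19X.getD i 0)
    (fun i j => lk u19Q i j) 10 0 := by decide +kernel

theorem u19 : SU 19 := by
  refine ⟨_, _, semi_of_cert u19_sym u19_ker, ?_, ⟨0, by norm_num⟩, ⟨11, by norm_num⟩,
    by simp, ?_, ?_⟩
  · intro a
    have h : ∀ a : Fin 19, nb u19R a a = 1 := by decide +kernel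
    exact_mod_cast h a
  · have h : nb u19R 0 11 = 1 := by decide +kernel
    exact_mod_cast h
  · have h : u19X.getD 0 0 = u19X.getD 11 0 := by decide +kernel
    exact_mod_cast h

def u21R : List (List ℕ) := [[0, 4, 7, 16, 20],
  [1, 4, 12, 17, 20],
  [2, 7, 10, 12, 16],
  [3, 6, 14, 17, 18],
  [0, 1, 4, 9, 14],
  [5, 7, 14, 18, 19],
  [3, 6, 8, 10, 13],
  [0, 2, 5, 7, 13],
  [6, 8, 10, 11, 12],
  [4, 9, 10, 11, 18],
  [2, 6, 8, 9, 10],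
  [8, 9, 11, 15, 19],
  [1, 2, 8, 12, 14],
  [6, 7, 13, 17, 19],
  [3, 4, 5, 12, 14],
  [11, 15, 16, 17, 20],
  [0, 2, 15, 16, 18],
  [1, 3, 13, 15, 17],
  [3, 5, 9, 16, 18],
  [5, 11, 13, 19, 20],
  [0, 1, 15, 19, 20]]

def u21X : List ℤ := [-1, -1, -1, -1, -1, -1, 1, 1, -1, 2, -1, -1, 2, 2, 1, 2, -1, -2, 1, -2, 2]

def u21Q : List (List ℤ) := [[0, 0, 0, 0, 0, 0, 0, 0, 0, 0, 0, 0, 0, 0, 0, 0, 0, 0, 0, 0, 0],
  [0, 75, 60, 60, 60, 30, 15, 0, 15, -90, 0, 75, -105, -90, -45, -60, 45, 15, -45, 60, -75],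
  [0, 60, 40, 35, 60, 35, 15, -5, 30, -75, -10, 50, -85, -70, -45, -45, 30, 20, -25, 40, -55],
  [0, 60, 35, 25, 60, 40, 0, -10, 30, -75, 10, 40, -80, -65, -45, -45, 45, 25, -35, 50, -65],
  [0, 60, 60, 60, 60, 30, 0, 0, 30, -90, 0, 60, -90, -90, -60, -60, 30, 30, -30, 60, -60],
  [0, 30, 35, 40, 30, -5, 15, 5, 0, -30, -20, 40, -35, -35, -30, -30, 15, -5, -20, 20, -20],
  [0, 15, 15, 0, 0, 15, 6, -9, -15, -6, 0, 15, -6, -21, -9, -6, 0, 12, -9, 12, -21],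
  [0, 0, -5, -10, 0, 5, -9, -29, 0, -6, 20, -10, -1, -1, 6, -6, 15, 17, -4, 22, -16],
  [0, 15, 30, 30, 30, 0, -15, 0, 15, -30, 0, 15, -45, -30, -15, -30, 15, 15, -15, 30, -15],
  [0, -90, -75, -75, -90, -30, -6, -6, -30, 111, 0, -90, 126, 111, 69, 81, -45, -27, 39, -72, 81],
  [0, 0, -10, 10, 0, -20, 0, 20, 0, 0, -20, 10, 10, 10, 0, 0, 0, -20, 10, -10, 10],
  [0, 75, 50, 40, 60, 40, 15, -10, 15, -90, 10, 55, -95, -80, -45, -60, 45, 25, -35, 50, -65],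
  [0, -105, -85, -80, -90, -35, -6, -1, -45, 126, 10, -95, 136, 121, 69, 96, -60, -32, 49, -82, 91],
  [0, -90, -70, -65, -90, -35, -21, -1, -30, 111, 10, -80, 121, 106, 69, 81, -60, -32, 49, -82, 91],
  [0, -45, -45, -45, -60, -30, -9, 6, -15, 69, 0, -45, 69, 69, 36, 39, -30, -18, 36, -48, 54],
  [0, -60, -45, -45, -60, -30, -6, -6, -30, 81, 0, -60, 96, 81, 39, 51, -45, -27, 39, -42, 51],
  [0, 45, 30, 45, 30, 15, 0, 15, 15, -45, 0, 45, -60, -60, -30, -45, 15, 15, -30, 30, -30],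
  [0, 15, 20, 25, 30, -5, 12, 17, 15, -27, -20, 25, -32, -32, -18, -27, 15, -11, -8, 14, -2],
  [0, -45, -25, -35, -30, -20, -9, -4, -15, 39, 10, -35, 49, 49, 36, 39, -30, -8, 16, -28, 34],
  [0, 60, 40, 50, 60, 20, 12, 22, 30, -72, -10, 50, -82, -82, -48, -42, 30, 14, -28, 34, -52],
  [0, -75, -55, -65, -60, -20, -21, -16, -15, 81, 10, -65, 91, 91, 54, 51, -30, -2, 34, -52, 46]]

theorem u21_sym : SymCert 21 5 (fun i j : Fin 21 => nb u21R i j) := by decide +kernel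

theorem u21_ker : KerCert 21 (fun i j : Fin 21 => nb u21R i j) (fun i => u21X.getD i 0)
    (fun i j => lk u21Q i j) 30 0 := by decide +kernel

theorem u21 : SU 21 := by
  refine ⟨_, _, semi_of_cert u21_sym u21_ker, ?_, ⟨0, by norm_num⟩, ⟨4, by norm_num⟩,
    by simp, ?_, ?_⟩
  · intro a
    have h : ∀ a : Fin 21, nb u21R a a = 1 := by decide +kernel
    exact_mod_cast h a
  · have h : nb u21R 0 4 = 1 := by decide +kernel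
    exact_mod_cast h
  · have h : u21X.getD 0 0 = u21X.getD 4 0 := by decide +kernel
    exact_mod_cast h

def u23R : List (List ℕ) := [[0, 14, 15, 17, 20],
  [1, 2, 7, 9, 12],
  [1, 2, 3, 8, 18],
  [2, 3, 9, 13, 18],
  [4, 10, 11, 13, 21],
  [5, 10, 13, 17, 19],
  [6, 7, 18, 19, 21],
  [1, 6, 7, 14, 22],
  [2, 8, 12, 15, 16],
  [1, 3, 9, 16, 19],
  [4, 5, 10, 11, 12],
  [4, 10, 11, 17, 22],
  [1, 8, 10, 12, 15],
  [3, 4, 5, 13, 16],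
  [0, 7, 14, 15, 20],
  [0, 8, 12, 14, 15],
  [8, 9, 13, 16, 17],
  [0, 5, 11, 16, 17],
  [2, 3, 6, 18, 19],
  [5, 6, 9, 18, 19],
  [0, 14, 20, 21, 22],
  [4, 6, 20, 21, 22],
  [7, 11, 20, 21, 22]]

def u23X : List ℤ := [1, 2, -1, -3, 1, -2, -1, -1, -1, -2, -2, 1, 2, 3, -1, -1, 1, -1, 3, 2, 2, -3, 1]

def u23Q : List (List ℤ) := [[0, 0, 0, 0, 0, 0, 0, 0, 0, 0, 0, 0, 0, 0, 0, 0, 0, 0, 0, 0, 0, 0, 0],
  [0, -426, 252, 564, -170, 388, 212, 292, 282, 428, 468, -250, -436, -572, 42, 112, -210, 72, -672, -356, -446, 524, -120],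
  [0, 252, -84, -298, 130, -166, -144, -134, -94, -216, -266, 120, 182, 264, -14, -74, 70, -24, 334, 192, 222, -248, 40],
  [0, 564, -298, -701, 215, -492, -283, -368, -433, -507, -632, 300, 609, 748, -68, -108, 230, -38, 868, 414, 544, -631, 155],
  [0, -170, 130, 215, -65, 160, 105, 100, 135, 185, 210, -60, -245, -220, 40, 70, -90, -10, -310, -140, -210, 245, -75],
  [0, 388, -166, -492, 160, -294, -206, -236, -246, -364, -434, 190, 378, 506, -46, -86, 120, -16, 516, 348, 368, -422, 100],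
  [0, 212, -144, -283, 105, -206, -129, -104, -169, -221, -236, 80, 257, 264, -24, -64, 120, 6, 384, 172, 192, -213, 45],
  [0, 292, -134, -368, 100, -236, -104, -164, -184, -266, -296, 160, 272, 374, -4, -84, 130, -54, 394, 212, 252, -338, 90],
  [0, 282, -94, -433, 135, -246, -169, -184, -189, -281, -316, 150, 277, 374, -34, -54, 170, -74, 434, 262, 272, -343, 105],
  [0, 428, -216, -507, 185, -364, -221, -266, -281, -359, -464, 230, 413, 506, -36, -96, 180, -46, 576, 368, 398, -457, 95],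
  [0, 468, -266, -632, 210, -434, -236, -296, -316, -464, -494, 270, 558, 616, -26, -216, 240, -76, 746, 388, 538, -602, 90],
  [0, -250, 120, 300, -60, 190, 80, 160, 150, 230, 270, -140, -260, -330, 20, 90, -100, 50, -320, -180, -270, 260, -10],
  [0, -436, 182, 609, -245, 378, 257, 272, 277, 413, 558, -260, -431, -572, 12, 142, -170, 52, -632, -416, -426, 519, -105],
  [0, -572, 264, 748, -220, 506, 264, 374, 374, 506, 616, -330, -572, -704, 44, 154, -220, 44, -814, -462, -572, 638, -110],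
  [0, 42, -14, -68, 40, -46, -24, -4, -34, -36, -26, 20, 12, 44, 16, 6, 30, -4, 74, 32, 92, -78, -30],
  [0, 112, -74, -108, 70, -86, -64, -84, -54, -96, -216, 90, 142, 154, 6, 16, -30, 26, 124, 122, 62, -98, 30],
  [0, -210, 70, 230, -90, 120, 120, 130, 170, 180, 240, -100, -170, -220, 30, -30, -40, 20, -260, -160, -130, 170, -70],
  [0, 72, -24, -38, -10, -16, 6, -54, -74, -46, -76, 50, 52, 44, -4, 26, 20, 56, 64, -8, 32, -8, -20],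
  [0, -672, 334, 868, -310, 516, 384, 394, 434, 576, 746, -320, -632, -814, 74, 124, -260, 64, -964, -512, -592, 698, -180],
  [0, -356, 192, 414, -140, 348, 172, 212, 262, 368, 388, -180, -416, -462, 32, 122, -160, -8, -512, -266, -366, 394, -60],
  [0, -446, 222, 544, -210, 368, 192, 252, 272, 398, 538, -270, -426, -572, 92, 62, -130, 32, -592, -366, -406, 514, -90],
  [0, 524, -248, -631, 245, -422, -213, -338, -343, -457, -602, 260, 519, 638, -78, -98, 170, -8, 698, 394, 514, -541, 105],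
  [0, -120, 40, 155, -75, 100, 45, 90, 105, 95, 90, -10, -105, -110, -30, 30, -70, -20, -180, -60, -90, 105, 15]]

theorem u23_sym : SymCert 23 5 (fun i j : Fin 23 => nb u23R i j) := by decide +kernel

theorem u23_ker : KerCert 23 (fun i j : Fin 23 => nb u23R i j) (fun i => u23X.getD i 0)
    (fun i j => lk u23Q i j) 110 0 := by decide +kernel

theorem u23 : SU 23 := by
  refine ⟨_, _, semi_of_cert u23_sym u23_ker, ?_, ⟨1, by norm_num⟩, ⟨12, by norm_num⟩,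
    by simp, ?_, ?_⟩
  · intro a
    have h : ∀ a : Fin 23, nb u23R a a = 1 := by decide +kernel
    exact_mod_cast h a
  · have h : nb u23R 1 12 = 1 := by decide +kernel
    exact_mod_cast h
  · have h : u23X.getD 1 0 = u23X.getD 12 0 := by decide +kernel
    exact_mod_cast h

def kR : List (List ℕ) := [[0, 5, 6, 8, 9],
  [1, 3, 4, 7, 8],
  [2, 3, 5, 6, 9],
  [1, 2, 3, 5, 8],
  [1, 4, 6, 7, 8],
  [0, 2, 3, 5, 9],
  [0, 2, 4, 6, 7],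
  [1, 4, 6, 7, 9],
  [0, 1, 3, 4, 8],
  [0, 2, 5, 7, 9]]

def kY : List ℤ := [2, 2, -2, 2, -4, 0, 2, 2, -2, -2]

def kZ : List ℤ := [0, 0, -1, 0, 1, 2, 0, 0, -1, -1]

def kQ : List (List ℤ) := [[0, 0, 0, 0, 0, 0, 0, 0, 0, 0],
  [-2, -2, 0, 0, 4, 2, -2, 0, 0, 0],
  [0, -1, -1, 1, 0, 1, 1, 0, 0, 0],
  [0, 2, 2, 0, -2, -2, 0, 0, 0, 0],
  [0, -1, -1, -1, 0, 1, 1, 0, 2, 0],
  [0, 0, 0, 0, 0, 0, 0, 0, 0, 0],
  [0, 0, 2, 0, 0, -2, 0, 0, 0, 0],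
  [0, 2, 0, 0, 0, 0, 0, 0, -2, 0],
  [2, 1, -1, 1, -2, -1, 1, 0, 0, 0],
  [0, -1, -1, -1, 2, 3, -1, 0, 0, 0]]

/- s = 2, D = 1 -/

theorem k_sym : SymCert 10 5 (fun i j : Fin 10 => nb kR i j) := by decide +kernel

theorem k_ker : GadCert 10 (fun i j : Fin 10 => nb kR i j) (fun i => kY.getD i 0) (fun i => kZ.getD i 0)
    (fun i j => lk kQ i j) 1 2 0 5 := by decide +kernel

def g6_15R : List (List ℕ) := [[6, 7, 8, 11, 12, 14],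
  [3, 4, 5, 6, 7, 9],
  [3, 4, 5, 6, 9, 10],
  [1, 2, 7, 8, 12, 14],
  [1, 2, 7, 8, 10, 13],
  [1, 2, 6, 7, 10, 11],
  [0, 1, 2, 5, 9, 13],
  [0, 1, 3, 4, 5, 13],
  [0, 3, 4, 9, 12, 14],
  [1, 2, 6, 8, 10, 14],
  [2, 4, 5, 9, 11, 13],
  [0, 5, 10, 12, 13, 14],
  [0, 3, 8, 11, 13, 14],
  [4, 6, 7, 10, 11, 12],
  [0, 3, 8, 9, 11, 12]]

def g6_15X : List ℤ := [1, 1, -2, -2, 1, 1, -2, 1, 1, 1, 1, 1, -2, -2, 1]

def g6_15Q : List (List ℤ) := [[0, 0, 0, 0, 0, 0, 0, 0, 0, 0, 0, 0, 0, 0, 0],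
  [0, -36, 54, 36, -12, -12, 36, -12, -12, -30, -18, -24, 30, 24, -24],
  [0, 54, -85, -55, 18, 22, -55, 22, 20, 48, 28, 36, -49, -39, 38],
  [0, 36, -55, -37, 12, 16, -37, 16, 14, 30, 16, 24, -31, -27, 26],
  [0, -12, 18, 12, -3, -6, 9, -3, -3, -9, -3, -9, 9, 9, -9],
  [0, -12, 22, 16, -6, -4, 10, -4, -8, -12, -4, -6, 10, 6, -8],
  [0, 36, -55, -37, 9, 10, -28, 13, 11, 33, 13, 21, -28, -18, 23],
  [0, -12, 22, 16, -3, -4, 13, -7, -5, -15, -7, -9, 13, 9, -11],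
  [0, -12, 20, 14, -3, -8, 11, -5, -7, -9, -5, -9, 11, 9, -7],
  [0, -30, 48, 30, -9, -12, 33, -15, -9, -27, -15, -21, 27, 21, -21],
  [0, -18, 28, 16, -3, -4, 13, -7, -5, -15, -7, -9, 13, 9, -11],
  [0, -24, 36, 24, -9, -6, 21, -9, -9, -21, -9, -15, 21, 15, -15],
  [0, 30, -49, -31, 9, 10, -28, 13, 11, 27, 13, 21, -28, -18, 23],
  [0, 24, -39, -27, 9, 6, -18, 9, 9, 21, 9, 15, -18, -12, 15],
  [0, -24, 38, 26, -9, -8, 23, -11, -7, -21, -11, -15, 23, 15, -19]]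

theorem g6_15_sym : SymCert 15 6 (fun i j : Fin 15 => nb g6_15R i j) := by decide +kernel

theorem g6_15_ker : KerCert 15 (fun i j : Fin 15 => nb g6_15R i j) (fun i => g6_15X.getD i 0)
    (fun i j => lk g6_15Q i j) 6 0 := by decide +kernel

theorem g6_15 : SG 6 15 := by
  refine ⟨_, _, semi_of_cert g6_15_sym g6_15_ker, fun a => ?_⟩
  have h : ∀ a : Fin 15, nb g6_15R a a = 0 := by decide +kernel
  have := h a
  exact_mod_cast this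

def g8_15R : List (List ℕ) := [[3, 6, 8, 9, 10, 12, 13, 14],
  [5, 6, 7, 8, 10, 11, 12, 13],
  [3, 5, 6, 7, 9, 12, 13, 14],
  [0, 2, 4, 5, 9, 10, 12, 13],
  [3, 5, 7, 8, 11, 12, 13, 14],
  [1, 2, 3, 4, 6, 7, 11, 14],
  [0, 1, 2, 5, 7, 10, 13, 14],
  [1, 2, 4, 5, 6, 8, 9, 13],
  [0, 1, 4, 7, 9, 10, 11, 12],
  [0, 2, 3, 7, 8, 10, 11, 14],
  [0, 1, 3, 6, 8, 9, 11, 14],
  [1, 4, 5, 8, 9, 10, 12, 14],
  [0, 1, 2, 3, 4, 8, 11, 13],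
  [0, 1, 2, 3, 4, 6, 7, 12],
  [0, 2, 4, 5, 6, 9, 10, 11]]

def g8_15X : List ℤ := [2, -2, -2, -2, 3, -1, 1, 1, 1, -1, -1, -1, -1, 1, 2]

def g8_15Q : List (List ℤ) := [[0, 0, 0, 0, 0, 0, 0, 0, 0, 0, 0, 0, 0, 0, 0],
  [0, -4, -8, -8, 4, -12, 16, -4, 4, -12, 12, 0, 4, 12, 4],
  [0, -8, -32, 32, 20, 4, 4, 12, -4, 4, 20, -20, -28, 12, -8],
  [0, -8, 32, -32, -12, -28, 4, -20, -4, 4, -12, 12, 36, 12, 24],
  [0, 4, 20, -12, -17, 19, -15, 1, 1, 3, -29, 19, 19, -15, 0],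
  [0, -12, 4, -28, 19, -25, 13, -3, -3, -9, -9, 7, 7, 13, 32],
  [0, 16, 4, 4, -15, 13, -5, -1, -9, -3, 5, 1, -3, -1, -4],
  [0, -4, 12, -20, 1, -3, -1, 15, 15, 13, -19, -3, -3, -1, 0],
  [0, 4, -4, -4, 1, -3, -9, 15, -1, 13, -3, 5, -3, -1, -8],
  [0, -12, 4, 4, 3, -9, -3, 13, 13, 7, 7, -9, -9, -3, 0],
  [0, 12, 20, -12, -29, -9, 5, -19, -3, 7, -9, 15, 23, -3, 8],
  [0, 0, -20, 12, 19, 7, 1, -3, 5, -9, 15, -13, -9, -3, 4],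
  [0, 4, -28, 36, 19, 7, -3, -3, -3, -9, 23, -9, -25, 13, -16],
  [0, 12, 12, 12, -15, 13, -1, -1, -1, -3, -3, -3, 13, -17, -16],
  [0, 4, -8, 24, 0, 32, -4, 0, -8, 0, 8, 4, -16, -16, -20]]

theorem g8_15_sym : SymCert 15 8 (fun i j : Fin 15 => nb g8_15R i j) := by decide +kernel

theorem g8_15_ker : KerCert 15 (fun i j : Fin 15 => nb g8_15R i j) (fun i => g8_15X.getD i 0)
    (fun i j => lk g8_15Q i j) 16 0 := by decide +kernel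

theorem g8_15 : SG 8 15 := by
  refine ⟨_, _, semi_of_cert g8_15_sym g8_15_ker, fun a => ?_⟩
  have h : ∀ a : Fin 15, nb g8_15R a a = 0 := by decide +kernel
  have := h a
  exact_mod_cast this

end PolyNut
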