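import Pool.Agent.Helper82.Nut.SeedsFour
import Pool.Agent.Helper82.Nut.SeedsFive
import Pool.Agent.Helper82.Nut.SeedsUnit
import Pool.Agent.Helper82.Nut.Quartic

/-!
For every `d ≥ 3` and every `ℓ` with `(d + 11)² ≤ 2 ℓ` the set `𝔑^d_ℓ` is determined.
-/

namespace PolyNut

theorem SB.fowler_iter {d N : ℕ} (h : SB d N) (hd : 2 ≤ d) (k : ℕ) : SB d (N + 2 * d * k) := by
  induction k with
  | zero => simpa using h
  | succ k ih =>
    have := ih.fowler hd
    have e : N + 2 * d * (k + 1) = N + 2 * d * k + 2 * d := by ring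
    rw [e]; exact this

theorem sb4 {m : ℕ} (h : 10 ≤ m) : SB 4 m := by
  have key : ∀ s : ℕ, SB 4 s → s ≤ m → m % 8 = s % 8 → SB 4 m := by
    intro s hs hle hmod
    have := hs.fowler_iter (by norm_num) ((m - s) / 8)
    have e : s + 2 * 4 * ((m - s) / 8) = m := by omega
    rwa [e] at this
  have h8 : m % 8 = 0 ∨ m % 8 = 1 ∨ m % 8 = 2 ∨ m % 8 = 3 ∨ m % 8 = 4 ∨ m % 8 = 5 ∨
    m % 8 = 6 ∨ m % 8 = 7 := by omega
  rcases h8 with h8 | h8 | h8 | h8 | h8 | h8 | h8 | h8
  · exact key 16 s4_16 (by omega) (by omega)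
  · exact key 17 s4_17 (by omega) (by omega)
  · exact key 10 s4_10 (by omega) (by omega)
  · exact key 11 s4_11 (by omega) (by omega)
  · exact key 12 s4_12 (by omega) (by omega)
  · exact key 13 s4_13 (by omega) (by omega)
  · exact key 14 s4_14 (by omega) (by omega)
  · exact key 15 s4_15 (by omega) (by omega)

theorem sb5 {m : ℕ} (h : 11 ≤ m) : SB 5 m := by
  have key : ∀ s : ℕ, SB 5 s → s ≤ m → m % 10 = s % 10 → SB 5 m := by
    intro s hs hle hmod
    have := hs.fowler_iter (by norm_num) ((m - s) / 10)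
    have e : s + 2 * 5 * ((m - s) / 10) = m := by omega
    rwa [e] at this
  have h8 : m % 10 = 0 ∨ m % 10 = 1 ∨ m % 10 = 2 ∨ m % 10 = 3 ∨ m % 10 = 4 ∨ m % 10 = 5 ∨
    m % 10 = 6 ∨ m % 10 = 7 ∨ m % 10 = 8 ∨ m % 10 = 9 := by omega
  rcases h8 with h8 | h8 | h8 | h8 | h8 | h8 | h8 | h8 | h8 | h8
  · exact key 20 s5_20 (by omega) (by omega)
  · exact key 11 s5_11 (by omega) (by omega)
  · exact key 12 s5_12 (by omega) (by omega)
  · exact key 13 s5_13 (by omega) (by omega)
  · exact key 14 s5_14 (by omega) (by omega)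
  · exact key 15 s5_15 (by omega) (by omega)
  · exact key 16 s5_16 (by omega) (by omega)
  · exact key 17 s5_17 (by omega) (by omega)
  · exact key 18 s5_18 (by omega) (by omega)
  · exact key 19 s5_19 (by omega) (by omega)

theorem su_odd {m : ℕ} (h : 15 ≤ m) (ho : m % 2 = 1) : SU m := by
  have iter : ∀ (s k : ℕ), SU s → SU (s + 10 * k) := by
    intro s k hs
    induction k with
    | zero => simpa using hs
    | succ k ih =>
      have := SU.step k_sym k_ker ih
      have e : s + 10 * (k + 1) = s + 10 * k + 10 := by ring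
      rw [e]; exact this
  have key : ∀ s : ℕ, SU s → s ≤ m → m % 10 = s % 10 → SU m := by
    intro s hs hle hmod
    have := iter s ((m - s) / 10) hs
    have e : s + 10 * ((m - s) / 10) = m := by omega
    rwa [e] at this
  have h8 : m % 10 = 1 ∨ m % 10 = 3 ∨ m % 10 = 5 ∨ m % 10 = 7 ∨ m % 10 = 9 := by omega
  rcases h8 with h8 | h8 | h8 | h8 | h8
  · exact key 21 u21 (by omega) (by omega)
  · exact key 23 u23 (by omega) (by omega)
  · exact key 15 u15 (by omega) (by omega)
  · exact key 17 u17 (by omega) (by omega)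
  · exact key 19 u19 (by omega) (by omega)

theorem sb_add_four {d : ℕ} (hd : 6 ≤ d) : SB d (d + 4) := by
  have := (sb4 (m := d + 4) (by omega)).compl (by norm_num) (by omega)
  have e : d + 4 - 4 = d := by omega
  rwa [e] at this

theorem sb_add_five {d : ℕ} (hd : 6 ≤ d) : SB d (d + 5) := by
  have := (sb5 (m := d + 5) (by omega)).compl (by norm_num) (by omega)
  have e : d + 5 - 5 = d := by omega
  rwa [e] at this

theorem sg_add_five {d : ℕ} (hd : 10 ≤ d) (he : d % 2 = 0) : SG d (d + 5) := by
  have := (su_odd (m := d + 5) (by omega) (by omega)).toSG (by omega)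
  have e : d + 5 - 5 = d := by omega
  rwa [e] at this

/-- The two-lift of a semi-edge nut matrix is a nut graph. -/
theorem SB.double {d N : ℕ} (h : SB d N) (hN : 2 ≤ N) (hd : 3 ≤ d) : SG d (2 * N) :=
  (card_lt_of_mem_orders (h.sa.even_mem hN hd (n := 2) (by norm_num) (by decide))).1

theorem SG.double {d N : ℕ} (h : SG d N) (hN : 2 ≤ N) (hd : 3 ≤ d) : SG d (2 * N) :=
  (card_lt_of_mem_orders (h.sa.even_mem hN hd (n := 2) (by norm_num) (by decide))).1

/-- Numerical semigroup generated by `d`, `d + 4`, `d + 5`. -/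
theorem frob {d k : ℕ} (hd : 1 ≤ d) (hk : (d + 4) * (d + 11) ≤ 4 * k) :
    ∃ a b c, k = a * (d + 4) + b * (d + 5) + c * d := by
  obtain ⟨j, r, hjr, hr1, hr2⟩ : ∃ j r, k = j * d + r ∧ 12 ≤ r ∧ r ≤ d + 11 := by
    refine ⟨(k - 12) / d, (k - 12) % d + 12, ?_, by omega, ?_⟩
    · have h1 := Nat.div_add_mod (k - 12) d
      have h2 : 12 ≤ k := by nlinarith
      have h3 : d * ((k - 12) / d) = (k - 12) / d * d := by ring
      omega
    · have := Nat.mod_lt (k - 12) (show 0 < d by omega)
      omega
  have hj : r / 4 ≤ j := by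
    by_contra hcon
    push Not at hcon
    have h1 : 4 * (j + 1) ≤ r := by omega
    have h2 : 4 * j + 4 ≤ d + 11 := by omega
    have h3 : 4 * k = 4 * j * d + 4 * r := by rw [hjr]; ring
    have h4 : 4 * j * d ≤ (d + 7) * d := Nat.mul_le_mul_right d (by omega)
    nlinarith
  refine ⟨r / 4 - r % 4, r % 4, j - r / 4, ?_⟩
  have h1 : r % 4 ≤ r / 4 := by omega
  have h2 : r = 4 * (r / 4) + r % 4 := by omega
  obtain ⟨a, ha⟩ : ∃ a, r / 4 = a + r % 4 := ⟨r / 4 - r % 4, by omega⟩
  obtain ⟨c, hc⟩ : ∃ c, j = c + r / 4 := ⟨j - r / 4, by omega⟩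
  have e1 : r / 4 - r % 4 = a := by omega
  have e2 : j - r / 4 = c := by omega
  rw [e1, e2, hjr]
  have h3 : r = 4 * a + 5 * (r % 4) := by omega
  have h4 : j = c + (a + r % 4) := by omega
  rw [h4]
  generalize r % 4 = b at *
  rw [h3]
  ring

theorem SG.closure {d N : ℕ} (h : SG d N) (hN : 2 ≤ N) (hd : 6 ≤ d) {k : ℕ}
    (hk : (d + 4) * (d + 11) ≤ 4 * k) : SG d (N + 2 * k) := by
  obtain ⟨a, b, c, rfl⟩ := frob (by omega) hk
  have h4 := (sb_add_four hd).sa
  have h5 := (sb_add_five hd).sa
  have s1 : SG d (N + 2 * (a * (d + 4))) := by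
    clear hk
    induction a with
    | zero => simpa using h
    | succ a ih =>
      have := SG.insert ih (by omega) (by omega) h4 (by omega)
      have e : N + 2 * ((a + 1) * (d + 4)) = N + 2 * (a * (d + 4)) + 2 * (d + 4) := by ring
      rw [e]; exact this
  have s2 : SG d (N + 2 * (a * (d + 4) + b * (d + 5))) := by
    clear hk
    induction b with
    | zero => simpa using s1
    | succ b ih =>
      have := SG.insert ih (by omega) (by omega) h5 (by omega)
      have e : N + 2 * (a * (d + 4) + (b + 1) * (d + 5)) =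
        N + 2 * (a * (d + 4) + b * (d + 5)) + 2 * (d + 5) := by ring
      rw [e]; exact this
  have s3 := s2.fowler_iter (by omega) c
  have e : N + 2 * (a * (d + 4) + b * (d + 5) + c * d) =
    N + 2 * (a * (d + 4) + b * (d + 5)) + 2 * d * c := by ring
  rw [e]; exact s3

theorem SB.closure {d N : ℕ} (h : SB d N) (hd : 6 ≤ d) {k : ℕ}
    (hk : (d + 4) * (d + 11) ≤ 4 * k) : SB d (N + 2 * k) := by
  obtain ⟨a, b, c, rfl⟩ := frob (by omega) hk
  have h4 := (sb_add_four hd).sa
  have h5 := (sb_add_five hd).sa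
  have s1 : SB d (N + 2 * (a * (d + 4))) := by
    clear hk
    induction a with
    | zero => simpa using h
    | succ a ih =>
      have := SB.insert ih (by omega) h4 (by omega)
      have e : N + 2 * ((a + 1) * (d + 4)) = N + 2 * (a * (d + 4)) + 2 * (d + 4) := by ring
      rw [e]; exact this
  have s2 : SB d (N + 2 * (a * (d + 4) + b * (d + 5))) := by
    clear hk
    induction b with
    | zero => simpa using s1
    | succ b ih =>
      have := SB.insert ih (by omega) h5 (by omega)
      have e : N + 2 * (a * (d + 4) + (b + 1) * (d + 5)) =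
        N + 2 * (a * (d + 4) + b * (d + 5)) + 2 * (d + 5) := by ring
      rw [e]; exact this
  have s3 := s2.fowler_iter (by omega) c
  have e : N + 2 * (a * (d + 4) + b * (d + 5) + c * d) =
    N + 2 * (a * (d + 4) + b * (d + 5)) + 2 * d * c := by ring
  rw [e]; exact s3

/-- Degree five. -/
theorem five_even {l : ℕ} (he : Even l) (h : 44 ≤ l) : SG 5 l := by
  obtain ⟨m, hm⟩ := he
  have h22 : SG 5 22 := s5_11.double (by norm_num) (by norm_num)
  have := h22.insert (by norm_num) (by norm_num) (sb5 (m := m - 11) (by omega)).sa (by omega)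
  have e : 22 + 2 * (m - 11) = l := by omega
  rwa [e] at this

theorem sg_large {d l : ℕ} (hd : 3 ≤ d) (hl : (d + 11) ^ 2 ≤ 2 * l) (he : Even (d * l)) :
    SG d l := by
  rcases Nat.lt_or_ge d 6 with h6 | h6
  · have h3 : d = 3 ∨ d = 4 ∨ d = 5 := by omega
    rcases h3 with rfl | rfl | rfl
    · have : Even l := by
        rw [Nat.even_mul] at he
        rcases he with he | he
        · exact absurd he (by decide)
        · exact he
      exact cubic_even this (by right; omega)
    · exact quartic (by omega)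
    · have : Even l := by
        rw [Nat.even_mul] at he
        rcases he with he | he
        · exact absurd he (by decide)
        · exact he
      exact five_even this (by omega)
  · -- `d ≥ 6`
    have hsq : d * d + 22 * d + 121 ≤ 2 * l := by nlinarith
    have fin : ∀ N, SG d N → 2 ≤ N → l % 2 = N % 2 → N ≤ 2 * (d + 9) →
        (d = 6 ∨ N ≤ 2 * (d + 7)) → SG d l := by
      intro N hN h2 hmod hle hle'
      have hNl : N ≤ l := by nlinarith
      have hk : (d + 4) * (d + 11) ≤ 4 * ((l - N) / 2) := by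
        have e : 4 * ((l - N) / 2) = 2 * (l - N) := by omega
        rw [e]
        have e2 : (d + 4) * (d + 11) = d * d + 15 * d + 44 := by ring
        rw [e2]
        rcases hle' with rfl | hle'
        · omega
        · have : 15 * d + 2 * N + 44 ≤ 22 * d + 121 := by omega
          omega
      have := hN.closure h2 h6 hk
      have e : N + 2 * ((l - N) / 2) = l := by omega
      rwa [e] at this
    rcases Nat.even_or_odd d with hde | hdo
    · have hd2 : d % 2 = 0 := Nat.even_iff.mp hde
      -- odd order seed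
      have seed : ∃ N, SG d N ∧ N % 2 = 1 ∧ 2 ≤ N ∧ N ≤ d + 9 ∧ (d = 6 ∨ N ≤ d + 7) := by
        rcases Nat.lt_or_ge d 10 with h10 | h10
        · have h68 : d = 6 ∨ d = 8 := by omega
          rcases h68 with rfl | rfl
          · exact ⟨15, g6_15, by norm_num, by norm_num, by norm_num, by norm_num⟩
          · exact ⟨15, g8_15, by norm_num, by norm_num, by norm_num, by norm_num⟩
        · exact ⟨d + 5, sg_add_five h10 hd2, by omega, by omega, by omega, by omega⟩
      obtain ⟨N, hN, hodd, h2, hle, hle'⟩ := seed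
      rcases Nat.mod_two_eq_zero_or_one l with hl2 | hl2
      · exact fin (2 * N) (hN.double h2 (by omega)) (by omega) (by omega) (by omega) (by omega)
      · exact fin N hN h2 (by omega) (by omega) (by omega)
    · have hd2 : d % 2 = 1 := Nat.odd_iff.mp hdo
      have hl2 : Even l := by
        rw [Nat.even_mul] at he
        rcases he with he | he
        · exact absurd he (Nat.not_even_iff_odd.mpr hdo)
        · exact he
      have hl2' := Nat.even_iff.mp hl2
      exact fin (2 * (d + 4)) ((sb_add_four h6).double (by omega) (by omega)) (by omega)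
        (by omega) (by omega) (by omega)

theorem sa_large {d l : ℕ} (hd : 3 ≤ d) (hl : (d + 11) ^ 2 ≤ 2 * l) (ho : Odd (d * l)) :
    SA d l := by
  rw [Nat.odd_mul] at ho
  obtain ⟨hdo, hlo⟩ := ho
  have hd2 : d % 2 = 1 := Nat.odd_iff.mp hdo
  have hl2 : l % 2 = 1 := Nat.odd_iff.mp hlo
  rcases Nat.lt_or_ge d 6 with h6 | h6
  · have h3 : d = 3 ∨ d = 5 := by omega
    rcases h3 with rfl | rfl
    · exact (cubic_odd hlo (by right; omega)).sa
    · exact (sb5 (by omega)).sa
  · have hsq : d * d + 22 * d + 121 ≤ 2 * l := by nlinarith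
    have hNl : d + 4 ≤ l := by nlinarith
    have hk : (d + 4) * (d + 11) ≤ 4 * ((l - (d + 4)) / 2) := by
      have e : 4 * ((l - (d + 4)) / 2) = 2 * (l - (d + 4)) := by omega
      rw [e]
      have e2 : (d + 4) * (d + 11) = d * d + 15 * d + 44 := by ring
      rw [e2]
      omega
    have := (sb_add_four h6).closure h6 hk
    have e : d + 4 + 2 * ((l - (d + 4)) / 2) = l := by omega
    rw [e] at this
    exact this.sa

theorem orders_large {d l : ℕ} (hd : 3 ≤ d) (hl : (d + 11) ^ 2 ≤ 2 * l) :
    orders d l = if Even (d * l) then {n | 1 ≤ n} else {n | 1 ≤ n ∧ Even n} := by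
  have hl2 : 2 ≤ l := by nlinarith
  split_ifs with he
  · exact (sg_large hd hl he).orders_eq hl2
  · exact (sa_large hd hl (Nat.not_even_iff_odd.mp he)).orders_eq_of_odd hl2 hd
      (Nat.not_even_iff_odd.mp he)

end PolyNut
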