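import Pool.Agent.Helper82.Nut.Closure

/-! Explicit seeds with semi-edges, degrees 6 and 7, and two nut graphs of order 12. -/

namespace PolyNut

def s6_12R : List (List ℕ) := [[0, 5, 6, 7, 8, 11],
  [1, 4, 6, 7, 8, 10],
  [2, 3, 6, 8, 9, 10],
  [2, 4, 5, 6, 7, 9],
  [1, 3, 4, 5, 6, 11],
  [0, 3, 4, 9, 10, 11],
  [0, 1, 2, 3, 4, 6],
  [0, 1, 3, 7, 10, 11],
  [0, 1, 2, 8, 9, 11],
  [2, 3, 5, 8, 9, 10],
  [1, 2, 5, 7, 9, 11],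
  [0, 4, 5, 7, 8, 10]]

def s6_12X : List ℤ := [-1, -1, 1, 1, 1, -1, -1, 1, 1, -1, -1, 1]

def s6_12Q : List (List ℤ) := [[0, 0, 0, 0, 0, 0, 0, 0, 0, 0, 0, 0],
  [0, -9, 9, 0, 0, 0, 0, 0, 0, -9, 0, 9],
  [0, 9, -20, 19, 4, -3, -12, 13, 10, 18, -24, -17],
  [0, 0, 19, -23, -2, 6, 6, -20, -14, -18, 30, 13],
  [0, 0, 4, -2, 1, -3, -3, 1, -2, 0, 3, -2],
  [0, 0, -3, 6, -3, 0, 0, 6, 6, 0, -9, -3],
  [0, 0, -12, 6, -3, 0, 0, 6, 6, 9, -9, -3],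
  [0, 0, 13, -20, 1, 6, 6, -17, -11, -9, 21, 7],
  [0, 0, 10, -14, -2, 6, 6, -11, -14, -9, 21, 4],
  [0, -9, 18, -18, 0, 0, 9, -9, -9, -18, 18, 18],
  [0, 0, -24, 30, 3, -9, -9, 21, 21, 18, -36, -15],
  [0, 9, -17, 13, -2, -3, -3, 7, 4, 18, -15, -14]]

theorem s6_12_sym : SymCert 12 6 (fun i j : Fin 12 => nb s6_12R i j) := by decide +kernel

theorem s6_12_ker : KerCert 12 (fun i j : Fin 12 => nb s6_12R i j) (fun i => s6_12X.getD i 0)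
    (fun i j => lk s6_12Q i j) 9 0 := by decide +kernel

theorem s6_12 : SB 6 12 := by
  refine ⟨_, _, semi_of_cert s6_12_sym s6_12_ker, ⟨⟨3, by norm_num⟩, ?_⟩,
    ⟨⟨0, by norm_num⟩, ?_⟩⟩
  · have h : nb s6_12R 3 3 = 0 := by decide +kernel
    exact_mod_cast h
  · have h : nb s6_12R 0 0 = 1 := by decide +kernel
    exact_mod_cast h

def s6_13R : List (List ℕ) := [[1, 4, 5, 6, 8, 10],
  [0, 3, 8, 9, 10, 12],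
  [3, 4, 5, 9, 11, 12],
  [1, 2, 4, 6, 8, 10],
  [0, 2, 3, 4, 6, 7],
  [0, 2, 6, 7, 9, 11],
  [0, 3, 4, 5, 6, 12],
  [4, 5, 7, 8, 9, 11],
  [0, 1, 3, 7, 8, 10],
  [1, 2, 5, 7, 10, 11],
  [0, 1, 3, 8, 9, 12],
  [2, 5, 7, 9, 11, 12],
  [1, 2, 6, 10, 11, 12]]

def s6_13X : List ℤ := [1, 1, -1, -2, 2, -1, -1, 1, -2, 1, 1, -1, 1]

def s6_13Q : List (List ℤ) := [[0, 0, 0, 0, 0, 0, 0, 0, 0, 0, 0, 0, 0],
  [0, -12, 12, 12, -12, 6, 0, -12, 18, -12, -6, 12, -6],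
  [0, 12, -14, -12, 16, -8, -2, 12, -24, 18, 12, -14, 6],
  [0, 12, -12, -15, 15, -6, 0, 12, -21, 18, 12, -18, 6],
  [0, -12, 16, 15, -11, 4, -2, -12, 21, -18, -12, 16, -6],
  [0, 6, -8, -6, 4, -2, 4, 6, -12, 12, 6, -8, 0],
  [0, 0, -2, 0, -2, 4, 4, 0, 0, 0, 0, -2, 0],
  [0, -12, 12, 12, -12, 6, 0, -12, 24, -18, -12, 18, -6],
  [0, 18, -24, -21, 21, -12, 0, 24, -33, 24, 18, -24, 12],
  [0, -12, 18, 18, -18, 12, 0, -18, 24, -18, -12, 18, -12],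
  [0, -6, 12, 12, -12, 6, 0, -12, 18, -12, -12, 12, -6],
  [0, 12, -14, -18, 16, -8, -2, 18, -24, 18, 12, -20, 12],
  [0, -6, 6, 6, -6, 0, 0, -6, 12, -12, -6, 12, 0]]

theorem s6_13_sym : SymCert 13 6 (fun i j : Fin 13 => nb s6_13R i j) := by decide +kernel

theorem s6_13_ker : KerCert 13 (fun i j : Fin 13 => nb s6_13R i j) (fun i => s6_13X.getD i 0)
    (fun i j => lk s6_13Q i j) 6 0 := by decide +kernel

theorem s6_13 : SB 6 13 := by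
  refine ⟨_, _, semi_of_cert s6_13_sym s6_13_ker, ⟨⟨0, by norm_num⟩, ?_⟩,
    ⟨⟨4, by norm_num⟩, ?_⟩⟩
  · have h : nb s6_13R 0 0 = 0 := by decide +kernel
    exact_mod_cast h
  · have h : nb s6_13R 4 4 = 1 := by decide +kernel
    exact_mod_cast h

def s6_14R : List (List ℕ) := [[0, 3, 5, 7, 10, 11],
  [2, 3, 7, 8, 11, 13],
  [1, 4, 9, 10, 11, 13],
  [0, 1, 5, 6, 9, 12],
  [2, 4, 6, 10, 12, 13],
  [0, 3, 5, 7, 8, 9],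
  [3, 4, 6, 7, 8, 11],
  [0, 1, 5, 6, 7, 10],
  [1, 5, 6, 9, 10, 12],
  [2, 3, 5, 8, 9, 13],
  [0, 2, 4, 7, 8, 12],
  [0, 1, 2, 6, 12, 13],
  [3, 4, 8, 10, 11, 12],
  [1, 2, 4, 9, 11, 13]]

def s6_14X : List ℤ := [-1, 1, -1, 1, 1, 1, -1, 1, -1, -1, -1, -1, 1, 1]

def s6_14Q : List (List ℤ) := [[0, 0, 0, 0, 0, 0, 0, 0, 0, 0, 0, 0, 0, 0],
  [0, 8, 0, 8, 8, -4, 0, -4, 0, 0, 0, -12, -4, -4],
  [0, 0, 12, 12, 0, 0, 0, 0, -12, 0, 0, 0, 0, -12],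
  [0, 8, 12, 11, -4, -22, 3, -1, 3, 9, 12, -12, -10, -13],
  [0, 8, 0, -4, -4, -4, 0, -4, 12, 0, 0, 0, -4, -4],
  [0, -4, 0, -22, -4, 8, 6, -10, 18, -6, 0, 12, -4, 2],
  [0, 0, 0, 3, 0, 6, -9, 3, -9, -3, 0, 0, 6, 3],
  [0, -4, 0, -1, -4, -10, 3, -1, 3, 9, 0, 0, 2, -1],
  [0, 0, -12, 3, 12, 18, -9, 3, -9, -15, -12, 0, 6, 15],
  [0, 0, 0, 9, 0, -6, -3, 9, -15, 3, 0, 0, 6, -3],
  [0, 0, 0, 12, 0, 0, 0, 0, -12, 0, 0, 0, 0, 0],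
  [0, -12, 0, -12, 0, 12, 0, 0, 0, 0, 0, 12, 0, 0],
  [0, -4, 0, -10, -4, -4, 6, 2, 6, 6, 0, 0, -4, 2],
  [0, -4, -12, -13, -4, 2, 3, -1, 15, -3, 0, 0, 2, 11]]

theorem s6_14_sym : SymCert 14 6 (fun i j : Fin 14 => nb s6_14R i j) := by decide +kernel

theorem s6_14_ker : KerCert 14 (fun i j : Fin 14 => nb s6_14R i j) (fun i => s6_14X.getD i 0)
    (fun i j => lk s6_14Q i j) 12 0 := by decide +kernel

theorem s6_14 : SB 6 14 := by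
  refine ⟨_, _, semi_of_cert s6_14_sym s6_14_ker, ⟨⟨1, by norm_num⟩, ?_⟩,
    ⟨⟨0, by norm_num⟩, ?_⟩⟩
  · have h : nb s6_14R 1 1 = 0 := by decide +kernel
    exact_mod_cast h
  · have h : nb s6_14R 0 0 = 1 := by decide +kernel
    exact_mod_cast h

def s6_15R : List (List ℕ) := [[0, 2, 3, 9, 11, 13],
  [3, 6, 8, 10, 11, 13],
  [0, 5, 6, 8, 11, 14],
  [0, 1, 3, 5, 6, 13],
  [4, 7, 8, 9, 10, 14],
  [2, 3, 7, 10, 11, 14],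
  [1, 2, 3, 8, 12, 13],
  [4, 5, 7, 10, 11, 12],
  [1, 2, 4, 6, 8, 10],
  [0, 4, 9, 10, 12, 14],
  [1, 4, 5, 7, 8, 9],
  [0, 1, 2, 5, 7, 11],
  [6, 7, 9, 12, 13, 14],
  [0, 1, 3, 6, 12, 14],
  [2, 4, 5, 9, 12, 13]]

def s6_15X : List ℤ := [-1, 2, -1, -1, 2, -1, -1, -1, -1, -1, -1, 2, -1, 2, 2]

def s6_15Q : List (List ℤ) := [[0, 0, 0, 0, 0, 0, 0, 0, 0, 0, 0, 0, 0, 0, 0],
  [0, -21, 22, 0, -73, 56, 8, 10, 16, 12, 48, -67, 26, -43, -13],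
  [0, 22, -14, 0, 62, -46, -12, 4, -24, -18, -34, 34, -20, 36, 10],
  [0, 0, 0, 0, 38, -38, 0, 0, 0, 0, -38, 38, 0, 0, 0],
  [0, -73, 62, 38, -261, 144, 64, 4, 52, 134, 156, -137, 94, -173, -123],
  [0, 56, -46, -38, 144, -86, -34, -14, -30, -70, -90, 90, -44, 102, 60],
  [0, 8, -12, 0, 64, -34, 6, -2, -26, -10, -40, 40, -28, 20, 14],
  [0, 10, 4, 0, 4, -14, -2, -12, -4, 16, -12, 12, -16, 6, 8],
  [0, 16, -24, 0, 52, -30, -26, -4, -14, -20, -42, 42, -18, 40, 28],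
  [0, 12, -18, 0, 134, -70, -10, 16, -20, -72, -98, 60, -42, 68, 40],
  [0, 48, -34, -38, 156, -90, -40, -12, -42, -98, -88, 88, -54, 120, 84],
  [0, -67, 34, 38, -137, 90, 40, 12, 42, 60, 88, -107, 54, -101, -65],
  [0, 26, -20, 0, 94, -44, -28, -16, -18, -42, -54, 54, -34, 46, 36],
  [0, -43, 36, 0, -173, 102, 20, 6, 40, 68, 120, -101, 46, -79, -61],
  [0, -13, 10, 0, -123, 60, 14, 8, 28, 40, 84, -65, 36, -61, -37]]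

theorem s6_15_sym : SymCert 15 6 (fun i j : Fin 15 => nb s6_15R i j) := by decide +kernel

theorem s6_15_ker : KerCert 15 (fun i j : Fin 15 => nb s6_15R i j) (fun i => s6_15X.getD i 0)
    (fun i j => lk s6_15Q i j) 38 0 := by decide +kernel

theorem s6_15 : SB 6 15 := by
  refine ⟨_, _, semi_of_cert s6_15_sym s6_15_ker, ⟨⟨1, by norm_num⟩, ?_⟩,
    ⟨⟨0, by norm_num⟩, ?_⟩⟩
  · have h : nb s6_15R 1 1 = 0 := by decide +kernel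
    exact_mod_cast h
  · have h : nb s6_15R 0 0 = 1 := by decide +kernel
    exact_mod_cast h

def s7_14R : List (List ℕ) := [[3, 4, 6, 7, 9, 10, 13],
  [5, 6, 7, 9, 10, 12, 13],
  [4, 5, 6, 7, 8, 11, 13],
  [0, 5, 6, 7, 8, 10, 12],
  [0, 2, 4, 5, 6, 11, 13],
  [1, 2, 3, 4, 5, 8, 11],
  [0, 1, 2, 3, 4, 9, 12],
  [0, 1, 2, 3, 7, 9, 11],
  [2, 3, 5, 8, 11, 12, 13],
  [0, 1, 6, 7, 10, 12, 13],
  [0, 1, 3, 9, 10, 11, 12],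
  [2, 4, 5, 7, 8, 10, 13],
  [1, 3, 6, 8, 9, 10, 12],
  [0, 1, 2, 4, 8, 9, 11]]

def s7_14X : List ℤ := [2, 1, -2, 1, -1, 2, -1, -1, 1, 1, -1, -2, -2, 2]

def s7_14Q : List (List ℤ) := [[0, 0, 0, 0, 0, 0, 0, 0, 0, 0, 0, 0, 0, 0],
  [0, 51, -27, -33, -36, 91, -22, -15, -12, 58, -29, -34, -13, 28],
  [0, -27, -52, 29, 45, -28, 3, 31, 15, 1, -25, 18, 4, 14],
  [0, -33, 29, -19, 6, -7, 20, 27, 2, -26, 13, 22, 43, -70],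
  [0, -36, 45, 6, 11, -21, 53, -24, -29, -15, 32, 24, -11, -14],
  [0, 91, -28, -7, -21, 98, -21, -21, -7, -7, -21, -28, -28, 0],
  [0, -22, 3, 20, 53, -21, -3, 18, -15, -1, -24, -18, 45, -14],
  [0, -15, 31, 27, -24, -21, 18, 39, -8, 6, -3, 10, -25, -14],
  [0, -12, 15, 2, -29, -7, -15, -8, 23, -5, -22, 8, 29, 28],
  [0, 58, 1, -26, -15, -7, -1, 6, -5, -33, -8, -6, 15, 28],
  [0, -29, -25, 13, 32, -21, -24, -3, -22, -8, 53, 52, 17, -14],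
  [0, -34, 18, 22, 24, -28, -18, 10, 8, -6, 52, -10, -24, 14],
  [0, -13, 4, 43, -11, -28, 45, -25, 29, 15, 17, -24, -38, 14],
  [0, 28, 14, -70, -14, 0, -14, -14, 28, 28, -14, 14, 14, 0]]

theorem s7_14_sym : SymCert 14 7 (fun i j : Fin 14 => nb s7_14R i j) := by decide +kernel

theorem s7_14_ker : KerCert 14 (fun i j : Fin 14 => nb s7_14R i j) (fun i => s7_14X.getD i 0)
    (fun i j => lk s7_14Q i j) 49 0 := by decide +kernel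

theorem s7_14 : SB 7 14 := by
  refine ⟨_, _, semi_of_cert s7_14_sym s7_14_ker, ⟨⟨0, by norm_num⟩, ?_⟩,
    ⟨⟨4, by norm_num⟩, ?_⟩⟩
  · have h : nb s7_14R 0 0 = 0 := by decide +kernel
    exact_mod_cast h
  · have h : nb s7_14R 4 4 = 1 := by decide +kernel
    exact_mod_cast h

def s7_15R : List (List ℕ) := [[2, 6, 8, 9, 10, 12, 13],
  [3, 4, 6, 7, 9, 11, 12],
  [0, 2, 4, 6, 9, 11, 13],
  [1, 3, 4, 5, 7, 10, 13],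
  [1, 2, 3, 4, 5, 7, 8],
  [3, 4, 7, 10, 11, 12, 14],
  [0, 1, 2, 6, 8, 9, 11],
  [1, 3, 4, 5, 7, 12, 13],
  [0, 4, 6, 9, 10, 12, 13],
  [0, 1, 2, 6, 8, 11, 14],
  [0, 3, 5, 8, 10, 11, 14],
  [1, 2, 5, 6, 9, 10, 14],
  [0, 1, 5, 7, 8, 13, 14],
  [0, 2, 3, 7, 8, 12, 14],
  [5, 9, 10, 11, 12, 13, 14]]

def s7_15X : List ℤ := [-1, 1, -1, 2, 1, -2, -1, -2, 1, 2, -1, -1, -1, 1, 2]

def s7_15Q : List (List ℤ) := [[0, 0, 0, 0, 0, 0, 0, 0, 0, 0, 0, 0, 0, 0, 0],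
  [0, 7, -2, 6, 6, -8, -10, -10, 1, 8, -3, -4, -3, 2, 8],
  [0, -2, 1, -6, -5, 5, 5, 6, 1, -7, 5, 2, 5, -3, -7],
  [0, 6, -6, 6, 10, -6, -9, -12, 2, 12, -9, -5, -2, -2, 12],
  [0, 6, -5, 10, 0, -9, -4, -7, -2, 8, -4, -3, -4, 4, 8],
  [0, -8, 5, -6, -9, 10, 11, 8, 0, -11, 4, 3, 4, 1, -11],
  [0, -10, 5, -9, -4, 11, 11, 9, -2, -14, 4, 3, 4, -1, -7],
  [0, -10, 6, -12, -7, 8, 9, 14, 1, -11, 9, 5, 2, -2, -11],
  [0, 1, 1, 2, -2, 0, -2, 1, -3, 1, -2, 2, -2, 0, 1],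
  [0, 8, -7, 12, 8, -11, -14, -11, 1, 19, -7, -7, -7, 1, 12],
  [0, -3, 5, -9, -4, 4, 4, 9, -2, -7, 4, 3, 4, -1, -7],
  [0, -4, 2, -5, -3, 3, 3, 5, 2, -7, 3, 4, 3, 1, -7],
  [0, -3, 5, -2, -4, 4, 4, 2, -2, -7, 4, 3, 4, -1, -7],
  [0, 2, -3, -2, 4, 1, -1, -2, 0, 1, -1, 1, -1, -2, 1],
  [0, 8, -7, 12, 8, -11, -7, -11, 1, 12, -7, -7, -7, 1, 12]]

theorem s7_15_sym : SymCert 15 7 (fun i j : Fin 15 => nb s7_15R i j) := by decide +kernel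

theorem s7_15_ker : KerCert 15 (fun i j : Fin 15 => nb s7_15R i j) (fun i => s7_15X.getD i 0)
    (fun i j => lk s7_15Q i j) 7 0 := by decide +kernel

theorem s7_15 : SB 7 15 := by
  refine ⟨_, _, semi_of_cert s7_15_sym s7_15_ker, ⟨⟨0, by norm_num⟩, ?_⟩,
    ⟨⟨2, by norm_num⟩, ?_⟩⟩
  · have h : nb s7_15R 0 0 = 0 := by decide +kernel
    exact_mod_cast h
  · have h : nb s7_15R 2 2 = 1 := by decide +kernel
    exact_mod_cast h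

def s7_16R : List (List ℕ) := [[0, 6, 8, 9, 10, 12, 15],
  [1, 3, 10, 11, 13, 14, 15],
  [4, 5, 6, 8, 9, 10, 13],
  [1, 3, 7, 8, 11, 12, 15],
  [2, 4, 5, 9, 10, 11, 13],
  [2, 4, 10, 11, 12, 13, 14],
  [0, 2, 6, 7, 8, 12, 14],
  [3, 6, 8, 9, 12, 14, 15],
  [0, 2, 3, 6, 7, 8, 11],
  [0, 2, 4, 7, 12, 13, 15],
  [0, 1, 2, 4, 5, 10, 11],
  [1, 3, 4, 5, 8, 10, 14],
  [0, 3, 5, 6, 7, 9, 15],
  [1, 2, 4, 5, 9, 13, 14],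
  [1, 5, 6, 7, 11, 13, 15],
  [0, 1, 3, 7, 9, 12, 14]]

def s7_16X : List ℤ := [1, -1, -2, -2, 2, -1, -1, 1, 1, 1, -1, 2, -2, -1, 2, 1]

def s7_16Q : List (List ℤ) := [[0, 0, 0, 0, 0, 0, 0, 0, 0, 0, 0, 0, 0, 0, 0, 0],
  [0, -5, -18, -32, 34, -33, -5, 28, 7, 21, 2, 20, -39, -26, 27, 21],
  [0, -18, -62, -97, 114, -95, -11, 84, 21, 63, -4, 65, -111, -81, 79, 56],
  [0, -32, -97, -153, 177, -144, -25, 133, 35, 98, -11, 107, -174, -130, 128, 91],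
  [0, 34, 114, 177, -213, 174, 20, -154, -35, -112, 13, -122, 205, 153, -150, -105],
  [0, -33, -95, -144, 174, -138, -19, 126, 28, 91, -12, 104, -165, -124, 125, 84],
  [0, -5, -11, -25, 20, -19, -5, 21, 7, 14, 2, 13, -25, -19, 20, 14],
  [0, 28, 84, 133, -154, 126, 21, -119, -28, -84, 7, -91, 154, 112, -112, -77],
  [0, 7, 21, 35, -35, 28, 7, -28, -7, -21, 0, -21, 35, 28, -28, -21],
  [0, 21, 63, 98, -112, 91, 14, -84, -21, -63, 7, -70, 112, 84, -84, -56],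
  [0, 2, -4, -11, 13, -12, 2, 7, 0, 7, 2, 6, -11, -12, 6, 7],
  [0, 20, 65, 107, -122, 104, 13, -91, -21, -70, 6, -73, 121, 90, -87, -63],
  [0, -39, -111, -174, 205, -165, -25, 154, 35, 112, -11, 121, -202, -151, 149, 105],
  [0, -26, -81, -130, 153, -124, -19, 112, 28, 84, -12, 90, -151, -110, 111, 77],
  [0, 27, 79, 128, -150, 125, 20, -112, -28, -84, 6, -87, 149, 111, -108, -77],
  [0, 21, 56, 91, -105, 84, 14, -77, -21, -56, 7, -63, 105, 77, -77, -56]]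

theorem s7_16_sym : SymCert 16 7 (fun i j : Fin 16 => nb s7_16R i j) := by decide +kernel

theorem s7_16_ker : KerCert 16 (fun i j : Fin 16 => nb s7_16R i j) (fun i => s7_16X.getD i 0)
    (fun i j => lk s7_16Q i j) 7 0 := by decide +kernel

theorem s7_16 : SB 7 16 := by
  refine ⟨_, _, semi_of_cert s7_16_sym s7_16_ker, ⟨⟨2, by norm_num⟩, ?_⟩,
    ⟨⟨0, by norm_num⟩, ?_⟩⟩
  · have h : nb s7_16R 2 2 = 0 := by decide +kernel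
    exact_mod_cast h
  · have h : nb s7_16R 0 0 = 1 := by decide +kernel
    exact_mod_cast h

def s7_17R : List (List ℕ) := [[1, 4, 5, 6, 8, 10, 13],
  [0, 2, 4, 8, 9, 12, 13],
  [1, 2, 3, 6, 10, 11, 14],
  [2, 6, 8, 11, 12, 13, 15],
  [0, 1, 4, 5, 6, 7, 14],
  [0, 4, 7, 8, 9, 12, 16],
  [0, 2, 3, 4, 7, 12, 16],
  [4, 5, 6, 8, 11, 14, 16],
  [0, 1, 3, 5, 7, 9, 15],
  [1, 5, 8, 9, 10, 14, 15],
  [0, 2, 9, 10, 11, 12, 13],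
  [2, 3, 7, 10, 11, 13, 15],
  [1, 3, 5, 6, 10, 14, 16],
  [0, 1, 3, 10, 11, 13, 15],
  [2, 4, 7, 9, 12, 14, 16],
  [3, 8, 9, 11, 13, 15, 16],
  [5, 6, 7, 12, 14, 15, 16]]

def s7_17X : List ℤ := [1, -1, 1, -1, 1, -1, 2, -1, -1, 1, 1, -1, -2, -1, -1, 2, 1]

def s7_17Q : List (List ℤ) := [[0, 0, 0, 0, 0, 0, 0, 0, 0, 0, 0, 0, 0, 0, 0, 0, 0],
  [0, -61, -21, 30, 70, -19, 62, -40, -33, 42, 35, -33, -4, -19, -12, 48, -35],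
  [0, -21, -21, 35, 0, -14, 7, 0, 7, 7, 0, 7, 21, -14, 28, -7, -35],
  [0, 30, 35, -40, 0, -5, 20, -5, -5, 0, 0, -5, -25, -5, -40, 20, 35],
  [0, 70, 0, 0, -105, 35, -105, 70, 70, -70, -70, 35, 35, 70, 70, -105, 0],
  [0, -19, -14, -5, 35, -26, 48, -5, -12, 28, 35, -12, -11, -26, -33, 27, 0],
  [0, 62, 7, 20, -105, 48, -129, 55, 76, -84, -70, 41, 58, 48, 69, -101, 0],
  [0, -40, 0, -5, 70, -5, 55, -40, -40, 35, 35, -5, -25, -40, -40, 55, 0],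
  [0, -33, 7, -5, 70, -12, 76, -40, -54, 56, 35, -19, -32, -47, -61, 69, 0],
  [0, 42, 7, 0, -70, 28, -84, 35, 56, -49, -35, 21, 28, 28, 49, -56, 0],
  [0, 35, 0, 0, -70, 35, -70, 35, 35, -35, -35, 35, 35, 35, 35, -70, 0],
  [0, -33, 7, -5, 35, -12, 41, -5, -19, 21, 35, -19, -32, -12, -26, 34, 0],
  [0, -4, 21, -25, 35, -11, 58, -25, -32, 28, 35, -32, -41, -11, -53, 37, 35],
  [0, -19, -14, -5, 70, -26, 48, -40, -47, 28, 35, -12, -11, -26, -33, 62, 0],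
  [0, -12, 28, -40, 70, -33, 69, -40, -61, 49, 35, -26, -53, -33, -54, 76, 35],
  [0, 48, -7, 20, -105, 27, -101, 55, 69, -56, -70, 34, 37, 62, 76, -94, 0],
  [0, -35, -35, 35, 0, 0, 0, 0, 0, 0, 0, 0, 35, 0, 35, 0, -35]]

theorem s7_17_sym : SymCert 17 7 (fun i j : Fin 17 => nb s7_17R i j) := by decide +kernel

theorem s7_17_ker : KerCert 17 (fun i j : Fin 17 => nb s7_17R i j) (fun i => s7_17X.getD i 0)
    (fun i j => lk s7_17Q i j) 35 0 := by decide +kernel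

theorem s7_17 : SB 7 17 := by
  refine ⟨_, _, semi_of_cert s7_17_sym s7_17_ker, ⟨⟨0, by norm_num⟩, ?_⟩,
    ⟨⟨2, by norm_num⟩, ?_⟩⟩
  · have h : nb s7_17R 0 0 = 0 := by decide +kernel
    exact_mod_cast h
  · have h : nb s7_17R 2 2 = 1 := by decide +kernel
    exact_mod_cast h

def g6_12R : List (List ℕ) := [[1, 3, 4, 6, 8, 11],
  [0, 2, 3, 5, 7, 11],
  [1, 3, 5, 6, 9, 10],
  [0, 1, 2, 9, 10, 11],
  [0, 5, 7, 8, 9, 10],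
  [1, 2, 4, 6, 7, 8],
  [0, 2, 5, 7, 10, 11],
  [1, 4, 5, 6, 8, 10],
  [0, 4, 5, 7, 9, 11],
  [2, 3, 4, 8, 10, 11],
  [2, 3, 4, 6, 7, 9],
  [0, 1, 3, 6, 8, 9]]

def g6_12X : List ℤ := [-1, -1, 1, -1, -1, 1, 1, -1, 1, 1, -1, 1]

def g6_12Q : List (List ℤ) := [[0, 0, 0, 0, 0, 0, 0, 0, 0, 0, 0, 0],
  [0, 0, -24, 0, 0, -24, 12, 18, -6, -6, 18, 12],
  [0, -24, 29, -21, -6, 20, 14, -30, 17, 14, -21, 2],
  [0, 0, -21, 9, 0, -12, 6, 18, -3, -12, 9, 6],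
  [0, 0, -6, 0, 0, -6, 12, 0, -6, -6, 0, 12],
  [0, -24, 20, -12, -6, 20, 14, -30, 8, 14, -12, 2],
  [0, 12, 14, 6, 12, 14, -28, -12, 2, 8, -12, -22],
  [0, 18, -30, 18, 0, -30, -12, 36, -12, -12, 18, 6],
  [0, -6, 17, -3, -6, 8, 2, -12, 5, 2, -3, -10],
  [0, -6, 14, -12, -6, 14, 8, -12, 2, 8, -12, -4],
  [0, 18, -21, 9, 0, -12, -12, 18, -3, -12, 9, 6],
  [0, 12, 2, 6, 12, 2, -22, 6, -10, -4, 6, -16]]

theorem g6_12_sym : SymCert 12 6 (fun i j : Fin 12 => nb g6_12R i j) := by decide +kernel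

theorem g6_12_ker : KerCert 12 (fun i j : Fin 12 => nb g6_12R i j) (fun i => g6_12X.getD i 0)
    (fun i j => lk g6_12Q i j) 18 0 := by decide +kernel

theorem g6_12 : SG 6 12 := by
  refine ⟨_, _, semi_of_cert g6_12_sym g6_12_ker, fun a => ?_⟩
  have h : ∀ a : Fin 12, nb g6_12R a a = 0 := by decide +kernel
  have := h a
  exact_mod_cast this

def g8_12R : List (List ℕ) := [[1, 2, 3, 4, 6, 7, 10, 11],
  [0, 2, 4, 5, 6, 7, 8, 11],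
  [0, 1, 6, 7, 8, 9, 10, 11],
  [0, 4, 5, 6, 8, 9, 10, 11],
  [0, 1, 3, 6, 7, 9, 10, 11],
  [1, 3, 6, 7, 8, 9, 10, 11],
  [0, 1, 2, 3, 4, 5, 8, 9],
  [0, 1, 2, 4, 5, 9, 10, 11],
  [1, 2, 3, 5, 6, 9, 10, 11],
  [2, 3, 4, 5, 6, 7, 8, 10],
  [0, 2, 3, 4, 5, 7, 8, 9],
  [0, 1, 2, 3, 4, 5, 7, 8]]

def g8_12X : List ℤ := [1, -1, 1, 1, -1, -1, -1, -1, 1, -1, 1, 1]

def g8_12Q : List (List ℤ) := [[0, 0, 0, 0, 0, 0, 0, 0, 0, 0, 0, 0],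
  [0, -1, 4, 0, 3, -5, 3, -1, 0, -1, -4, 4],
  [0, 4, 0, -8, -4, 4, 4, 4, 0, 4, 0, -8],
  [0, 0, -8, 0, 0, 8, 0, 0, 0, 0, 0, 0],
  [0, 3, -4, 0, 7, -1, 7, 3, -8, 3, -4, -4],
  [0, -5, 4, 8, -1, -9, -9, -5, 8, -5, 4, 12],
  [0, 3, 4, 0, 7, -9, 7, -5, 0, 3, -4, -4],
  [0, -1, 4, 0, 3, -5, -5, -1, 0, -1, 4, 4],
  [0, 0, 0, 0, -8, 8, 0, 0, 0, 0, 0, 0],
  [0, -1, 4, 0, 3, -5, 3, -1, 0, -1, 4, -4],
  [0, -4, 0, 0, -4, 4, -4, 4, 0, 4, 0, 0],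
  [0, 4, -8, 0, -4, 12, -4, 4, 0, -4, 0, 0]]

theorem g8_12_sym : SymCert 12 8 (fun i j : Fin 12 => nb g8_12R i j) := by decide +kernel

theorem g8_12_ker : KerCert 12 (fun i j : Fin 12 => nb g8_12R i j) (fun i => g8_12X.getD i 0)
    (fun i j => lk g8_12Q i j) 8 0 := by decide +kernel

theorem g8_12 : SG 8 12 := by
  refine ⟨_, _, semi_of_cert g8_12_sym g8_12_ker, fun a => ?_⟩
  have h : ∀ a : Fin 12, nb g8_12R a a = 0 := by decide +kernel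
  have := h a
  exact_mod_cast this

end PolyNut
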