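import Pool.Agent.Helper82.Nut.BipFowler
import Pool.Agent.Helper82.Nut.SeedsSix
import Pool.Agent.Helper82.Nut.Large

/-!
The linear range: for `d ≥ 3` and `ℓ ≥ 6 d + 18` the set `𝔑^d_ℓ` is determined.
-/

namespace PolyNut

theorem bi4 {m : ℕ} (h : 10 ≤ m) : Bi 4 m := (sb4 h).sa.bi

theorem bi5 {m : ℕ} (h : 11 ≤ m) : Bi 5 m := (sb5 h).sa.bi

/-- Bi with consecutive starting values. -/
theorem Bi.run {d a : ℕ} (hd : 2 ≤ d) (ha : 1 ≤ a) (h : ∀ i, i < d → Bi d (a + i)) {m : ℕ}
    (hm : a ≤ m) : Bi d m := by
  have key : ∀ (k s : ℕ), 1 ≤ s → Bi d s → Bi d (s + d * k) := by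
    intro k s hs hb
    induction k with
    | zero => simpa using hb
    | succ k ih =>
      have := ih.fowler hd (by omega)
      have e : s + d * (k + 1) = s + d * k + d := by ring
      rw [e]; exact this
  have h1 := Nat.div_add_mod (m - a) d
  have h2 := Nat.mod_lt (m - a) (show 0 < d by omega)
  have := key ((m - a) / d) (a + (m - a) % d) (by omega) (h _ h2)
  have e : a + (m - a) % d + d * ((m - a) / d) = m := by omega
  rwa [e] at this

theorem Bi.flip {t d : ℕ} (h : Bi t (d + t)) (ht : 1 ≤ t) (hd : 1 ≤ d) : Bi d (d + t) := by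
  have := h.compl ht (by omega)
  have e : d + t - t = d := by omega
  rwa [e] at this

theorem bi6 {m : ℕ} (h : 10 ≤ m) : Bi 6 m := by
  refine Bi.run (a := 10) (by norm_num) (by norm_num) ?_ h
  intro i hi
  interval_cases i
  · exact (bi4 (m := 6 + 4) (by norm_num)).flip (by norm_num) (by norm_num)
  · exact (bi5 (m := 6 + 5) (by norm_num)).flip (by norm_num) (by norm_num)
  · exact s6_12.sa.bi
  · exact s6_13.sa.bi
  · exact s6_14.sa.bi
  · exact s6_15.sa.bi

theorem bi7 {m : ℕ} (h : 11 ≤ m) : Bi 7 m := by
  refine Bi.run (a := 11) (by norm_num) (by norm_num) ?_ h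
  intro i hi
  interval_cases i
  · exact (bi4 (m := 7 + 4) (by norm_num)).flip (by norm_num) (by norm_num)
  · exact (bi5 (m := 7 + 5) (by norm_num)).flip (by norm_num) (by norm_num)
  · exact (bi6 (m := 7 + 6) (by norm_num)).flip (by norm_num) (by norm_num)
  · exact s7_14.sa.bi
  · exact s7_15.sa.bi
  · exact s7_16.sa.bi
  · exact s7_17.sa.bi

/-- The linear range for nonsymmetric matrices. -/
theorem bi_range {d : ℕ} (hd : 4 ≤ d) {m : ℕ} (hm : 2 * d + 4 ≤ m) : Bi d m := by
  induction d using Nat.strong_induction_on generalizing m with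
  | _ d ih =>
    have small : ∀ t, 4 ≤ t → t ≤ 7 → 8 ≤ d → Bi d (d + t) := by
      intro t h4 h7 h8
      have : t = 4 ∨ t = 5 ∨ t = 6 ∨ t = 7 := by omega
      rcases this with rfl | rfl | rfl | rfl
      · exact (bi4 (m := d + 4) (by omega)).flip (by norm_num) (by omega)
      · exact (bi5 (m := d + 5) (by omega)).flip (by norm_num) (by omega)
      · exact (bi6 (m := d + 6) (by omega)).flip (by norm_num) (by omega)
      · exact (bi7 (m := d + 7) (by omega)).flip (by norm_num) (by omega)
    rcases Nat.lt_or_ge d 8 with h8 | h8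
    · have : d = 4 ∨ d = 5 ∨ d = 6 ∨ d = 7 := by omega
      rcases this with rfl | rfl | rfl | rfl
      · exact bi4 (by omega)
      · exact bi5 (by omega)
      · exact bi6 (by omega)
      · exact bi7 (by omega)
    -- `d ≥ 8`: the elements `d + t`
    have mid : ∀ t, 4 ≤ t → t ≤ d - 4 ∨ t ≤ 7 → Bi d (d + t) := by
      intro t h4 ht
      rcases Nat.lt_or_ge t 8 with h7 | h7
      · exact small t h4 (by omega) h8
      · have htd : t + 4 ≤ d := by omega
        exact (@ih t (by omega) h4 (d + t) (by omega)).flip (by omega) (by omega)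
    -- `m ∈ [2 d + 4, 3 d + 3]`
    have base : ∀ i, i < d → Bi d (2 * d + 4 + i) := by
      intro i hi
      -- either Fowler or a sum of two
      rcases Nat.lt_or_ge i 4 with h | h
      · have := (small (4 + i) (by omega) (by omega) h8).fowler (by omega) (by omega)
        have e : d + (4 + i) + d = 2 * d + 4 + i := by ring
        rwa [e] at this
      · -- `4 + i = t₁ + t₂` with `t₁ ∈ {4, …, 7}`
        rcases Nat.lt_or_ge i 11 with h' | h'
        · obtain ⟨t₁, t₂, h1, h2, h3, h4, h5⟩ : ∃ t₁ t₂, 4 ≤ t₁ ∧ t₁ ≤ 7 ∧ 4 ≤ t₂ ∧ t₂ ≤ 7 ∧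
              t₁ + t₂ = 4 + i := by
            rcases Nat.lt_or_ge i 8 with h'' | h''
            · exact ⟨4, i, by omega, by omega, by omega, by omega, by omega⟩
            · exact ⟨7, i - 3, by omega, by omega, by omega, by omega, by omega⟩
          have := (small t₁ h1 h2 h8).add (small t₂ h3 h4 h8) (by omega) (by omega) (by omega)
          have e : d + t₁ + (d + t₂) = 2 * d + 4 + i := by omega
          rwa [e] at this
        · -- now `d ≥ 12`
          obtain ⟨t₁, t₂, h1, h2, h3, h4, h5⟩ : ∃ t₁ t₂, 4 ≤ t₁ ∧ t₁ ≤ 7 ∧ 4 ≤ t₂ ∧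
              t₂ ≤ d - 4 ∧ t₁ + t₂ = 4 + i :=
            ⟨7, i - 3, by omega, by omega, by omega, by omega, by omega⟩
          have := (small t₁ h1 h2 h8).add (mid t₂ h3 (by left; exact h4)) (by omega)
            (by omega) (by omega)
          have e : d + t₁ + (d + t₂) = 2 * d + 4 + i := by omega
          rwa [e] at this
    exact Bi.run (by omega) (by omega) base hm

theorem sg_range {d l : ℕ} (hd : 3 ≤ d) (hl : 6 * d + 18 ≤ l) (he : Even (d * l)) :
    SG d l := by
  rcases Nat.lt_or_ge d 6 with h6 | h6
  · have h3 : d = 3 ∨ d = 4 ∨ d = 5 := by omega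
    rcases h3 with rfl | rfl | rfl
    · have : Even l := by
        rw [Nat.even_mul] at he
        rcases he with he | he
        · exact absurd he (by decide)
        · exact he
      exact cubic_even this (by right; omega)
    · exact quartic (by omega)
    · have : Even l := by
        rw [Nat.even_mul] at he
        rcases he with he | he
        · exact absurd he (by decide)
        · exact he
      exact five_even this (by omega)
  · have fin : ∀ N, SG d N → 2 ≤ N → l % 2 = N % 2 → N + 2 * (2 * d + 4) ≤ l → SG d l := by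
      intro N hN h2 hmod hle
      have := hN.insertB (by omega) (by omega)
        (bi_range (d := d) (by omega) (m := (l - N) / 2) (by omega)) (by omega)
      have e : N + 2 * ((l - N) / 2) = l := by omega
      rwa [e] at this
    rcases Nat.even_or_odd d with hde | hdo
    · have hd2 : d % 2 = 0 := Nat.even_iff.mp hde
      rcases Nat.lt_or_ge d 10 with h10 | h10
      · have h68 : d = 6 ∨ d = 8 := by omega
        rcases Nat.mod_two_eq_zero_or_one l with hl2 | hl2
        · rcases h68 with rfl | rfl
          · exact fin 12 g6_12 (by norm_num) (by omega) (by omega)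
          · exact fin 12 g8_12 (by norm_num) (by omega) (by omega)
        · rcases h68 with rfl | rfl
          · exact fin 15 g6_15 (by norm_num) (by omega) (by omega)
          · exact fin 15 g8_15 (by norm_num) (by omega) (by omega)
      · rcases Nat.mod_two_eq_zero_or_one l with hl2 | hl2
        · exact fin (2 * (d + 5)) ((sg_add_five h10 hd2).double (by omega) (by omega)) (by omega)
            (by omega) (by omega)
        · exact fin (d + 5) (sg_add_five h10 hd2) (by omega) (by omega) (by omega)
    · have hd2 : d % 2 = 1 := Nat.odd_iff.mp hdo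
      have hl2 : Even l := by
        rw [Nat.even_mul] at he
        rcases he with he | he
        · exact absurd he (Nat.not_even_iff_odd.mpr hdo)
        · exact he
      have hl2' := Nat.even_iff.mp hl2
      exact fin (2 * (d + 4)) ((sb_add_four h6).double (by omega) (by omega)) (by omega)
        (by omega) (by omega)

theorem sa_range {d l : ℕ} (hd : 3 ≤ d) (hl : 6 * d + 18 ≤ l) (ho : Odd (d * l)) :
    SA d l := by
  rw [Nat.odd_mul] at ho
  obtain ⟨hdo, hlo⟩ := ho
  have hd2 : d % 2 = 1 := Nat.odd_iff.mp hdo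
  have hl2 : l % 2 = 1 := Nat.odd_iff.mp hlo
  rcases Nat.lt_or_ge d 6 with h6 | h6
  · have h3 : d = 3 ∨ d = 5 := by omega
    rcases h3 with rfl | rfl
    · exact (cubic_odd hlo (by right; omega)).sa
    · exact (sb5 (by omega)).sa
  · have := (sb_add_four h6).insertB (by omega)
      (bi_range (d := d) (by omega) (m := (l - (d + 4)) / 2) (by omega)) (by omega)
    have e : d + 4 + 2 * ((l - (d + 4)) / 2) = l := by omega
    rw [e] at this
    exact this.sa

theorem orders_range {d l : ℕ} (hd : 3 ≤ d) (hl : 6 * d + 18 ≤ l) :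
    (Even (d * l) → orders d l = {n | 1 ≤ n}) ∧
    (Odd (d * l) → orders d l = {n | 1 ≤ n ∧ Even n}) :=
  ⟨fun he => (sg_range hd hl he).orders_eq (by omega),
    fun ho => (sa_range hd hl ho).orders_eq_of_odd (by omega) hd ho⟩

end PolyNut
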