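import Pool.Agent.Helper82.Nut.Defs
import Pool.Agent.Helper82.Nut.Core

/-!
From symmetric zero-one matrices with a nowhere zero kernel to polycirculant nut graphs.
-/

namespace PolyNut

open Finset

variable {V : Type} [Fintype V] [DecidableEq V]

/-- A symmetric 0/1 matrix with all row sums `d` (diagonal entries allowed) and a kernel
spanned by a nowhere zero vector. -/
structure Semi (d : ℕ) (M : V → V → ℝ) (x : V → ℝ) : Prop extends NutVec M x where
  zo : ∀ a b, M a b = 0 ∨ M a b = 1
  row : ∀ a, ∑ b, M a b = d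

/-- The cover of the matrix `M` with all voltages `h`, plus one on the arc `u → v`. -/
def coverGraph (M : V → V → ℝ) (u v : V) {n : ℕ} (h : ZMod n) (hh : h + h = 0)
    (hsym : ∀ a b, M a b = M b a) (huv : u ≠ v) (hloop : ∀ a, M a a = 1 → h ≠ 0) :
    SimpleGraph (ZMod n × V) where
  Adj p q := M p.2 q.2 = 1 ∧
    q.1 = p.1 + h + (if p.2 = u ∧ q.2 = v then 1 else 0) - (if p.2 = v ∧ q.2 = u then 1 else 0)
  symm := ⟨by
    rintro ⟨i, a⟩ ⟨j, b⟩ ⟨h1, h2⟩
    refine ⟨by rw [hsym]; exact h1, ?_⟩
    simp only at h1 h2 ⊢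
    have hc1 : (b = u ∧ a = v) ↔ (a = v ∧ b = u) := and_comm
    have hc2 : (b = v ∧ a = u) ↔ (a = u ∧ b = v) := and_comm
    simp only [hc1, hc2]
    rw [h2]
    have : h = -h := by rw [eq_neg_iff_add_eq_zero]; exact hh
    linear_combination (-1 : ZMod n) * hh⟩
  loopless := ⟨by
    rintro ⟨i, a⟩ ⟨h1, h2⟩
    simp only at h1 h2
    have h3 := hloop a h1
    have h4 : ¬ (a = u ∧ a = v) := fun hc => huv (hc.1.symm.trans hc.2)
    have h5 : ¬ (a = v ∧ a = u) := fun hc => huv (hc.2.symm.trans hc.1)
    rw [if_neg h4, if_neg h5] at h2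
    apply h3
    linear_combination -h2⟩

/-- General realisation theorem. -/
theorem mem_orders_of_good {d : ℕ} {M : V → V → ℝ} {x : V → ℝ} (hM : Semi d M x)
    (hcard : 2 ≤ Fintype.card V) {u v : V} (huv : u ≠ v) (hMuv : M u v = 1) {z : V → ℝ}
    (hz : ∀ a, ∑ b, M a b * z b = (if a = u then x v else 0) - (if a = v then x u else 0))
    (hgood : z v / x v - z u / x u ≠ 1) {n : ℕ} (hn : 1 ≤ n) (h : ZMod n) (hh : h + h = 0)
    (hloop : ∀ a, M a a = 1 → h ≠ 0) :
    n ∈ orders d (Fintype.card V) := by
  classical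
  have : NeZero n := ⟨by omega⟩
  set G := coverGraph M u v h hh hM.symm huv hloop with hG
  have hneg : -h = h := by rw [neg_eq_iff_add_eq_zero]; exact hh
  set t : V → V → ZMod n := fun a b =>
    (if a = u ∧ b = v then 1 else 0) - (if a = v ∧ b = u then 1 else 0) with ht
  have hadj : ∀ (i : ZMod n) (a : V) (j : ZMod n) (b : V),
      G.Adj (i, a) (j, b) ↔ (M a b = 1 ∧ j = i + h + t a b) := by
    intro i a j b
    simp only [hG, coverGraph, ht]
    constructor
    · rintro ⟨h1, h2⟩; exact ⟨h1, by rw [h2]; ring⟩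
    · rintro ⟨h1, h2⟩; exact ⟨h1, by rw [h2]; ring⟩
  -- the kernel equation
  have hsum : ∀ (f : ZMod n × V → ℝ) (i : ZMod n) (a : V),
      ∑ q, (G.adjMatrix ℝ) (i, a) q * f q = ∑ b, M a b * f (i + h + t a b, b) := by
    intro f i a
    rw [Fintype.sum_prod_type_right]
    refine Finset.sum_congr rfl fun b _ => ?_
    rcases hM.zo a b with h0 | h1
    · rw [h0, zero_mul]
      refine Finset.sum_eq_zero fun j _ => ?_
      rw [SimpleGraph.adjMatrix_apply, if_neg, zero_mul]
      rw [hadj, h0]; simp
    · rw [Finset.sum_eq_single (i + h + t a b)]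
      · rw [SimpleGraph.adjMatrix_apply, if_pos, h1]
        rw [hadj]; exact ⟨h1, rfl⟩
      · intro j _ hj
        rw [SimpleGraph.adjMatrix_apply, if_neg, zero_mul]
        rw [hadj]; exact fun hc => hj hc.2
      · intro hc; exact absurd (mem_univ _) hc
  -- rewriting with the special arc singled out
  have hsum2 : ∀ (f : ZMod n × V → ℝ) (i : ZMod n) (a : V),
      ∑ b, M a b * f (i + h + t a b, b) = ∑ b, M a b * f (i + h, b)
        + (if a = u then f (i + 1 + h, v) - f (i + h, v) else 0)
        + (if a = v then f (i - 1 + h, u) - f (i + h, u) else 0) := by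
    intro f i a
    have hMvu : M v u = 1 := by rw [hM.symm]; exact hMuv
    have hpt : ∀ b, M a b * f (i + h + t a b, b) = M a b * f (i + h, b)
        + (if b = v then (if a = u then f (i + 1 + h, v) - f (i + h, v) else 0) else 0)
        + (if b = u then (if a = v then f (i - 1 + h, u) - f (i + h, u) else 0) else 0) := by
      intro b
      by_cases hb : b = v
      · subst hb
        by_cases ha : a = u
        · subst ha
          have e1 : t a b = 1 := by simp [ht, huv]
          have e2 : i + h + 1 = i + 1 + h := by ring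
          simp [e1, hMuv, huv.symm, e2]
        · have e1 : t a b = 0 := by simp [ht, ha, huv.symm]
          simp [e1, ha, huv.symm]
      · by_cases hb' : b = u
        · subst hb'
          by_cases ha : a = v
          · subst ha
            have e1 : t a b = -1 := by simp [ht, huv.symm]
            have e2 : i + h + -1 = i - 1 + h := by ring
            simp [e1, hMvu, huv, e2]
          · have e1 : t a b = 0 := by simp [ht, ha, hb]
            simp [e1, ha, hb]
        · have e1 : t a b = 0 := by simp [ht, hb, hb']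
          simp [e1, hb, hb']
    simp_rw [hpt, Finset.sum_add_distrib]
    simp
  -- the kernel
  have hker : ∀ f : ZMod n × V → ℝ, f ∈ LinearMap.ker (G.adjMatrix ℝ).mulVecLin ↔
      ∀ i a, ∑ b, M a b * f (i + h + t a b, b) = 0 := by
    intro f
    rw [LinearMap.mem_ker]
    constructor
    · intro hf i a
      rw [← hsum]
      exact congrFun hf (i, a)
    · intro hf
      funext ⟨i, a⟩
      have := hsum f i a
      rw [hf i a] at this
      exact this
  have hx : (fun p : ZMod n × V => x p.2) ∈ LinearMap.ker (G.adjMatrix ℝ).mulVecLin := by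
    rw [hker]; intro i a; exact hM.ker a
  have hspan : ∀ f ∈ LinearMap.ker (G.adjMatrix ℝ).mulVecLin, ∃ c : ℝ,
      f = c • (fun p : ZMod n × V => x p.2) := by
    intro f hf
    rw [hker] at hf
    obtain ⟨c, hc⟩ := cover hM.toNutVec hz hgood (fun i a => f (i + h, a)) (by
      intro i a
      have h1 := hf i a
      rw [hsum2] at h1
      exact h1)
    refine ⟨c, ?_⟩
    funext ⟨i, a⟩
    have h1 := hc (i - h) a
    simp only [sub_add_cancel] at h1
    simpa using h1
  have : Nonempty V := ⟨u⟩
  refine ⟨hn, ZMod n × V, inferInstance, G, by simp [ZMod.card], ?_, ⟨?_, ?_, _, hx, fun p => hM.ne p.2⟩,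
    ?_⟩
  · rintro ⟨i, a⟩
    have h1 : G.neighborSet (i, a) = ((Finset.univ.filter (fun b => M a b = 1)).image
        (fun b => (i + h + t a b, b)) : Set (ZMod n × V)) := by
      ext ⟨j, b⟩
      simp only [SimpleGraph.mem_neighborSet, hadj, Finset.coe_image, Finset.coe_filter,
        Finset.mem_univ, true_and, Set.mem_image, Set.mem_ofPred_eq, Prod.mk.injEq]
      constructor
      · rintro ⟨h1, h2⟩; exact ⟨b, h1, h2.symm, rfl⟩
      · rintro ⟨b', h1, h2, rfl⟩; exact ⟨h1, h2.symm⟩
    rw [h1, Set.ncard_coe_finset, Finset.card_image_of_injective _ (by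
      intro b b' hb; exact (Prod.mk.inj hb).2)]
    have h2 : ((Finset.univ.filter (fun b => M a b = 1)).card : ℝ) = d := by
      rw [← hM.row a, Finset.card_filter]
      push_cast
      refine Finset.sum_congr rfl fun b _ => ?_
      rcases hM.zo a b with h0 | h0 <;> simp [h0]
    exact_mod_cast h2
  · rw [Fintype.card_prod, ZMod.card]
    nlinarith [hcard]
  · rw [finrank_eq_one_iff']
    refine ⟨⟨_, hx⟩, ?_, ?_⟩
    · intro h0
      have := congrArg Subtype.val h0
      have := congrFun this (0, u)
      exact hM.ne u this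
    · rintro ⟨f, hf⟩
      obtain ⟨c, hc⟩ := hspan f hf
      exact ⟨c, Subtype.ext hc.symm⟩
  · refine ⟨(Equiv.addRight (1 : ZMod n)).prodCongr (Equiv.refl V), ?_, ?_⟩
    · rintro ⟨i, a⟩ ⟨j, b⟩
      show G.Adj (i + 1, a) (j + 1, b) ↔ G.Adj (i, a) (j, b)
      rw [hadj, hadj]
      constructor
      · rintro ⟨h1, h2⟩; exact ⟨h1, by linear_combination h2⟩
      · rintro ⟨h1, h2⟩; exact ⟨h1, by linear_combination h2⟩
    · rintro ⟨i, a⟩ k
      have h1 : ∀ k : ℕ, (((Equiv.addRight (1 : ZMod n)).prodCongr (Equiv.refl V)) ^ k) (i, a)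
          = (i + k, a) := by
        intro k
        induction k with
        | zero => simp
        | succ k ih =>
          rw [pow_succ', Equiv.Perm.mul_apply, ih]
          show (i + (k : ZMod n) + 1, a) = _
          push_cast; rw [add_assoc]
      rw [h1]
      constructor
      · intro h2
        have h3 := (Prod.mk.inj h2).1
        have h4 : ((k : ℕ) : ZMod n) = 0 := by linear_combination h3
        exact (ZMod.natCast_eq_zero_iff k n).mp h4
      · intro h2
        have h4 : ((k : ℕ) : ZMod n) = 0 := (ZMod.natCast_eq_zero_iff k n).mpr h2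
        rw [h4, add_zero]

end PolyNut
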