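import Pool.Agent.Helper82.Nut.Cert

/-! Explicit cubic seeds. -/

namespace PolyNut

def c12R : List (List ℕ) := [[6, 8, 11],
  [3, 4, 11],
  [5, 6, 9],
  [1, 5, 7],
  [1, 8, 9],
  [2, 3, 10],
  [0, 2, 7],
  [3, 6, 10],
  [0, 4, 10],
  [2, 4, 11],
  [5, 7, 8],
  [0, 1, 9]]

def c12X : List ℤ := [-1, -1, -1, -1, -1, -1, -1, 2, -1, 2, 2, 2]

def c12Q : List (List ℤ) := [[0, 0, 0, 0, 0, 0, 0, 0, 0, 0, 0, 0],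
  [0, 0, 0, -2, -2, 0, 0, 0, 0, 0, 2, 2],
  [0, 0, -1, -1, -2, -1, -1, 1, 0, 0, 2, 3],
  [0, -2, -1, -1, -2, -1, -1, 1, 0, 2, 2, 3],
  [0, -2, -2, -2, -4, 0, -2, 2, -2, 2, 4, 6],
  [0, 0, -1, -1, 0, -1, 1, 1, 0, 0, 0, 1],
  [0, 0, -1, -1, -2, 1, -1, -1, 0, 0, 2, 3],
  [0, 0, 1, 1, 2, 1, -1, -1, 0, 0, -2, -3],
  [0, 0, 0, 0, -2, 0, 0, 0, 0, 0, 0, 2],
  [0, 0, 0, 2, 2, 0, 0, 0, 0, 0, -2, -4],
  [0, 2, 2, 2, 4, 0, 2, -2, 0, -2, -4, -6],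
  [0, 2, 3, 3, 6, 1, 3, -3, 2, -4, -6, -9]]

theorem c12_sym : SymCert 12 3 (fun i j : Fin 12 => nb c12R i j) := by decide +kernel

theorem c12_ker : KerCert 12 (fun i j : Fin 12 => nb c12R i j) (fun i => c12X.getD i 0)
    (fun i j => lk c12Q i j) 2 0 := by decide +kernel

theorem c12 : SG 3 12 := by
  refine ⟨_, _, semi_of_cert c12_sym c12_ker, fun a => ?_⟩
  have h : ∀ a : Fin 12, nb c12R a a = 0 := by decide +kernel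
  have := h a
  exact_mod_cast this

def c20R : List (List ℕ) := [[2, 5, 17],
  [8, 12, 15],
  [0, 7, 8],
  [9, 10, 13],
  [11, 13, 17],
  [0, 9, 11],
  [7, 14, 18],
  [2, 6, 9],
  [1, 2, 14],
  [3, 5, 7],
  [3, 14, 17],
  [4, 5, 16],
  [1, 16, 18],
  [3, 4, 19],
  [6, 8, 10],
  [1, 18, 19],
  [11, 12, 19],
  [0, 4, 10],
  [6, 12, 15],
  [13, 15, 16]]

def c20X : List ℤ := [-3, 2, -1, -2, 1, -2, -1, 4, -1, 2, 2, 1, -2, -4, -1, 3, 1, 3, -3, 1]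

def c20Q : List (List ℤ) := [[0, 0, 0, 0, 0, 0, 0, 0, 0, 0, 0, 0, 0, 0, 0, 0, 0, 0, 0, 0],
  [0, 20, -28, -14, -2, -14, 26, 28, -28, 2, 2, -2, -14, -4, 8, -12, 16, 6, -36, 16],
  [0, -28, 23, 25, -8, 25, -4, -50, -4, -19, 8, 19, -2, 11, 5, 6, -17, -30, 45, -17],
  [0, -14, 25, -1, -4, -1, -2, 2, -2, -23, 4, 23, -28, -35, -11, 30, 5, 12, 9, 5],
  [0, -2, -8, -4, -16, -4, -8, 8, -8, 16, 16, -16, -4, -32, 10, 12, 20, -6, -18, 20],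
  [0, -14, 25, -1, -4, -1, -2, 2, -2, -23, 4, -31, 26, 19, -11, -24, 5, 12, 9, 5],
  [0, 26, -4, -2, -8, -2, -4, 4, -4, 8, 8, -8, -2, -16, -22, 6, 10, 24, -36, 10],
  [0, 28, -50, 2, 8, 2, 4, -4, 4, -8, -8, 8, 2, 16, 22, -6, -10, -24, -18, -10],
  [0, -28, -4, -2, -8, -2, -4, 4, -4, 8, 8, -8, -2, -16, -22, 6, 10, 24, 18, 10],
  [0, 2, -19, -23, 16, -23, 8, -8, 8, 11, -16, -11, 4, 5, 17, -12, 7, 6, -9, 7],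
  [0, 2, 8, 4, 16, 4, 8, -8, 8, -16, -16, 16, 4, 32, -10, -12, -20, -48, 18, -20],
  [0, -2, 19, 23, -16, -31, -8, 8, -8, -11, 16, 11, -4, -5, -17, 12, -7, -6, 9, -7],
  [0, -14, -2, -28, -4, 26, -2, 2, -2, 4, 4, -4, -28, -8, 16, 30, -22, 12, -18, 32],
  [0, -4, 11, -35, -32, 19, -16, 16, -16, 5, 32, -5, -8, -37, -7, 24, 13, 42, -9, 13],
  [0, 8, 5, -11, 10, -11, -22, 22, -22, 17, -10, -17, 16, -7, -13, 6, 1, 24, -9, 1],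
  [0, -12, 6, 30, 12, -24, 6, -6, 6, -12, -12, 12, 30, 24, 6, -36, 12, -36, 0, -42],
  [0, 16, -17, 5, 20, 5, 10, -10, 10, 7, -20, -7, -22, 13, 1, 12, -25, -6, 9, -25],
  [0, 6, -30, 12, -6, 12, 24, -24, 24, 6, -48, -6, 12, 42, 24, -36, -6, -36, 0, -6],
  [0, -36, 45, 9, -18, 9, -36, -18, 18, -9, 18, 9, -18, -9, -9, 0, 9, 0, 27, 9],
  [0, 16, -17, 5, 20, 5, 10, -10, 10, 7, -20, -7, 32, 13, 1, -42, -25, -6, 9, -25]]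

theorem c20_sym : SymCert 20 3 (fun i j : Fin 20 => nb c20R i j) := by decide +kernel

theorem c20_ker : KerCert 20 (fun i j : Fin 20 => nb c20R i j) (fun i => c20X.getD i 0)
    (fun i j => lk c20Q i j) 18 0 := by decide +kernel

theorem c20 : SG 3 20 := by
  refine ⟨_, _, semi_of_cert c20_sym c20_ker, fun a => ?_⟩
  have h : ∀ a : Fin 20, nb c20R a a = 0 := by decide +kernel
  have := h a
  exact_mod_cast this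

def c22R : List (List ℕ) := [[2, 6, 20],
  [7, 19, 21],
  [0, 14, 19],
  [9, 11, 17],
  [13, 20, 21],
  [8, 11, 18],
  [0, 16, 17],
  [1, 12, 16],
  [5, 15, 18],
  [3, 11, 17],
  [12, 14, 16],
  [3, 5, 9],
  [7, 10, 13],
  [4, 12, 20],
  [2, 10, 15],
  [8, 14, 18],
  [6, 7, 10],
  [3, 6, 9],
  [5, 8, 15],
  [1, 2, 21],
  [0, 4, 13],
  [1, 4, 19]]

def c22X : List ℤ := [-1, -2, 1, -1, -1, 2, 2, -4, 1, -1, 2, -2, 4, 2, -2, -3, -2, 3, 1, 3, -3, 1]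

def c22Q : List (List ℤ) := [[0, 0, 0, 0, 0, 0, 0, 0, 0, 0, 0, 0, 0, 0, 0, 0, 0, 0, 0, 0, 0, 0],
  [0, 4, 4, 0, 0, 0, 0, 6, -2, 0, -6, 4, -8, 0, 4, 2, 4, -4, -2, -4, 8, -8],
  [0, 4, -5, 3, 6, -6, -6, 9, -2, 3, -3, 4, -11, -6, 4, 8, 7, -7, -2, -10, 5, 1],
  [0, 0, 3, 3, 0, 0, 0, 3, 0, -3, -3, 0, -3, 0, 0, 0, 3, -3, 0, 0, 3, -3],
  [0, 0, 6, 0, 0, 0, 0, 6, 0, 0, -6, 0, 0, 0, 0, 0, 0, 0, 0, 0, 0, -6],
  [0, 0, -6, 0, 0, 0, 0, -6, 0, 0, 6, -6, 6, 0, 0, 0, -6, 6, 0, 0, -6, 6],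
  [0, 0, -6, 0, 0, 0, 0, -6, 0, 0, 6, 0, 6, 0, 0, 0, -6, 0, 0, 0, -6, 6],
  [0, 6, 9, 3, 6, -6, -6, 27, -6, 3, -21, 12, -27, -6, 12, 12, 15, -15, -6, -12, 21, -15],
  [0, -2, -2, 0, 0, 0, 0, -6, 4, 0, 6, -2, 4, 0, -2, -4, -2, 2, -2, 2, -4, 4],
  [0, 0, 3, -3, 0, 0, 0, 3, 0, 3, -3, 0, -3, 0, 0, 0, 3, -3, 0, 0, 3, -3],
  [0, -6, -3, -3, -6, 6, 6, -21, 6, -3, 15, -12, 21, 6, -12, -12, -15, 15, 6, 12, -15, 9],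
  [0, 4, 4, 0, 0, -6, 0, 12, -2, 0, -12, 4, -8, 0, 4, 8, 4, -4, -2, -4, 8, -8],
  [0, -8, -11, -3, 0, 6, 6, -27, 4, -3, 21, -8, 19, 0, -8, -10, -11, 11, 4, 8, -19, 19],
  [0, 0, -6, 0, 0, 0, 0, -6, 0, 0, 6, 0, 0, 0, 0, 0, 0, 0, 0, 0, -6, 6],
  [0, 4, 4, 0, 0, 0, 0, 12, -2, 0, -12, 4, -8, 0, 4, 2, 4, -4, -2, -4, 8, -8],
  [0, 2, 8, 0, 0, 0, 0, 12, -4, 0, -12, 8, -10, 0, 2, 4, 8, -8, -4, -2, 10, -10],
  [0, 4, 7, 3, 0, -6, -6, 15, -2, 3, -15, 4, -11, 0, 4, 8, 7, -7, -2, -4, 11, -11],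
  [0, -4, -7, -3, 0, 6, 0, -15, 2, -3, 15, -4, 11, 0, -4, -8, -7, 7, 2, 4, -11, 11],
  [0, -2, -2, 0, 0, 0, 0, -6, -2, 0, 6, -2, 4, 0, -2, -4, -2, 2, 4, 2, -4, 4],
  [0, -4, -10, 0, 0, 0, 0, -12, 2, 0, 12, -4, 8, 0, -4, -2, -4, 4, 2, 4, -8, 8],
  [0, 8, 5, 3, 0, -6, -6, 21, -4, 3, -15, 8, -19, -6, 8, 10, 11, -11, -4, -8, 19, -13],
  [0, -8, 1, -3, -6, 6, 6, -15, 4, -3, 9, -8, 19, 6, -8, -10, -11, 11, 4, 8, -13, 7]]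

theorem c22_sym : SymCert 22 3 (fun i j : Fin 22 => nb c22R i j) := by decide +kernel

theorem c22_ker : KerCert 22 (fun i j : Fin 22 => nb c22R i j) (fun i => c22X.getD i 0)
    (fun i j => lk c22Q i j) 6 0 := by decide +kernel

theorem c22 : SG 3 22 := by
  refine ⟨_, _, semi_of_cert c22_sym c22_ker, fun a => ?_⟩
  have h : ∀ a : Fin 22, nb c22R a a = 0 := by decide +kernel
  have := h a
  exact_mod_cast this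

def c9R : List (List ℕ) := [[2, 3, 4],
  [2, 6, 8],
  [0, 1, 5],
  [0, 3, 5],
  [0, 6, 8],
  [2, 3, 7],
  [1, 4, 7],
  [5, 6, 7],
  [1, 4, 8]]

def c9X : List ℤ := [1, -2, 1, -2, 1, 1, -2, 1, 1]

def c9Q : List (List ℤ) := [[0, 0, 0, 0, 0, 0, 0, 0, 0],
  [0, 0, 1, 0, 1, 0, 1, -1, -1],
  [0, 1, 0, 0, -1, 0, 0, 0, 0],
  [0, 0, 0, 1, 1, 0, 1, -1, -1],
  [0, 1, -1, 1, -1, -1, 1, 0, 0],
  [0, 0, 0, 0, -1, 0, -1, 1, 1],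
  [0, 1, 0, 1, 1, -1, 2, -1, -2],
  [0, -1, 0, -1, 0, 1, -1, 1, 1],
  [0, -1, 0, -1, 0, 1, -2, 1, 2]]

theorem c9_sym : SymCert 9 3 (fun i j : Fin 9 => nb c9R i j) := by decide +kernel

theorem c9_ker : KerCert 9 (fun i j : Fin 9 => nb c9R i j) (fun i => c9X.getD i 0)
    (fun i j => lk c9Q i j) 1 0 := by decide +kernel

theorem c9 : SA' 3 9 := by
  refine ⟨_, _, semi_of_cert c9_sym c9_ker, ⟨0, by norm_num⟩, ?_⟩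
  have h : nb c9R 0 0 = 0 := by decide +kernel
  exact_mod_cast h

def c17R : List (List ℕ) := [[6, 14, 15],
  [1, 3, 14],
  [3, 7, 11],
  [1, 2, 16],
  [8, 9, 11],
  [5, 7, 12],
  [0, 6, 8],
  [2, 5, 10],
  [4, 6, 13],
  [4, 9, 14],
  [7, 13, 15],
  [2, 4, 12],
  [5, 11, 12],
  [8, 10, 13],
  [0, 1, 9],
  [0, 10, 16],
  [3, 15, 16]]

def c17X : List ℤ := [1, -4, 3, 2, -5, -1, 1, -1, -2, 3, -2, -1, 2, 4, 2, -3, 1]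

def c17Q : List (List ℤ) := [[0, 0, 0, 0, 0, 0, 0, 0, 0, 0, 0, 0, 0, 0, 0, 0, 0],
  [0, -16, 13, 8, -27, -10, 12, -4, -12, 16, -3, -4, 14, 15, 11, -11, 3],
  [0, 13, -10, -5, 21, 7, -9, 4, 9, -13, 3, 4, -11, -12, -8, 8, -3],
  [0, 8, -5, -4, 12, 5, -6, 2, 6, -8, 0, 2, -7, -6, -4, 4, 0],
  [0, -27, 21, 12, -42, -15, 18, -6, -18, 27, -6, -6, 21, 24, 15, -18, 6],
  [0, -10, 7, 5, -15, -4, 6, -1, -6, 10, -3, -4, 8, 9, 5, -8, 3],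
  [0, 12, -9, -6, 18, 6, -6, 3, 9, -12, 3, 3, -9, -12, -6, 9, -3],
  [0, -4, 4, 2, -6, -1, 3, -1, -3, 4, 0, -1, 2, 3, 2, -2, 0],
  [0, -12, 9, 6, -18, -6, 9, -3, -9, 12, -3, -3, 9, 12, 6, -9, 3],
  [0, 16, -13, -8, 27, 10, -12, 4, 12, -16, 3, 4, -14, -15, -8, 11, -3],
  [0, -3, 3, 0, -6, -3, 3, 0, -3, 3, 0, 0, 3, 3, 3, 0, 0],
  [0, -4, 4, 2, -6, -4, 3, -1, -3, 4, 0, -1, 5, 3, 2, -2, 0],
  [0, 14, -11, -7, 21, 8, -9, 2, 9, -14, 3, 5, -10, -12, -7, 10, -3],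
  [0, 15, -12, -6, 24, 9, -12, 3, 12, -15, 3, 3, -12, -12, -9, 9, -3],
  [0, 11, -8, -4, 15, 5, -6, 2, 6, -8, 3, 2, -7, -9, -7, 7, -3],
  [0, -11, 8, 4, -18, -8, 9, -2, -9, 11, 0, -2, 10, 9, 7, -7, 3],
  [0, 3, -3, 0, 6, 3, -3, 0, 3, -3, 0, 0, -3, -3, -3, 3, 0]]

theorem c17_sym : SymCert 17 3 (fun i j : Fin 17 => nb c17R i j) := by decide +kernel

theorem c17_ker : KerCert 17 (fun i j : Fin 17 => nb c17R i j) (fun i => c17X.getD i 0)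
    (fun i j => lk c17Q i j) 3 0 := by decide +kernel

theorem c17 : SA' 3 17 := by
  refine ⟨_, _, semi_of_cert c17_sym c17_ker, ⟨0, by norm_num⟩, ?_⟩
  have h : nb c17R 0 0 = 0 := by decide +kernel
  exact_mod_cast h

def c19R : List (List ℕ) := [[0, 4, 18],
  [2, 8, 14],
  [1, 5, 10],
  [14, 15, 17],
  [0, 8, 13],
  [2, 11, 16],
  [15, 16, 18],
  [9, 10, 11],
  [1, 4, 8],
  [7, 11, 12],
  [2, 7, 13],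
  [5, 7, 9],
  [9, 12, 14],
  [4, 10, 16],
  [1, 3, 12],
  [3, 6, 15],
  [5, 6, 13],
  [3, 17, 18],
  [0, 6, 17]]

def c19X : List ℤ := [1, 4, -5, 2, -2, -3, 2, 4, -2, -1, -1, 2, -6, 1, 7, -4, 3, -3, 1]

def c19Q : List (List ℤ) := [[0, 0, 0, 0, 0, 0, 0, 0, 0, 0, 0, 0, 0, 0, 0, 0, 0, 0, 0],
  [0, 39, -51, 18, -30, -33, 24, 42, -9, -9, -6, 15, -57, 9, 66, -42, 36, -24, 6],
  [0, -51, 69, -24, 36, 45, -30, -54, 15, 9, 12, -21, 75, -15, -84, 54, -48, 30, -6],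
  [0, 18, -24, 8, -12, -14, 8, 18, -6, -4, -4, 8, -26, 6, 30, -16, 16, -8, 0],
  [0, -30, 36, -12, 18, 24, -18, -30, 12, 6, 6, -12, 42, -6, -48, 30, -24, 18, -6],
  [0, -33, 45, -14, 24, 29, -20, -36, 9, 7, 4, -11, 47, -9, -54, 34, -28, 20, -6],
  [0, 24, -30, 8, -18, -20, 14, 24, -6, -4, -4, 8, -32, 6, 36, -22, 22, -14, 6],
  [0, 42, -54, 18, -30, -36, 24, 42, -12, -6, -6, 18, -60, 12, 66, -42, 36, -24, 6],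
  [0, -9, 15, -6, 12, 9, -6, -12, 3, 3, 0, -3, 15, -3, -18, 12, -12, 6, 0],
  [0, -9, 9, -4, 6, 7, -4, -6, 3, -1, 2, -1, 13, -3, -12, 8, -8, 4, 0],
  [0, -6, 12, -4, 6, 4, -4, -6, 0, 2, 2, -4, 10, 0, -12, 8, -8, 4, 0],
  [0, 15, -21, 8, -12, -11, 8, 18, -3, -1, -4, 5, -23, 3, 24, -16, 16, -8, 0],
  [0, -57, 75, -26, 42, 47, -32, -60, 15, 13, 10, -23, 83, -15, -90, 58, -52, 32, -6],
  [0, 9, -15, 6, -6, -9, 6, 12, -3, -3, 0, 3, -15, 3, 18, -12, 12, -6, 0],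
  [0, 66, -84, 30, -48, -54, 36, 66, -18, -12, -12, 24, -90, 18, 102, -66, 60, -36, 6],
  [0, -42, 54, -16, 30, 34, -22, -42, 12, 8, 8, -16, 58, -12, -66, 44, -38, 22, -6],
  [0, 36, -48, 16, -24, -28, 22, 36, -12, -8, -8, 16, -52, 12, 60, -38, 32, -22, 6],
  [0, -24, 30, -8, 18, 20, -14, -24, 6, 4, 4, -8, 32, -6, -36, 22, -22, 14, 0],
  [0, 6, -6, 0, -6, -6, 6, 6, 0, 0, 0, 0, -6, 0, 6, -6, 6, 0, 0]]

theorem c19_sym : SymCert 19 3 (fun i j : Fin 19 => nb c19R i j) := by decide +kernel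

theorem c19_ker : KerCert 19 (fun i j : Fin 19 => nb c19R i j) (fun i => c19X.getD i 0)
    (fun i j => lk c19Q i j) 6 0 := by decide +kernel

theorem c19 : SA' 3 19 := by
  refine ⟨_, _, semi_of_cert c19_sym c19_ker, ⟨1, by norm_num⟩, ?_⟩
  have h : nb c19R 1 1 = 0 := by decide +kernel
  exact_mod_cast h

end PolyNut
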