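import Pool.Agent.Helper82.Nut.Closure

/-! Explicit seeds with semi-edges, degree 4. -/

namespace PolyNut

def s4_10R : List (List ℕ) := [[0, 2, 5, 7],
  [3, 4, 5, 7],
  [0, 2, 6, 9],
  [1, 3, 4, 9],
  [1, 3, 5, 6],
  [0, 1, 4, 8],
  [2, 4, 8, 9],
  [0, 1, 7, 8],
  [5, 6, 7, 8],
  [2, 3, 6, 9]]

def s4_10X : List ℤ := [1, -1, -1, 1, -1, 1, -1, -1, 1, 1]

def s4_10Q : List (List ℤ) := [[0, 0, 0, 0, 0, 0, 0, 0, 0, 0],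
  [0, 0, 1, 0, 1, 0, 0, 1, -1, -1],
  [0, 1, 1, -2, 1, 0, 1, 1, -2, 0],
  [0, 0, -2, 0, 0, 0, 0, 0, 0, 2],
  [0, 1, 1, 0, -1, 2, -1, -1, 0, 0],
  [0, 0, 0, 0, 2, -2, 2, 0, 0, -2],
  [0, 0, 1, 0, -1, 2, -2, -1, 1, 1],
  [0, 1, 1, 0, -1, 0, -1, 1, 0, 0],
  [0, -1, -2, 0, 0, 0, 1, 0, 1, 1],
  [0, -1, 0, 2, 0, -2, 1, 0, 1, -1]]

theorem s4_10_sym : SymCert 10 4 (fun i j : Fin 10 => nb s4_10R i j) := by decide +kernel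

theorem s4_10_ker : KerCert 10 (fun i j : Fin 10 => nb s4_10R i j) (fun i => s4_10X.getD i 0)
    (fun i j => lk s4_10Q i j) 2 0 := by decide +kernel

theorem s4_10 : SB 4 10 := by
  refine ⟨_, _, semi_of_cert s4_10_sym s4_10_ker, ⟨⟨1, by norm_num⟩, ?_⟩,
    ⟨⟨0, by norm_num⟩, ?_⟩⟩
  · have h : nb s4_10R 1 1 = 0 := by decide +kernel
    exact_mod_cast h
  · have h : nb s4_10R 0 0 = 1 := by decide +kernel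
    exact_mod_cast h

def s4_11R : List (List ℕ) := [[0, 3, 4, 7],
  [6, 7, 9, 10],
  [2, 3, 6, 8],
  [0, 2, 9, 10],
  [0, 5, 8, 9],
  [4, 6, 7, 9],
  [1, 2, 5, 10],
  [0, 1, 5, 7],
  [2, 4, 8, 10],
  [1, 3, 4, 5],
  [1, 3, 6, 8]]

def s4_11X : List ℤ := [2, -1, -1, -1, 1, 1, 3, -2, -1, -2, 1]

def s4_11Q : List (List ℤ) := [[0, 0, 0, 0, 0, 0, 0, 0, 0, 0, 0],
  [0, -9, -9, 7, -3, 5, 3, 4, -1, -4, 13],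
  [0, -9, 7, 7, -3, 5, 3, 4, -1, -4, -3],
  [0, 7, 7, 7, -3, -11, -13, 4, -1, 12, -3],
  [0, -3, -3, -3, -1, 7, 1, -4, 5, 4, -1],
  [0, 5, 5, -11, 7, -1, 9, -4, -3, 4, -9],
  [0, 3, 3, -13, 1, 9, 15, -12, -5, -4, 1],
  [0, 4, 4, 4, -4, -4, -12, 16, 4, 0, -4],
  [0, -1, -1, -1, 5, -3, -5, 4, 7, -4, 5],
  [0, -4, -4, 12, 4, 4, -4, 0, -4, 0, 4],
  [0, 13, -3, -3, -1, -9, 1, -4, 5, 4, -1]]

theorem s4_11_sym : SymCert 11 4 (fun i j : Fin 11 => nb s4_11R i j) := by decide +kernel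

theorem s4_11_ker : KerCert 11 (fun i j : Fin 11 => nb s4_11R i j) (fun i => s4_11X.getD i 0)
    (fun i j => lk s4_11Q i j) 8 0 := by decide +kernel

theorem s4_11 : SB 4 11 := by
  refine ⟨_, _, semi_of_cert s4_11_sym s4_11_ker, ⟨⟨1, by norm_num⟩, ?_⟩,
    ⟨⟨0, by norm_num⟩, ?_⟩⟩
  · have h : nb s4_11R 1 1 = 0 := by decide +kernel
    exact_mod_cast h
  · have h : nb s4_11R 0 0 = 1 := by decide +kernel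
    exact_mod_cast h

def s4_12R : List (List ℕ) := [[0, 5, 8, 9],
  [1, 6, 7, 10],
  [2, 6, 10, 11],
  [3, 4, 8, 10],
  [3, 5, 7, 9],
  [0, 4, 9, 11],
  [1, 2, 7, 11],
  [1, 4, 6, 11],
  [0, 3, 9, 10],
  [0, 4, 5, 8],
  [1, 2, 3, 8],
  [2, 5, 6, 7]]

def s4_12X : List ℤ := [1, -1, -1, 1, -1, -1, 1, 1, 1, -1, -1, 1]

def s4_12Q : List (List ℤ) := [[0, 0, 0, 0, 0, 0, 0, 0, 0, 0, 0, 0],
  [0, 0, -1, -1, -1, -1, 1, 1, 2, 1, 0, 0],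
  [0, -1, -1, 0, -2, 0, 1, 0, 2, 0, 0, 2],
  [0, -1, 0, 1, 1, -1, 0, 1, 0, -1, 0, 0],
  [0, -1, -2, 1, -2, 0, 1, 1, 2, 0, -1, 2],
  [0, -1, 0, -1, 0, -2, 1, 1, 2, 2, -1, 0],
  [0, 1, 1, 0, 1, 1, -2, 0, -2, -1, 1, 0],
  [0, 1, 0, 1, 1, 1, 0, -1, -2, -1, 0, 0],
  [0, 2, 2, 0, 2, 2, -2, -2, -4, 0, 2, -2],
  [0, 1, 0, -1, 0, 2, -1, -1, 0, 0, 1, 0],
  [0, 0, 0, 0, -1, -1, 1, 0, 2, 1, -1, 0],
  [0, 0, 2, 0, 2, 0, 0, 0, -2, 0, 0, -2]]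

theorem s4_12_sym : SymCert 12 4 (fun i j : Fin 12 => nb s4_12R i j) := by decide +kernel

theorem s4_12_ker : KerCert 12 (fun i j : Fin 12 => nb s4_12R i j) (fun i => s4_12X.getD i 0)
    (fun i j => lk s4_12Q i j) 2 0 := by decide +kernel

theorem s4_12 : SB 4 12 := by
  refine ⟨_, _, semi_of_cert s4_12_sym s4_12_ker, ⟨⟨4, by norm_num⟩, ?_⟩,
    ⟨⟨0, by norm_num⟩, ?_⟩⟩
  · have h : nb s4_12R 4 4 = 0 := by decide +kernel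
    exact_mod_cast h
  · have h : nb s4_12R 0 0 = 1 := by decide +kernel
    exact_mod_cast h

def s4_13R : List (List ℕ) := [[4, 8, 9, 12],
  [4, 7, 9, 10],
  [2, 9, 10, 12],
  [6, 7, 10, 12],
  [0, 1, 5, 11],
  [4, 5, 6, 8],
  [3, 5, 7, 9],
  [1, 3, 6, 11],
  [0, 5, 8, 10],
  [0, 1, 2, 6],
  [1, 2, 3, 8],
  [4, 7, 11, 12],
  [0, 2, 3, 11]]

def s4_13X : List ℤ := [1, 1, -1, 3, 3, 1, -1, -2, -3, -2, 1, -3, 2]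

def s4_13Q : List (List ℤ) := [[0, 0, 0, 0, 0, 0, 0, 0, 0, 0, 0, 0, 0],
  [0, 2, 0, 4, 6, 2, -2, -2, -6, -4, 4, -4, 0],
  [0, 0, 0, 0, 0, 0, 0, -2, 0, 2, 0, 0, 2],
  [0, 4, 0, 12, 12, 8, -4, -6, -16, -14, 8, -12, 6],
  [0, 6, 0, 12, 14, 10, -6, -8, -18, -14, 8, -12, 6],
  [0, 2, 0, 8, 10, 6, -2, -6, -10, -8, 4, -8, 4],
  [0, -2, 0, -4, -6, -2, 2, 4, 6, 6, -4, 4, -2],
  [0, -2, -2, -6, -8, -6, 4, 3, 10, 9, -4, 8, -3],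
  [0, -6, 0, -16, -18, -10, 6, 10, 22, 16, -8, 16, -8],
  [0, -4, 2, -14, -14, -8, 6, 9, 16, 13, -8, 12, -7],
  [0, 4, 0, 8, 8, 4, -4, -4, -8, -8, 4, -8, 4],
  [0, -4, 0, -12, -12, -8, 4, 8, 16, 12, -8, 12, -4],
  [0, 0, 2, 6, 6, 4, -2, -3, -8, -7, 4, -4, 1]]

theorem s4_13_sym : SymCert 13 4 (fun i j : Fin 13 => nb s4_13R i j) := by decide +kernel

theorem s4_13_ker : KerCert 13 (fun i j : Fin 13 => nb s4_13R i j) (fun i => s4_13X.getD i 0)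
    (fun i j => lk s4_13Q i j) 4 0 := by decide +kernel

theorem s4_13 : SB 4 13 := by
  refine ⟨_, _, semi_of_cert s4_13_sym s4_13_ker, ⟨⟨0, by norm_num⟩, ?_⟩,
    ⟨⟨2, by norm_num⟩, ?_⟩⟩
  · have h : nb s4_13R 0 0 = 0 := by decide +kernel
    exact_mod_cast h
  · have h : nb s4_13R 2 2 = 1 := by decide +kernel
    exact_mod_cast h

def s4_14R : List (List ℕ) := [[0, 8, 9, 13],
  [1, 6, 7, 10],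
  [2, 3, 8, 12],
  [2, 4, 7, 13],
  [3, 9, 11, 12],
  [6, 8, 9, 10],
  [1, 5, 6, 10],
  [1, 3, 8, 13],
  [0, 2, 5, 7],
  [0, 4, 5, 13],
  [1, 5, 6, 11],
  [4, 10, 11, 12],
  [2, 4, 11, 12],
  [0, 3, 7, 9]]

def s4_14X : List ℤ := [1, -1, 1, 1, -1, -1, 1, -1, -1, -1, 1, 1, -1, 1]

def s4_14Q : List (List ℤ) := [[0, 0, 0, 0, 0, 0, 0, 0, 0, 0, 0, 0, 0, 0],
  [0, 2, -2, -3, 0, 0, 0, 2, 1, 1, -2, -2, 4, 0],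
  [0, -2, 0, 2, 0, 0, 2, 0, 0, -2, 0, 0, 0, 0],
  [0, -3, 2, 3, -1, -1, 2, -1, -2, -2, 2, 2, -3, 2],
  [0, 0, 0, -1, -2, 0, 0, 0, -1, 1, 0, 0, 2, 2],
  [0, 0, 0, -1, 0, 0, 0, 0, 1, 1, 0, 0, 0, 0],
  [0, 0, 2, 2, 0, 0, 0, -2, -2, 0, 2, 0, -2, 0],
  [0, 2, 0, -1, 0, 0, -2, 0, 1, 1, 0, 0, 0, 0],
  [0, 1, 0, -2, -1, 1, -2, 1, 1, 1, 0, 0, 1, 0],
  [0, 1, -2, -2, 1, 1, 0, 1, 1, 1, -2, -2, 3, 0],
  [0, -2, 0, 2, 0, 0, 2, 0, 0, -2, 0, 2, -2, 0],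
  [0, -2, 0, 2, 0, 0, 0, 0, 0, -2, 2, 2, -2, 0],
  [0, 4, 0, -3, 2, 0, -2, 0, 1, 3, -2, -2, 2, -2],
  [0, 0, 0, 2, 2, 0, 0, 0, 0, 0, 0, 0, -2, -2]]

theorem s4_14_sym : SymCert 14 4 (fun i j : Fin 14 => nb s4_14R i j) := by decide +kernel

theorem s4_14_ker : KerCert 14 (fun i j : Fin 14 => nb s4_14R i j) (fun i => s4_14X.getD i 0)
    (fun i j => lk s4_14Q i j) 2 0 := by decide +kernel

theorem s4_14 : SB 4 14 := by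
  refine ⟨_, _, semi_of_cert s4_14_sym s4_14_ker, ⟨⟨3, by norm_num⟩, ?_⟩,
    ⟨⟨0, by norm_num⟩, ?_⟩⟩
  · have h : nb s4_14R 3 3 = 0 := by decide +kernel
    exact_mod_cast h
  · have h : nb s4_14R 0 0 = 1 := by decide +kernel
    exact_mod_cast h

def s4_15R : List (List ℕ) := [[1, 2, 4, 7],
  [0, 2, 6, 12],
  [0, 1, 9, 13],
  [3, 4, 5, 14],
  [0, 3, 6, 10],
  [3, 7, 10, 11],
  [1, 4, 9, 11],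
  [0, 5, 11, 14],
  [8, 10, 11, 14],
  [2, 6, 12, 13],
  [4, 5, 8, 13],
  [5, 6, 7, 8],
  [1, 9, 12, 13],
  [2, 9, 10, 12],
  [3, 7, 8, 14]]

def s4_15X : List ℤ := [1, -3, -3, -3, 3, -2, 1, 3, -2, 1, 1, -1, 1, 1, 2]

def s4_15Q : List (List ℤ) := [[0, 0, 0, 0, 0, 0, 0, 0, 0, 0, 0, 0, 0, 0, 0],
  [0, 12, 8, 4, -4, 4, -4, -4, 4, -8, 0, 0, 0, -4, -4],
  [0, 8, 6, 0, -2, 2, -2, 0, 0, -4, 2, -2, -4, 0, 0],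
  [0, 4, 0, -4, 4, 0, 0, 4, -4, -4, 4, -4, 0, 0, 4],
  [0, -4, -2, 4, -2, 0, 2, -4, 2, 4, -2, 2, 0, 0, -2],
  [0, 4, 2, 0, 0, 1, -2, 2, -1, -4, 2, 0, 0, 0, -1],
  [0, -4, -2, 0, 2, -2, 2, 0, 0, 4, -2, 2, 0, 0, 0],
  [0, -4, 0, 4, -4, 2, 0, -4, 2, 4, -4, 4, 0, 0, -2],
  [0, 4, 0, -4, 2, -1, 0, 2, -1, -4, 4, -2, 0, 0, 3],
  [0, -8, -4, -4, 4, -4, 4, 4, -4, 4, 0, 0, 0, 4, 4],
  [0, 0, 2, 4, -2, 2, -2, -4, 4, 0, -2, 2, 0, 0, -4],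
  [0, 0, -2, -4, 2, 0, 2, 4, -2, 0, 2, -2, 0, 0, 2],
  [0, 0, -4, 0, 0, 0, 0, 0, 0, 0, 0, 0, 4, 0, 0],
  [0, -4, 0, 0, 0, 0, 0, 0, 0, 4, 0, 0, 0, 0, 0],
  [0, -4, 0, 4, -2, -1, 0, -2, 3, 4, -4, 2, 0, 0, -1]]

theorem s4_15_sym : SymCert 15 4 (fun i j : Fin 15 => nb s4_15R i j) := by decide +kernel

theorem s4_15_ker : KerCert 15 (fun i j : Fin 15 => nb s4_15R i j) (fun i => s4_15X.getD i 0)
    (fun i j => lk s4_15Q i j) 4 0 := by decide +kernel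

theorem s4_15 : SB 4 15 := by
  refine ⟨_, _, semi_of_cert s4_15_sym s4_15_ker, ⟨⟨0, by norm_num⟩, ?_⟩,
    ⟨⟨3, by norm_num⟩, ?_⟩⟩
  · have h : nb s4_15R 0 0 = 0 := by decide +kernel
    exact_mod_cast h
  · have h : nb s4_15R 3 3 = 1 := by decide +kernel
    exact_mod_cast h

def s4_16R : List (List ℕ) := [[0, 10, 11, 12],
  [2, 7, 8, 9],
  [1, 2, 11, 13],
  [3, 7, 8, 9],
  [4, 5, 7, 9],
  [4, 5, 12, 14],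
  [8, 10, 11, 13],
  [1, 3, 4, 7],
  [1, 3, 6, 8],
  [1, 3, 4, 10],
  [0, 6, 9, 10],
  [0, 2, 6, 11],
  [0, 5, 12, 15],
  [2, 6, 14, 15],
  [5, 13, 14, 15],
  [12, 13, 14, 15]]

def s4_16X : List ℤ := [1, 1, -1, -1, 1, -1, -1, -1, 1, 1, -1, 1, -1, -1, 1, 1]

def s4_16Q : List (List ℤ) := [[0, 0, 0, 0, 0, 0, 0, 0, 0, 0, 0, 0, 0, 0, 0, 0],
  [0, -4, 6, 2, 0, 2, 2, 2, 0, -4, 2, -8, 2, 6, -4, -4],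
  [0, 6, -3, -3, -2, -1, -3, -1, 0, 4, -1, 6, -1, -5, 4, 2],
  [0, 2, -3, 1, -2, -1, -3, -1, 0, 4, -1, 6, -1, -5, 4, 2],
  [0, 0, -2, -2, 6, -2, 0, -4, 2, 4, -4, 2, -2, 0, -2, 4],
  [0, 2, -1, -1, -2, 1, -1, 1, 0, 0, 1, 2, 1, -3, 4, -2],
  [0, 2, -3, -3, 0, -1, -1, 1, 2, 0, 1, 4, -1, -3, 2, 2],
  [0, 2, -1, -1, -4, 1, 1, 7, -2, -4, 3, 0, 1, -1, 2, -2],
  [0, 0, 0, 0, 2, 0, 2, -2, 2, 0, -2, -2, 0, 2, -2, 0],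
  [0, -4, 4, 4, 4, 0, 0, -4, 0, 0, 0, -4, 0, 4, -4, 0],
  [0, 2, -1, -1, -4, 1, 1, 3, -2, 0, 3, 0, 1, -1, 2, -2],
  [0, -8, 6, 6, 2, 2, 4, 0, -2, -4, 0, -6, 2, 8, -6, -4],
  [0, 2, -1, -1, -2, 1, -1, 1, 0, 0, 1, 2, 1, -3, 0, 2],
  [0, 6, -5, -5, 0, -3, -3, -1, 2, 4, -1, 8, -3, -9, 6, 6],
  [0, -4, 4, 4, -2, 4, 2, 2, -2, -4, 2, -6, 0, 6, -2, -4],
  [0, -4, 2, 2, 4, -2, 2, -2, 0, 0, -2, -4, 2, 6, -4, 0]]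

theorem s4_16_sym : SymCert 16 4 (fun i j : Fin 16 => nb s4_16R i j) := by decide +kernel

theorem s4_16_ker : KerCert 16 (fun i j : Fin 16 => nb s4_16R i j) (fun i => s4_16X.getD i 0)
    (fun i j => lk s4_16Q i j) 4 0 := by decide +kernel

theorem s4_16 : SB 4 16 := by
  refine ⟨_, _, semi_of_cert s4_16_sym s4_16_ker, ⟨⟨1, by norm_num⟩, ?_⟩,
    ⟨⟨0, by norm_num⟩, ?_⟩⟩
  · have h : nb s4_16R 1 1 = 0 := by decide +kernel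
    exact_mod_cast h
  · have h : nb s4_16R 0 0 = 1 := by decide +kernel
    exact_mod_cast h

def s4_17R : List (List ℕ) := [[3, 4, 6, 16],
  [1, 4, 9, 12],
  [2, 11, 13, 15],
  [0, 3, 11, 14],
  [0, 1, 4, 16],
  [5, 9, 14, 15],
  [0, 6, 8, 13],
  [7, 8, 10, 14],
  [6, 7, 12, 15],
  [1, 5, 12, 16],
  [7, 11, 12, 13],
  [2, 3, 10, 14],
  [1, 8, 9, 10],
  [2, 6, 10, 15],
  [3, 5, 7, 11],
  [2, 5, 8, 13],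
  [0, 4, 9, 16]]

def s4_17X : List ℤ := [-1, 2, 3, -2, -2, -1, 3, 2, -1, 2, -3, 1, -2, -1, 2, -3, 1]

def s4_17Q : List (List ℤ) := [[0, 0, 0, 0, 0, 0, 0, 0, 0, 0, 0, 0, 0, 0, 0, 0, 0],
  [0, 9, 14, -9, -13, -4, 10, 11, -6, 9, -12, 2, -9, -4, 7, -12, 4],
  [0, 14, 22, -16, -16, -4, 18, 16, -10, 14, -18, 4, -12, -8, 12, -22, 2],
  [0, -9, -16, 11, 11, 4, -12, -9, 4, -9, 14, -6, 7, 8, -9, 14, -2],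
  [0, -13, -16, 11, 11, 4, -12, -13, 8, -9, 14, -2, 11, 4, -9, 14, -2],
  [0, -4, -4, 4, 4, 0, -4, -4, 4, -4, 4, 0, 4, 0, -4, 4, 0],
  [0, 10, 18, -12, -12, -4, 10, 12, -6, 10, -14, 4, -8, -8, 8, -14, 2],
  [0, 11, 16, -9, -13, -4, 12, 11, -8, 11, -14, 2, -9, -4, 7, -14, 2],
  [0, -6, -10, 4, 8, 4, -6, -8, 2, -6, 10, 0, 4, 4, -4, 6, -2],
  [0, 9, 14, -9, -9, -4, 10, 11, -6, 9, -12, 2, -9, -4, 7, -12, 0],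
  [0, -12, -18, 14, 14, 4, -14, -14, 10, -12, 14, -4, 10, 4, -10, 18, -2],
  [0, 2, 4, -6, -2, 0, 4, 2, 0, 2, -4, 4, -2, -4, 2, -4, 0],
  [0, -9, -12, 7, 11, 4, -8, -9, 4, -9, 10, -2, 7, 4, -5, 10, -2],
  [0, -4, -8, 8, 4, 0, -8, -4, 4, -4, 4, -4, 4, 4, -4, 8, 0],
  [0, 7, 12, -9, -9, -4, 8, 7, -4, 7, -10, 2, -5, -4, 7, -10, 2],
  [0, -12, -22, 14, 14, 4, -14, -14, 6, -12, 18, -4, 10, 8, -10, 18, -2],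
  [0, 4, 2, -2, -2, 0, 2, 2, -2, 0, -2, 0, -2, 0, 2, -2, -2]]

theorem s4_17_sym : SymCert 17 4 (fun i j : Fin 17 => nb s4_17R i j) := by decide +kernel

theorem s4_17_ker : KerCert 17 (fun i j : Fin 17 => nb s4_17R i j) (fun i => s4_17X.getD i 0)
    (fun i j => lk s4_17Q i j) 4 0 := by decide +kernel

theorem s4_17 : SB 4 17 := by
  refine ⟨_, _, semi_of_cert s4_17_sym s4_17_ker, ⟨⟨0, by norm_num⟩, ?_⟩,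
    ⟨⟨1, by norm_num⟩, ?_⟩⟩
  · have h : nb s4_17R 0 0 = 0 := by decide +kernel
    exact_mod_cast h
  · have h : nb s4_17R 1 1 = 1 := by decide +kernel
    exact_mod_cast h

end PolyNut
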