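import Pool.Agent.Helper82.Nut.Range
import Pool.Agent.Helper82.Nut.SeedsF5
import Pool.Agent.Helper82.Nut.SeedsF6
import Pool.Agent.Helper82.Nut.SeedsF7
import Pool.Agent.Helper82.Nut.SeedsF8
import Pool.Agent.Helper82.Nut.SeedsF9
import Pool.Agent.Helper82.Nut.SeedsF10
import Pool.Agent.Helper82.Nut.SeedsF11
import Pool.Agent.Helper82.Nut.SeedsF12

/-!
The sets `𝔑^d_ℓ` for `4 ≤ d ≤ 12` and `ℓ ≥ 16`.
-/

namespace PolyNut

theorem SG.run {d a l : ℕ} (hd : 1 ≤ d) (ha : 2 ≤ a) (h : ∀ i, i < 2 * d → SG d (a + i))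
    (hl : a ≤ l) : SG d l := by
  have h1 := (h ((l - a) % (2 * d)) (Nat.mod_lt _ (by omega))).fowler_iter (by omega)
    ((l - a) / (2 * d))
  have h2 := Nat.mod_add_div (l - a) (2 * d)
  have e : a + (l - a) % (2 * d) + 2 * d * ((l - a) / (2 * d)) = l := by omega
  rwa [e] at h1

theorem mod_two_run {d a l : ℕ} (hd : 1 ≤ d) (hl : a ≤ l) (h2 : l % 2 = a % 2) :
    ∃ i k, i < d ∧ a + 2 * i + 2 * d * k = l := by
  obtain ⟨m, hm⟩ : ∃ m, l = a + 2 * m := ⟨(l - a) / 2, by omega⟩
  refine ⟨m % d, m / d, Nat.mod_lt _ (by omega), ?_⟩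
  have h3 := Nat.mod_add_div m d
  rw [hm]
  nlinarith

theorem SG.run2 {d a l : ℕ} (hd : 1 ≤ d) (ha : 2 ≤ a) (h : ∀ i, i < d → SG d (a + 2 * i))
    (hl : a ≤ l) (h2 : l % 2 = a % 2) : SG d l := by
  obtain ⟨i, k, hi, e⟩ := mod_two_run hd hl h2
  have h1 := (h i hi).fowler_iter (by omega) k
  rwa [e] at h1

theorem SB.run2 {d a l : ℕ} (hd : 2 ≤ d) (h : ∀ i, i < d → SB d (a + 2 * i))
    (hl : a ≤ l) (h2 : l % 2 = a % 2) : SB d l := by
  obtain ⟨i, k, hi, e⟩ := mod_two_run (d := d) (by omega) hl h2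
  have h1 := (h i hi).fowler_iter hd k
  rwa [e] at h1

theorem sg_five {l : ℕ} (h2 : l % 2 = 0) (h : 10 ≤ l) : SG 5 l := by
  refine SG.run2 (a := 10) (by norm_num) (by norm_num) ?_ h (by omega)
  intro i hi
  interval_cases i
  · exact sg5_10
  · exact sg5_12
  · exact sg5_14
  · exact sg5_16
  · exact sg5_18

theorem sg_six {l : ℕ} (h : 12 ≤ l) : SG 6 l := by
  refine SG.run (a := 12) (by norm_num) (by norm_num) ?_ h
  intro i hi
  interval_cases i
  · exact g6_12
  · exact sg6_13
  · exact sg6_14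
  · exact g6_15
  · exact sg6_16
  · exact sg6_17
  · exact sg6_18
  · exact sg6_19
  · exact sg6_20
  · exact sg6_21
  · exact sg6_22
  · exact sg6_23

theorem sg_seven {l : ℕ} (h2 : l % 2 = 0) (h : 12 ≤ l) : SG 7 l := by
  refine SG.run2 (a := 12) (by norm_num) (by norm_num) ?_ h (by omega)
  intro i hi
  interval_cases i
  · exact sg7_12
  · exact sg7_14
  · exact sg7_16
  · exact sg7_18
  · exact sg7_20
  · exact sg7_22
  · exact sg7_24

theorem sb_seven {l : ℕ} (h2 : l % 2 = 1) (h : 11 ≤ l) : SB 7 l := by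
  refine SB.run2 (a := 11) (by norm_num) ?_ h (by omega)
  intro i hi
  interval_cases i
  · exact sb7_11
  · exact sb7_13
  · exact sb7_15
  · exact sb7_17
  · exact sb7_19
  · exact sb7_21
  · exact sb7_23

theorem sg_eight {l : ℕ} (h : 14 ≤ l) : SG 8 l := by
  refine SG.run (a := 14) (by norm_num) (by norm_num) ?_ h
  intro i hi
  interval_cases i
  · exact sg8_14
  · exact g8_15
  · exact sg8_16
  · exact sg8_17
  · exact sg8_18
  · exact sg8_19
  · exact sg8_20
  · exact sg8_21
  · exact sg8_22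
  · exact sg8_23
  · exact sg8_24
  · exact sg8_25
  · exact sg8_26
  · exact sg8_27
  · exact (SG.fowler g8_12 (by norm_num))
  · exact sg8_29

theorem sg_nine {l : ℕ} (h2 : l % 2 = 0) (h : 16 ≤ l) : SG 9 l := by
  refine SG.run2 (a := 16) (by norm_num) (by norm_num) ?_ h (by omega)
  intro i hi
  interval_cases i
  · exact sg9_16
  · exact sg9_18
  · exact sg9_20
  · exact sg9_22
  · exact sg9_24
  · exact sg9_26
  · exact sg9_28
  · exact sg9_30
  · exact sg9_32

theorem sb_nine {l : ℕ} (h2 : l % 2 = 1) (h : 13 ≤ l) : SB 9 l := by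
  refine SB.run2 (a := 13) (by norm_num) ?_ h (by omega)
  intro i hi
  interval_cases i
  · exact sb9_13
  · exact sb9_15
  · exact sb9_17
  · exact sb9_19
  · exact sb9_21
  · exact sb9_23
  · exact sb9_25
  · exact sb9_27
  · exact sb9_29

theorem sg_ten {l : ℕ} (h : 15 ≤ l) : SG 10 l := by
  refine SG.run (a := 15) (by norm_num) (by norm_num) ?_ h
  intro i hi
  interval_cases i
  · exact sg10_15
  · exact sg10_16
  · exact sg10_17
  · exact sg10_18
  · exact sg10_19
  · exact sg10_20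
  · exact sg10_21
  · exact sg10_22
  · exact sg10_23
  · exact sg10_24
  · exact sg10_25
  · exact sg10_26
  · exact sg10_27
  · exact sg10_28
  · exact sg10_29
  · exact sg10_30
  · exact sg10_31
  · exact sg10_32
  · exact sg10_33
  · exact (SG.double sg10_17 (by norm_num) (by norm_num))

theorem sg_eleven {l : ℕ} (h2 : l % 2 = 0) (h : 16 ≤ l) : SG 11 l := by
  refine SG.run2 (a := 16) (by norm_num) (by norm_num) ?_ h (by omega)
  intro i hi
  interval_cases i
  · exact sg11_16
  · exact sg11_18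
  · exact sg11_20
  · exact sg11_22
  · exact sg11_24
  · exact sg11_26
  · exact sg11_28
  · exact sg11_30
  · exact (SG.double sg11_16 (by norm_num) (by norm_num))
  · exact (SB.double sb11_17 (by norm_num) (by norm_num))
  · exact (SG.double sg11_18 (by norm_num) (by norm_num))

theorem sb_eleven {l : ℕ} (h2 : l % 2 = 1) (h : 15 ≤ l) : SB 11 l := by
  refine SB.run2 (a := 15) (by norm_num) ?_ h (by omega)
  intro i hi
  interval_cases i
  · exact sb11_15
  · exact sb11_17
  · exact sb11_19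
  · exact sb11_21
  · exact sb11_23
  · exact sb11_25
  · exact sb11_27
  · exact sb11_29
  · exact sb11_31
  · exact sb11_33
  · exact sb11_35

theorem sg_twelve {l : ℕ} (h : 16 ≤ l) : SG 12 l := by
  refine SG.run (a := 16) (by norm_num) (by norm_num) ?_ h
  intro i hi
  interval_cases i
  · exact sg12_16
  · exact sg12_17
  · exact sg12_18
  · exact sg12_19
  · exact sg12_20
  · exact sg12_21
  · exact sg12_22
  · exact sg12_23
  · exact sg12_24
  · exact sg12_25
  · exact sg12_26
  · exact sg12_27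
  · exact sg12_28
  · exact sg12_29
  · exact sg12_30
  · exact sg12_31
  · exact sg12_32
  · exact sg12_33
  · exact (SG.double sg12_17 (by norm_num) (by norm_num))
  · exact sg12_35
  · exact (SG.double sg12_18 (by norm_num) (by norm_num))
  · exact sg12_37
  · exact (SG.double sg12_19 (by norm_num) (by norm_num))
  · exact sg12_39

end PolyNut
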