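import Pool.Agent.Helper82.Nut.Small

/-!
The sets `𝔑^d_ℓ` for `4 ≤ d ≤ 12` and all `ℓ ≥ 16`, and for the smaller orders of `d`-regular
nut graphs.
-/

namespace PolyNut

/-- The pairs `(d, ℓ)` with `ℓ < 16` which are covered. -/
def smallPairs : List (ℕ × ℕ) :=
  [(4, 8), (4, 10), (4, 12), (4, 14), (4, 15), (5, 10), (5, 11), (5, 12), (5, 13), (5, 14),
    (5, 15), (6, 12), (6, 13), (6, 14), (6, 15), (7, 11), (7, 12), (7, 13), (7, 14), (7, 15),
    (8, 12), (8, 14), (8, 15), (9, 13), (9, 15), (10, 15), (11, 15)]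

theorem sg_small {d l : ℕ} (hd : 4 ≤ d) (hd' : d ≤ 12) (hl : 16 ≤ l ∨ (d, l) ∈ smallPairs)
    (he : (d * l) % 2 = 0) : SG d l := by
  have h9 : d = 4 ∨ d = 5 ∨ d = 6 ∨ d = 7 ∨ d = 8 ∨ d = 9 ∨ d = 10 ∨ d = 11 ∨ d = 12 := by
    omega
  rcases h9 with rfl | rfl | rfl | rfl | rfl | rfl | rfl | rfl | rfl <;>
    simp only [smallPairs, List.mem_cons, Prod.mk.injEq, List.not_mem_nil, or_false] at hl
  · exact quartic (by omega)
  · exact sg_five (by omega) (by omega)
  · exact sg_six (by omega)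
  · exact sg_seven (by omega) (by omega)
  · rcases Nat.lt_or_ge l 14 with h | h
    · have : l = 12 := by omega
      subst this
      exact g8_12
    · exact sg_eight h
  · exact sg_nine (by omega) (by omega)
  · exact sg_ten (by omega)
  · exact sg_eleven (by omega) (by omega)
  · exact sg_twelve (by omega)

theorem sa_small {d l : ℕ} (hd : 4 ≤ d) (hd' : d ≤ 12) (hl : 16 ≤ l ∨ (d, l) ∈ smallPairs)
    (ho : (d * l) % 2 = 1) : SA d l := by
  have h9 : d = 4 ∨ d = 5 ∨ d = 6 ∨ d = 7 ∨ d = 8 ∨ d = 9 ∨ d = 10 ∨ d = 11 ∨ d = 12 := by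
    omega
  rcases h9 with rfl | rfl | rfl | rfl | rfl | rfl | rfl | rfl | rfl <;>
    simp only [smallPairs, List.mem_cons, Prod.mk.injEq, List.not_mem_nil, or_false] at hl
  · omega
  · exact (sb5 (by omega)).sa
  · omega
  · exact (sb_seven (by omega) (by omega)).sa
  · omega
  · exact (sb_nine (by omega) (by omega)).sa
  · omega
  · exact (sb_eleven (by omega) (by omega)).sa
  · omega

theorem orders_small {d l : ℕ} (hd : 4 ≤ d) (hd' : d ≤ 12)
    (hl : 16 ≤ l ∨ (d, l) ∈ smallPairs) :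
    (Even (d * l) → orders d l = {n | 1 ≤ n}) ∧
    (Odd (d * l) → orders d l = {n | 1 ≤ n ∧ Even n}) := by
  have hl2 : 2 ≤ l := by
    rcases hl with hl | hl
    · omega
    · simp only [smallPairs, List.mem_cons, Prod.mk.injEq, List.not_mem_nil, or_false] at hl
      omega
  exact ⟨fun he => (sg_small hd hd' hl (Nat.even_iff.mp he)).orders_eq hl2,
    fun ho => (sa_small hd hd' hl (Nat.odd_iff.mp ho)).orders_eq_of_odd hl2 (by omega) ho⟩

end PolyNut
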