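import Pool.Agent.Helper82.Nut.Cert

/-!
Switching a nut matrix with a gadget along an edge; complements; bipartite doubles.
-/

namespace PolyNut

open Finset

variable {V K : Type} [Fintype V] [DecidableEq V] [Fintype K] [DecidableEq K]

/-- A symmetric 0/1 matrix with row sums `t` whose kernel is two dimensional and is determined by
the values at the ends `a`, `b` of an edge. -/
structure Gad (t : ℕ) (M : K → K → ℝ) (a b : K) (Y₁ Y₂ : K → ℝ) : Prop where
  symm : ∀ i j, M i j = M j i
  zo : ∀ i j, M i j = 0 ∨ M i j = 1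
  row : ∀ i, ∑ j, M i j = t
  hab : a ≠ b
  edge : M a b = 1
  k1 : ∀ i, ∑ j, M i j * Y₁ j = 0
  k2 : ∀ i, ∑ j, M i j * Y₂ j = 0
  aa : Y₁ a = 1
  ab : Y₁ b = 0
  ba : Y₂ a = 0
  bb : Y₂ b = 1
  uniq : ∀ y : K → ℝ, (∀ i, ∑ j, M i j * y j = 0) → ∀ i, y i = y a * Y₁ i + y b * Y₂ i

/-- The matrix with the edge `u v` removed. -/
def cut (M : V → V → ℝ) (u v i j : V) : ℝ :=
  if (i = u ∧ j = v) ∨ (i = v ∧ j = u) then 0 else M i j

/-- The switch of two matrices along the edges `u v` and `a b`. -/
def sw (M₁ : V → V → ℝ) (u v : V) (M₂ : K → K → ℝ) (a b : K) : V ⊕ K → V ⊕ K → ℝ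
  | .inl i, .inl j => cut M₁ u v i j
  | .inr i, .inr j => cut M₂ a b i j
  | .inl i, .inr j => if (i = u ∧ j = a) ∨ (i = v ∧ j = b) then 1 else 0
  | .inr j, .inl i => if (i = u ∧ j = a) ∨ (i = v ∧ j = b) then 1 else 0

theorem sum_cut {M : V → V → ℝ} {u v : V} (huv : u ≠ v) (h1 : M u v = 1) (h2 : M v u = 1)
    (y : V → ℝ) (i : V) :
    ∑ j, cut M u v i j * y j = ∑ j, M i j * y j - (if i = u then y v else 0)
      - (if i = v then y u else 0) := by
  have hpt : ∀ j, cut M u v i j * y j = M i j * y j
      - (if j = v then (if i = u then y v else 0) else 0)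
      - (if j = u then (if i = v then y u else 0) else 0) := by
    intro j
    unfold cut
    by_cases hj : j = v
    · subst hj
      by_cases hi : i = u
      · subst hi; simp [h1, huv]
      · simp [hi, huv.symm]
    · by_cases hj' : j = u
      · subst hj'
        by_cases hi : i = v
        · subst hi; simp [h2, huv]
        · simp [hi, hj]
      · simp [hj, hj']
  simp_rw [hpt, Finset.sum_sub_distrib]
  simp

theorem sum_cross_left {u v : V} {a b : K} (huv : u ≠ v) (y : K → ℝ) (i : V) :
    ∑ j, (if (i = u ∧ j = a) ∨ (i = v ∧ j = b) then (1 : ℝ) else 0) * y j =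
      (if i = u then y a else 0) + (if i = v then y b else 0) := by
  by_cases hi : i = u
  · subst hi
    simp [huv]
  · by_cases hi' : i = v
    · subst hi'; simp [hi]
    · simp [hi, hi']

theorem sum_cross_right {u v : V} {a b : K} (hab : a ≠ b) (y : V → ℝ) (i : K) :
    ∑ j, (if (j = u ∧ i = a) ∨ (j = v ∧ i = b) then (1 : ℝ) else 0) * y j =
      (if i = a then y u else 0) + (if i = b then y v else 0) := by
  by_cases hi : i = a
  · subst hi
    simp [hab]
  · by_cases hi' : i = b
    · subst hi'; simp [hi]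
    · simp [hi, hi']

theorem Semi.switch {d : ℕ} {M : V → V → ℝ} {x : V → ℝ} (h : Semi d M x) {u v : V} (huv : u ≠ v)
    (hMuv : M u v = 1) {M₂ : K → K → ℝ} {a b : K} {Y₁ Y₂ : K → ℝ} (g : Gad d M₂ a b Y₁ Y₂)
    (hne : ∀ i, x v * Y₁ i + x u * Y₂ i ≠ 0) :
    Semi d (sw M u v M₂ a b) (Sum.elim x (fun i => x v * Y₁ i + x u * Y₂ i)) := by
  have hMvu : M v u = 1 := by rw [h.symm]; exact hMuv
  have hba : M₂ b a = 1 := by rw [g.symm]; exact g.edge
  have rowl : ∀ (y : V ⊕ K → ℝ) (i : V), ∑ q, sw M u v M₂ a b (.inl i) q * y q =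
      ∑ j, M i j * y (.inl j) + (if i = u then y (.inr a) - y (.inl v) else 0)
        + (if i = v then y (.inr b) - y (.inl u) else 0) := by
    intro y i
    simp only [Fintype.sum_sum_type, sw]
    rw [sum_cut huv hMuv hMvu (fun j => y (.inl j)),
      sum_cross_left huv (fun j => y (.inr j))]
    split_ifs <;> ring
  have rowr : ∀ (y : V ⊕ K → ℝ) (i : K), ∑ q, sw M u v M₂ a b (.inr i) q * y q =
      ∑ j, M₂ i j * y (.inr j) + (if i = a then y (.inl u) - y (.inr b) else 0)
        + (if i = b then y (.inl v) - y (.inr a) else 0) := by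
    intro y i
    simp only [Fintype.sum_sum_type, sw]
    rw [sum_cut g.hab g.edge hba (fun j => y (.inr j)),
      sum_cross_right g.hab (fun j => y (.inl j))]
    split_ifs <;> ring
  have dot : ∀ (y : V ⊕ K → ℝ) (Y : K → ℝ), (∀ i, ∑ j, M₂ i j * Y j = 0) →
      (∀ q, ∑ q', sw M u v M₂ a b q q' * y q' = 0) →
      Y a * (y (.inl u) - y (.inr b)) + Y b * (y (.inl v) - y (.inr a)) = 0 := by
    intro y Y hY hy
    have h1 : ∑ i, Y i * (∑ j, M₂ i j * y (.inr j)
        + (if i = a then y (.inl u) - y (.inr b) else 0)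
        + (if i = b then y (.inl v) - y (.inr a) else 0)) = 0 :=
      Finset.sum_eq_zero fun i _ => by rw [← rowr y i, hy, mul_zero]
    have h2 : ∑ i, Y i * ∑ j, M₂ i j * y (.inr j) = 0 := by
      have : ∑ i, Y i * ∑ j, M₂ i j * y (.inr j) = ∑ j, y (.inr j) * ∑ i, M₂ j i * Y i := by
        simp_rw [Finset.mul_sum]
        rw [Finset.sum_comm]
        refine Finset.sum_congr rfl fun b _ => Finset.sum_congr rfl fun a _ => ?_
        rw [g.symm a b]; ring
      rw [this]
      exact Finset.sum_eq_zero fun j _ => by rw [hY j, mul_zero]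
    simp only [mul_add, Finset.sum_add_distrib, h2, zero_add, mul_ite, mul_zero,
      Finset.sum_ite_eq', Finset.mem_univ, if_true] at h1
    linarith
  refine ⟨⟨?_, ?_, ?_, ?_⟩, ?_, ?_⟩
  · rintro (i | i) (j | j) <;> simp only [sw]
    · unfold cut
      rw [h.symm i j]
      have : (i = u ∧ j = v ∨ i = v ∧ j = u) ↔ (j = u ∧ i = v ∨ j = v ∧ i = u) := by tauto
      simp only [this]
    · unfold cut
      rw [g.symm i j]
      have : (i = a ∧ j = b ∨ i = b ∧ j = a) ↔ (j = a ∧ i = b ∨ j = b ∧ i = a) := by tauto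
      simp only [this]
  · rintro (i | i)
    · exact h.ne i
    · exact hne i
  · rintro (i | i)
    · rw [rowl]
      simp only [Sum.elim_inl, Sum.elim_inr, h.ker, g.aa, g.ab, g.ba, g.bb]
      split_ifs <;> ring
    · rw [rowr]
      simp only [Sum.elim_inl, Sum.elim_inr, g.aa, g.ab, g.ba, g.bb, mul_add,
        Finset.sum_add_distrib]
      have e1 : ∑ j, M₂ i j * (x v * Y₁ j) = 0 := by
        have : ∑ j, M₂ i j * (x v * Y₁ j) = x v * ∑ j, M₂ i j * Y₁ j := by
          rw [Finset.mul_sum]; exact Finset.sum_congr rfl fun j _ => by ring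
        rw [this, g.k1, mul_zero]
      have e2 : ∑ j, M₂ i j * (x u * Y₂ j) = 0 := by
        have : ∑ j, M₂ i j * (x u * Y₂ j) = x u * ∑ j, M₂ i j * Y₂ j := by
          rw [Finset.mul_sum]; exact Finset.sum_congr rfl fun j _ => by ring
        rw [this, g.k2, mul_zero]
      rw [e1, e2]
      split_ifs <;> ring
  · intro y hy
    have d1 := dot y Y₁ g.k1 hy
    have d2 := dot y Y₂ g.k2 hy
    rw [g.aa, g.ab] at d1
    rw [g.ba, g.bb] at d2
    have hub : y (.inl u) = y (.inr b) := by linarith
    have hva : y (.inl v) = y (.inr a) := by linarith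
    obtain ⟨c, hc⟩ := h.uniq (fun i => y (.inl i)) (by
      intro i
      have := rowl y i
      rw [hy] at this
      simp only [hub, hva, sub_self, ite_self, add_zero] at this
      exact this.symm)
    have h2 := g.uniq (fun i => y (.inr i)) (by
      intro i
      have := rowr y i
      rw [hy] at this
      simp only [hub, hva, sub_self, ite_self, add_zero] at this
      exact this.symm)
    refine ⟨c, ?_⟩
    rintro (i | i)
    · exact hc i
    · rw [h2 i, ← hub, ← hva, hc u, hc v]
      simp only [Sum.elim_inr]; ring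
  · rintro (i | i) (j | j) <;> simp only [sw]
    · unfold cut; split_ifs
      · left; rfl
      · exact h.zo i j
    · split_ifs <;> simp
    · split_ifs <;> simp
    · unfold cut; split_ifs
      · left; rfl
      · exact g.zo i j
  · rintro (i | i)
    · have := rowl (fun _ => 1) i
      simp only [mul_one, sub_self, ite_self, add_zero] at this
      rw [this, h.row]
    · have := rowr (fun _ => 1) i
      simp only [mul_one, sub_self, ite_self, add_zero] at this
      rw [this, g.row]

/-- The bipartite double of a symmetric matrix. -/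
def dbl (M : V → V → ℝ) : V ⊕ V → V ⊕ V → ℝ
  | .inl i, .inr j => M i j
  | .inr i, .inl j => M i j
  | .inl _, .inl _ => 0
  | .inr _, .inr _ => 0

theorem Semi.gad {d : ℕ} {M : V → V → ℝ} {x : V → ℝ} (h : Semi d M x) {a b : V}
    (hab : M a b = 1) :
    Gad d (dbl M) (.inl a) (.inr b) (Sum.elim (fun i => x i / x a) 0)
      (Sum.elim 0 (fun i => x i / x b)) := by
  have ha := h.ne a
  have hb := h.ne b
  have kx : ∀ (i : V) (c : ℝ), ∑ j, M i j * (x j / c) = 0 := by
    intro i c
    have : ∑ j, M i j * (x j / c) = (∑ j, M i j * x j) / c := by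
      rw [Finset.sum_div]; exact Finset.sum_congr rfl fun j _ => by ring
    rw [this, h.ker, zero_div]
  refine ⟨?_, ?_, ?_, by simp, hab, ?_, ?_, ?_, by simp, by simp, ?_, ?_⟩
  · rintro (i | i) (j | j) <;> simp only [dbl] <;> exact h.symm _ _
  · rintro (i | i) (j | j) <;> simp only [dbl]
    · left; trivial
    · exact h.zo _ _
    · exact h.zo _ _
    · left; trivial
  · rintro (i | i) <;> simp [Fintype.sum_sum_type, dbl, h.row]
  · rintro (i | i)
    · simp [Fintype.sum_sum_type, dbl]
    · simp [Fintype.sum_sum_type, dbl, kx]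
  · rintro (i | i)
    · simp [Fintype.sum_sum_type, dbl, kx]
    · simp [Fintype.sum_sum_type, dbl]
  · simp [ha]
  · simp [hb]
  · intro y hy
    obtain ⟨c, hc⟩ := h.uniq (fun i => y (.inl i)) (by
      intro i
      have := hy (.inr i)
      simpa [Fintype.sum_sum_type, dbl] using this)
    obtain ⟨c', hc'⟩ := h.uniq (fun i => y (.inr i)) (by
      intro i
      have := hy (.inl i)
      simpa [Fintype.sum_sum_type, dbl] using this)
    rintro (i | i)
    · simp only [Sum.elim_inl, Pi.zero_apply, mul_zero, add_zero]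
      rw [hc i, hc a]; field_simp
    · simp only [Sum.elim_inr, Pi.zero_apply, mul_zero, zero_add]
      rw [hc' i, hc' b]; field_simp

/-- The complement. -/
theorem Semi.compl {t : ℕ} {M : V → V → ℝ} {x : V → ℝ} (h : Semi t M x) (ht : 1 ≤ t)
    (hN : t < Fintype.card V) : Semi (Fintype.card V - t) (fun i j => 1 - M i j) x := by
  have htr : (t : ℝ) ≠ 0 := by positivity
  have colsum : ∀ y : V → ℝ, ∑ i, ∑ j, M i j * y j = t * ∑ j, y j := by
    intro y
    rw [Finset.sum_comm, Finset.mul_sum]
    refine Finset.sum_congr rfl fun j _ => ?_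
    rw [← Finset.sum_mul, ← h.row j]
    congr 1
    exact Finset.sum_congr rfl fun i _ => h.symm i j
  have hx0 : ∑ j, x j = 0 := by
    have := colsum x
    simp only [h.ker, Finset.sum_const_zero] at this
    rcases mul_eq_zero.mp this.symm with h1 | h1
    · exact absurd h1 htr
    · exact h1
  refine ⟨⟨?_, h.ne, ?_, ?_⟩, ?_, ?_⟩
  · intro i j; simp only [h.symm i j]
  · intro i
    simp only [sub_mul, one_mul, Finset.sum_sub_distrib, hx0, h.ker, sub_zero]
  · intro y hy
    have h1 : ∀ i, ∑ j, M i j * y j = ∑ j, y j := by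
      intro i
      have := hy i
      simp only [sub_mul, one_mul, Finset.sum_sub_distrib] at this
      linarith
    have h2 := colsum y
    simp only [h1, Finset.sum_const, Finset.card_univ, nsmul_eq_mul] at h2
    have h3 : (Fintype.card V : ℝ) - t ≠ 0 := by
      have : (t : ℝ) < Fintype.card V := by exact_mod_cast hN
      intro h0; linarith
    have h4 : ∑ j, y j = 0 := by
      have : ((Fintype.card V : ℝ) - t) * ∑ j, y j = 0 := by linarith
      rcases mul_eq_zero.mp this with h5 | h5
      · exact absurd h5 h3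
      · exact h5
    exact h.uniq y (fun i => by rw [h1, h4])
  · intro i j
    rcases h.zo i j with h1 | h1 <;> simp [h1]
  · intro i
    simp only [Finset.sum_sub_distrib, h.row]
    rw [Nat.cast_sub hN.le]
    simp

end PolyNut
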