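import Pool.Agent.Helper82.Nut.Realise

/-!
Orders of regular nut graphs versus `𝔑^d_ℓ`.
-/

namespace PolyNut

open Finset

theorem NutVec.reindex {V W : Type*} [Fintype V] [DecidableEq V] [Fintype W] [DecidableEq W]
    {M : V → V → ℝ} {x : V → ℝ} (h : NutVec M x) (e : W ≃ V) :
    NutVec (fun a b => M (e a) (e b)) (fun a => x (e a)) where
  symm a b := h.symm _ _
  ne a := h.ne _
  ker a := by
    rw [Equiv.sum_comp e (fun b => M (e a) b * x b)]
    exact h.ker _
  uniq y hy := by
    obtain ⟨c, hc⟩ := h.uniq (fun a => y (e.symm a)) (by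
      intro a
      have h1 := hy (e.symm a)
      simp only [Equiv.apply_symm_apply] at h1
      rw [← h1, ← Equiv.sum_comp e (fun b => M a b * y (e.symm b))]
      simp)
    exact ⟨c, fun a => by simpa using hc (e a)⟩

theorem Semi.reindex {V W : Type} [Fintype V] [DecidableEq V] [Fintype W] [DecidableEq W]
    {d : ℕ} {M : V → V → ℝ} {x : V → ℝ} (h : Semi d M x) (e : W ≃ V) :
    Semi d (fun a b => M (e a) (e b)) (fun a => x (e a)) where
  toNutVec := h.toNutVec.reindex e
  zo a b := h.zo _ _
  row a := by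
    rw [Equiv.sum_comp e (fun b => M (e a) b)]
    exact h.row _

/-- A `d`-regular nut graph on `N` vertices exists (matrix form). -/
def SG (d N : ℕ) : Prop :=
  ∃ (M : Fin N → Fin N → ℝ) (x : Fin N → ℝ), Semi d M x ∧ ∀ a, M a a = 0

/-- A `d`-regular nut graph with semi-edges on `N` vertices exists (matrix form). -/
def SA (d N : ℕ) : Prop := ∃ (M : Fin N → Fin N → ℝ) (x : Fin N → ℝ), Semi d M x

theorem SG.sa {d N : ℕ} (h : SG d N) : SA d N := by
  obtain ⟨M, x, h1, -⟩ := h; exact ⟨M, x, h1⟩

theorem Semi.toSG {V : Type} [Fintype V] [DecidableEq V] {d N : ℕ} {M : V → V → ℝ} {x : V → ℝ}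
    (h : Semi d M x) (h0 : ∀ a, M a a = 0) (hN : Fintype.card V = N) : SG d N := by
  obtain ⟨e⟩ : Nonempty (Fin N ≃ V) := by
    rw [← Fintype.card_eq]; simp [hN]
  exact ⟨_, _, h.reindex e, fun a => h0 _⟩

theorem Semi.toSA {V : Type} [Fintype V] [DecidableEq V] {d N : ℕ} {M : V → V → ℝ} {x : V → ℝ}
    (h : Semi d M x) (hN : Fintype.card V = N) : SA d N := by
  obtain ⟨e⟩ : Nonempty (Fin N ≃ V) := by
    rw [← Fintype.card_eq]; simp [hN]
  exact ⟨_, _, h.reindex e⟩

/-- The kernel of a nut graph as a `Semi` structure. -/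
theorem semi_of_nut {V : Type} [Fintype V] [DecidableEq V] {G : SimpleGraph V} {d : ℕ}
    (hreg : ∀ v, (G.neighborSet v).ncard = d) (hnut : IsNut G) :
    ∃ (M : V → V → ℝ) (x : V → ℝ), Semi d M x ∧ ∀ a, M a a = 0 := by
  classical
  obtain ⟨hc, hr, x, hx, hne⟩ := hnut
  refine ⟨fun a b => if G.Adj a b then 1 else 0, x, ⟨⟨?_, hne, ?_, ?_⟩, ?_, ?_⟩, ?_⟩
  · intro a b; simp [G.adj_comm]
  · intro a
    have := congrFun (LinearMap.mem_ker.mp hx) a
    simpa [Matrix.mulVec, dotProduct, SimpleGraph.adjMatrix_apply] using this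
  · intro y hy
    rw [finrank_eq_one_iff'] at hr
    obtain ⟨⟨w, hw⟩, hw0, hspan⟩ := hr
    have hyk : y ∈ LinearMap.ker (G.adjMatrix ℝ).mulVecLin := by
      rw [LinearMap.mem_ker]
      funext a
      have := hy a
      simpa [Matrix.mulVec, dotProduct, SimpleGraph.adjMatrix_apply] using this
    obtain ⟨c1, h1⟩ := hspan ⟨x, hx⟩
    obtain ⟨c2, h2⟩ := hspan ⟨y, hyk⟩
    have h1' : c1 • w = x := congrArg Subtype.val h1
    have h2' : c2 • w = y := congrArg Subtype.val h2
    have hc1 : c1 ≠ 0 := by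
      intro h0
      obtain ⟨a⟩ : Nonempty V := Fintype.card_pos_iff.mp (by omega)
      apply hne a
      rw [← h1', h0]; simp
    refine ⟨c2 / c1, fun a => ?_⟩
    rw [← h2', ← h1']
    simp only [Pi.smul_apply, smul_eq_mul]
    field_simp
  · intro a b; by_cases h : G.Adj a b <;> simp [h]
  · intro a
    have h1 : G.neighborSet a = ((Finset.univ.filter (fun b => G.Adj a b) : Finset V) : Set V) := by
      ext b; simp
    have h2 := hreg a
    rw [h1, Set.ncard_coe_finset] at h2
    rw [← h2, Finset.card_filter]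
    push_cast
    rfl
  · intro a; simp

theorem card_lt_of_mem_orders {d l n : ℕ} (h : n ∈ orders d l) : SG d (n * l) ∧ 2 ≤ n * l := by
  classical
  obtain ⟨h1, V, hV, G, hcard, hreg, hnut, -⟩ := h
  obtain ⟨M, x, hM, h0⟩ := semi_of_nut hreg hnut
  exact ⟨hM.toSG h0 hcard, hcard ▸ hnut.1⟩

theorem Semi.sum_off {V : Type} [Fintype V] [DecidableEq V] {d : ℕ} {M : V → V → ℝ} {x : V → ℝ}
    (h : Semi d M x) : ∑ a, ∑ b, (if a = b then 0 else M a b) =
      d * (Fintype.card V : ℝ) - ∑ a, M a a := by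
  have h1 : ∀ a, ∑ b, (if a = b then 0 else M a b) = d - M a a := by
    intro a
    rw [← h.row a]
    have h2 : ∀ b, (if a = b then 0 else M a b) = M a b - (if a = b then M a b else 0) := by
      intro b; by_cases hab : a = b <;> simp [hab]
    simp_rw [h2, Finset.sum_sub_distrib]
    simp
  simp_rw [h1, Finset.sum_sub_distrib]
  simp [mul_comm]

theorem Semi.two_le {V : Type} [Fintype V] [DecidableEq V] {d : ℕ} {M : V → V → ℝ} {x : V → ℝ}
    (h : Semi d M x) (hc : 2 ≤ Fintype.card V) : 2 ≤ d := by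
  by_contra hd
  have hd' : d = 0 ∨ d = 1 := by omega
  obtain ⟨a, b, hab⟩ := Fintype.one_lt_card_iff.mp (show 1 < Fintype.card V by omega)
  rcases hd' with rfl | rfl
  · -- the zero matrix
    have hz : ∀ a b, M a b = 0 := by
      intro a b
      have h1 := h.row a
      have h2 : M a b ≤ ∑ b, M a b := Finset.single_le_sum (f := fun b => M a b)
        (fun c _ => by rcases h.zo a c with h3 | h3 <;> rw [h3] <;> norm_num) (mem_univ b)
      rw [h1] at h2
      rcases h.zo a b with h3 | h3
      · exact h3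
      · rw [h3] at h2; norm_num at h2
    obtain ⟨c, hc⟩ := h.uniq (fun i => if i = a then 1 else 0) (by intro i; simp [hz])
    have h1 := hc a
    have h2 := hc b
    simp [hab.symm] at h1 h2
    rcases h2 with h2 | h2
    · rw [h2] at h1; simp at h1
    · exact h.ne b h2
  · -- exactly one neighbour
    have h1 := h.row a
    have h2 : ∃ b, M a b = 1 := by
      by_contra hcon
      push Not at hcon
      have : ∑ b, M a b = 0 := Finset.sum_eq_zero fun b _ => by
        rcases h.zo a b with h3 | h3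
        · exact h3
        · exact absurd h3 (hcon b)
      rw [this] at h1; norm_num at h1
    obtain ⟨b, hb⟩ := h2
    have h3 : ∀ c, c ≠ b → M a c = 0 := by
      intro c hcb
      rcases h.zo a c with h4 | h4
      · exact h4
      · exfalso
        have h5 : M a b + M a c ≤ ∑ b, M a b := by
          rw [← Finset.sum_pair (f := fun b => M a b) (Ne.symm hcb)]
          exact Finset.sum_le_sum_of_subset_of_nonneg (subset_univ _)
            (fun i _ _ => by rcases h.zo a i with h3 | h3 <;> rw [h3] <;> norm_num)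
        rw [h1, hb, h4] at h5
        norm_num at h5
    have h4 := h.ker a
    rw [Finset.sum_eq_single b (fun c _ hc => by rw [h3 c hc, zero_mul])
      (fun hc => absurd (mem_univ _) hc), hb, one_mul] at h4
    exact h.ne b h4

theorem mem_orders_of_semi {V : Type} [Fintype V] [DecidableEq V] {d : ℕ} {M : V → V → ℝ}
    {x : V → ℝ} (hM : Semi d M x) (hcard : 2 ≤ Fintype.card V)
    (hoff : 2 * (Fintype.card V : ℝ) ≤ d * (Fintype.card V : ℝ) - ∑ a, M a a) {n : ℕ}
    (hn : 1 ≤ n) (h : ZMod n) (hh : h + h = 0) (hloop : ∀ a, M a a = 1 → h ≠ 0) :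
    n ∈ orders d (Fintype.card V) := by
  have : Nonempty V := Fintype.card_pos_iff.mp (by omega)
  obtain ⟨u, v, huv, hMuv, z, hz, hgood⟩ := goodEdge hM.toNutVec (by
    rw [hM.sum_off]; intro hcon; linarith)
  refine mem_orders_of_good hM hcard huv ?_ hz hgood hn h hh hloop
  rcases hM.zo u v with h1 | h1
  · exact absurd h1 hMuv
  · exact h1

/-- If a `d`-regular nut graph of order `N` exists, all orbit lengths occur. -/
theorem SG.orders_eq {d N : ℕ} (h : SG d N) (hN : 2 ≤ N) : orders d N = {n | 1 ≤ n} := by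
  obtain ⟨M, x, hM, h0⟩ := h
  have hd := hM.two_le (by simpa using hN)
  ext n
  constructor
  · intro hn; exact hn.1
  · intro hn
    have := mem_orders_of_semi hM (by simpa using hN) (by
      have hd' : (2 : ℝ) ≤ d := by exact_mod_cast hd
      simp only [h0, Finset.sum_const_zero, Fintype.card_fin, sub_zero]
      have : (0 : ℝ) ≤ N := Nat.cast_nonneg _
      nlinarith) hn 0 (by simp) (by intro a ha; rw [h0 a] at ha; norm_num at ha)
    simpa using this

/-- With semi-edges all even orbit lengths occur. -/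
theorem SA.even_mem {d N : ℕ} (h : SA d N) (hN : 2 ≤ N) (hd : 3 ≤ d) {n : ℕ} (hn : 1 ≤ n)
    (he : Even n) : n ∈ orders d N := by
  obtain ⟨M, x, hM⟩ := h
  obtain ⟨k, hk⟩ := he
  have hk0 : 0 < k := by omega
  have := mem_orders_of_semi hM (by simpa using hN) (by
    have hd' : (3 : ℝ) ≤ d := by exact_mod_cast hd
    have h1 : ∑ a, M a a ≤ N := by
      have : ∑ a, M a a ≤ ∑ a : Fin N, (1 : ℝ) := Finset.sum_le_sum fun a _ => by
        rcases hM.zo a a with h3 | h3 <;> rw [h3] <;> norm_num
      simpa using this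
    simp only [Fintype.card_fin]
    have : (0 : ℝ) ≤ N := Nat.cast_nonneg _
    nlinarith) hn (k : ZMod n) (by
      rw [← Nat.cast_add, ← hk]; simp) (by
      intro a _ h0
      rw [ZMod.natCast_eq_zero_iff] at h0
      have := Nat.le_of_dvd hk0 h0
      omega)
  simpa using this

/-- Handshake parity. -/
theorem even_of_mem_orders {d l n : ℕ} (h : n ∈ orders d l) : Even (d * (n * l)) := by
  classical
  obtain ⟨h1, V, hV, G, hcard, hreg, hnut, -⟩ := h
  have hdeg : ∀ v, G.degree v = d := by
    intro v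
    rw [← hreg v, Set.ncard_eq_toFinset_card', ← SimpleGraph.card_neighborFinset_eq_degree]
    rfl
  have := G.sum_degrees_eq_twice_card_edges
  simp_rw [hdeg] at this
  rw [Finset.sum_const, Finset.card_univ, hcard, smul_eq_mul] at this
  rw [mul_comm, this]
  exact even_two_mul _

theorem SA.orders_eq_of_odd {d N : ℕ} (h : SA d N) (hN : 2 ≤ N) (hd : 3 ≤ d)
    (hodd : Odd (d * N)) : orders d N = {n | 1 ≤ n ∧ Even n} := by
  ext n
  constructor
  · intro hn
    refine ⟨hn.1, ?_⟩
    have h1 := even_of_mem_orders hn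
    rw [Nat.odd_mul] at hodd
    rw [Nat.even_mul, Nat.even_mul] at h1
    rcases h1 with h1 | h1 | h1
    · exact absurd h1 (Nat.not_even_iff_odd.mpr hodd.1)
    · exact h1
    · exact absurd h1 (Nat.not_even_iff_odd.mpr hodd.2)
  · rintro ⟨h1, h2⟩
    exact h.even_mem hN hd h1 h2

/-- Transfer theorem. -/
theorem transfer {d l : ℕ} (h : 1 ∈ orders d l) : orders d l = {n | 1 ≤ n} := by
  obtain ⟨h1, h2⟩ := card_lt_of_mem_orders h
  rw [one_mul] at h1 h2
  exact h1.orders_eq h2

end PolyNut
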